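import Pool.Agent.H88.MO.Crit

namespace Pool.Agent.H88.MO

open Filter Topology

variable {𝕜 : Type*} [RCLike 𝕜] {ι : Type*} {M : ι → ℝ → ℝ}
variable {X : Type*} [NormedAddCommGroup X] [NormedSpace 𝕜 X] {e : ι → X}

/-- closed span of the unit vectors off `F` -/
def tail (𝕜 : Type*) [RCLike 𝕜] {X : Type*} [NormedAddCommGroup X] [NormedSpace 𝕜 X]
    (e : ι → X) (F : Finset ι) : Submodule 𝕜 X :=
  (Submodule.span 𝕜 (e '' {i | i ∉ F})).topologicalClosure

theorem tail_codim (hd : (Submodule.span 𝕜 (Set.range e)).topologicalClosure = ⊤)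
    (F : Finset ι) : FiniteDimensional 𝕜 (X ⧸ tail 𝕜 e F) := by
  set W : Submodule 𝕜 X := Submodule.span 𝕜 (e '' (F : Set ι)) with hW
  have hWfin : FiniteDimensional 𝕜 W :=
    FiniteDimensional.span_of_finite 𝕜 (F.finite_toSet.image e)
  have hclosed : IsClosed ((tail 𝕜 e F ⊔ W : Submodule 𝕜 X) : Set X) :=
    Submodule.isClosed_sup_finiteDimensional _ _ (Submodule.isClosed_topologicalClosure _)
  have htop : tail 𝕜 e F ⊔ W = ⊤ := by
    rw [eq_top_iff, ← hd]
    refine Submodule.topologicalClosure_minimal _ ?_ hclosed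
    rw [Submodule.span_le]
    rintro _ ⟨i, rfl⟩
    by_cases hi : i ∈ F
    · exact Submodule.mem_sup_right (Submodule.subset_span ⟨i, hi, rfl⟩)
    · exact Submodule.mem_sup_left
        (Submodule.le_topologicalClosure _ (Submodule.subset_span ⟨i, hi, rfl⟩))
  have hsurj : Function.Surjective ((tail 𝕜 e F).mkQ.comp W.subtype) := by
    intro x
    obtain ⟨x, rfl⟩ := (tail 𝕜 e F).mkQ_surjective x
    have hx : x ∈ tail 𝕜 e F ⊔ W := by rw [htop]; trivial
    obtain ⟨y, hy, w, hw, rfl⟩ := Submodule.mem_sup.1 hx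
    refine ⟨⟨w, hw⟩, ?_⟩
    simp only [LinearMap.comp_apply, Submodule.subtype_apply, map_add]
    have : (tail 𝕜 e F).mkQ y = 0 := by
      rw [Submodule.mkQ_apply, Submodule.Quotient.mk_eq_zero]; exact hy
    rw [this, zero_add]
  exact Module.Finite.of_surjective _ hsurj

theorem tail_approx {F : Finset ι} {x : X} (hx : x ∈ tail 𝕜 e F) {θ : ℝ} (hθ : 0 < θ) :
    ∃ f : ι →₀ 𝕜, Disjoint f.support F ∧ ‖x - J e f‖ ≤ θ := by
  have h1 : x ∈ closure (Submodule.span 𝕜 (e '' {i | i ∉ F}) : Set X) := hx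
  obtain ⟨y, hy, hxy⟩ := Metric.mem_closure_iff.1 h1 θ hθ
  obtain ⟨l, hl, rfl⟩ := (Finsupp.mem_span_image_iff_linearCombination 𝕜).1 hy
  refine ⟨l, ?_, ?_⟩
  · rw [Finset.disjoint_left]
    intro i hi
    exact (Finsupp.mem_supported _ _).1 hl hi
  · rw [← dist_eq_norm]; exact hxy.le

/-- the modulus of a finitely supported family -/
noncomputable def absF (f : ι →₀ 𝕜) : ι →₀ 𝕜 := f.mapRange (fun a => ((‖a‖ : ℝ) : 𝕜)) (by simp)

theorem absF_apply (f : ι →₀ 𝕜) (i : ι) : absF f i = ((‖f i‖ : ℝ) : 𝕜) := by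
  simp [absF]

theorem norm_absF_apply (f : ι →₀ 𝕜) (i : ι) : ‖absF f i‖ = ‖f i‖ := by
  rw [absF_apply, RCLike.norm_ofReal, abs_of_nonneg (norm_nonneg _)]

theorem norm_J_absF (h : IsMusielakOrlicz 𝕜 M e) (f : ι →₀ 𝕜) : ‖J e (absF f)‖ = ‖J e f‖ :=
  norm_J_congr h _ _ (norm_absF_apply f)

theorem absF_support (f : ι →₀ 𝕜) : (absF f).support ⊆ f.support := Finsupp.support_mapRange

/-- square of the norm of the image in the weighted Euclidean space -/
theorem norm_sq_weighted (s0 : Finset ι) (w : ι → ℝ) (hw : ∀ i, 0 ≤ w i) (v : s0 → 𝕜) :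
    ‖(WithLp.toLp 2 (fun i : s0 => ((Real.sqrt (w i) : ℝ) : 𝕜) * v i) :
      EuclideanSpace 𝕜 s0)‖ ^ 2 = ∑ i : s0, w i * ‖v i‖ ^ 2 := by
  rw [EuclideanSpace.norm_sq_eq]
  refine Finset.sum_congr rfl fun i _ => ?_
  simp only [norm_mul, RCLike.norm_ofReal, abs_of_nonneg (Real.sqrt_nonneg _), mul_pow,
    Real.sq_sqrt (hw i)]

/-- **Criterion.** A Musielak–Orlicz space satisfying the local quadratic condition is
asymptotically Hilbertian. -/
theorem Quad.asymptoticallyHilbertian (h : IsMusielakOrlicz 𝕜 M e) {K : ℝ} (hK : 1 ≤ K)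
    (hQ : Quad 𝕜 M K) : AsymptoticallyHilbertian 𝕜 X := by
  classical
  have hK0 : 0 < K := by linarith
  have hM := h.orlicz
  refine ⟨(3 / 2 * Real.sqrt (4 * K ^ 2 + 1)) / (Real.sqrt (1 / (8 * K ^ 2)) / 2), fun n => ?_⟩
  -- the scale `r`
  obtain ⟨r, hr⟩ := pow_unbounded_of_one_lt (4 * (n + 1) * 3 ^ n : ℝ) (one_lt_two)
  obtain ⟨F, hF⟩ := hQ.core h hK r
  refine ⟨tail 𝕜 e F, Submodule.isClosed_topologicalClosure _, tail_codim h.dense F, ?_⟩
  intro E hE hEfin hEn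
  obtain ⟨b, hb1, hb2⟩ := exists_good_basis (𝕜 := 𝕜) n E hEn
  have hspan : ⊤ ≤ Submodule.span 𝕜 (Set.range b) := by
    intro x _
    obtain ⟨c, hc, _⟩ := hb2 x
    rw [hc]
    exact Submodule.sum_mem _ fun l _ => Submodule.smul_mem _ _ (Submodule.subset_span ⟨l, rfl⟩)
  set B : Module.Basis (Fin n) 𝕜 E := basisOfTopLeSpanOfCardEqFinrank b hspan
    (by rw [hEn, Fintype.card_fin]) with hB
  have hBb : ∀ l, B l = b l := fun l => by rw [hB, coe_basisOfTopLeSpanOfCardEqFinrank]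
  have hcoef : ∀ (x : E) (l : Fin n), ‖B.repr x l‖ ≤ 3 ^ n * ‖x‖ := by
    intro x l
    obtain ⟨c, hc, hcb⟩ := hb2 x
    have h1 : B.repr x l = c l := by
      have h2 : x = ∑ l, c l • B l := by simp only [hBb]; exact hc
      conv_lhs => rw [h2]
      rw [Module.Basis.repr_sum_self]
    rw [h1]
    exact hcb l
  -- approximation
  set θ : ℝ := 1 / (2 * ((n + 1) * 3 ^ n)) with hθ
  have hθ0 : 0 < θ := by positivity
  have hθ1 : θ ≤ 1 := by
    rw [hθ, div_le_one (by positivity)]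
    have h3 : (1 : ℝ) ≤ 3 ^ n := one_le_pow₀ (by norm_num)
    have h4 : (0 : ℝ) ≤ n := by positivity
    nlinarith
  have happ : ∀ l, ∃ f : ι →₀ 𝕜, Disjoint f.support F ∧ ‖(b l : X) - J e f‖ ≤ θ := fun l =>
    tail_approx (hE (b l).2) hθ0
  choose f hfd hfθ using happ
  have hfn : ∀ l, ‖J e (f l)‖ ≤ 2 := by
    intro l
    calc ‖J e (f l)‖ = ‖(b l : X) - ((b l : X) - J e (f l))‖ := by congr 1; abel
      _ ≤ ‖(b l : X)‖ + ‖(b l : X) - J e (f l)‖ := norm_sub_le _ _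
      _ ≤ 1 + 1 := add_le_add (hb1 l) ((hfθ l).trans hθ1)
      _ = 2 := by norm_num
  set P : E →ₗ[𝕜] (ι →₀ 𝕜) := B.constr 𝕜 f with hP
  have hPx : ∀ x, P x = ∑ l, B.repr x l • f l := fun x => by
    rw [hP, Module.Basis.constr_apply_fintype]
    simp [Module.Basis.equivFun_apply]
  have hxsum : ∀ x : E, (x : X) = ∑ l, B.repr x l • (b l : X) := by
    intro x
    have h1 := B.sum_repr x
    have h2 := congrArg (Subtype.val : E → X) h1
    simp only [hBb] at h2
    rw [← h2]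
    simp
  have hdiff : ∀ x : E, ‖(x : X) - J e (P x)‖ ≤ 1 / 2 * ‖x‖ := by
    intro x
    have h1 : (x : X) - J e (P x) = ∑ l, B.repr x l • ((b l : X) - J e (f l)) := by
      rw [hPx, J, map_sum]
      conv_lhs => rw [hxsum x]
      rw [← Finset.sum_sub_distrib]
      refine Finset.sum_congr rfl fun l _ => ?_
      rw [map_smul, smul_sub]
    rw [h1]
    calc ‖∑ l, B.repr x l • ((b l : X) - J e (f l))‖ ≤
          ∑ l, ‖B.repr x l • ((b l : X) - J e (f l))‖ := norm_sum_le _ _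
      _ ≤ ∑ _l : Fin n, 3 ^ n * ‖x‖ * θ := by
          refine Finset.sum_le_sum fun l _ => ?_
          rw [norm_smul]
          exact mul_le_mul (hcoef x l) (hfθ l) (norm_nonneg _) (by positivity)
      _ = (n * 3 ^ n * θ) * ‖x‖ := by
          rw [Finset.sum_const, Finset.card_univ, Fintype.card_fin, nsmul_eq_mul]; ring
      _ ≤ 1 / 2 * ‖x‖ := by
          gcongr
          rw [hθ, mul_one_div, div_le_iff₀ (by positivity)]
          have h3 : (0 : ℝ) ≤ 3 ^ n := by positivity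
          nlinarith
  have hlow : ∀ x : E, 1 / 2 * ‖x‖ ≤ ‖J e (P x)‖ := by
    intro x
    have h1 := hdiff x
    have h2 : ‖(x : X)‖ ≤ ‖(x : X) - J e (P x)‖ + ‖J e (P x)‖ := by
      simpa using norm_add_le ((x : X) - J e (P x)) (J e (P x))
    have h3 : ‖(x : X)‖ = ‖x‖ := rfl
    linarith
  have hupp : ∀ x : E, ‖J e (P x)‖ ≤ 3 / 2 * ‖x‖ := by
    intro x
    have h1 := hdiff x
    have h2 : ‖J e (P x)‖ ≤ ‖(x : X)‖ + ‖(x : X) - J e (P x)‖ := by
      have := norm_sub_le (x : X) ((x : X) - J e (P x))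
      simpa using this
    have h3 : ‖(x : X)‖ = ‖x‖ := rfl
    linarith
  -- the dominating vector
  set z : ι →₀ 𝕜 := (((1 / (2 * (n + 1)) : ℝ)) : 𝕜) • ∑ l, absF (f l) with hz
  have hzi : ∀ i, ‖z i‖ = 1 / (2 * (n + 1)) * ∑ l, ‖f l i‖ := by
    intro i
    have h1 : z i = (((1 / (2 * (n + 1)) * ∑ l, ‖f l i‖ : ℝ)) : 𝕜) := by
      rw [hz, Finsupp.smul_apply, Finsupp.finsetSum_apply]
      simp only [absF_apply, smul_eq_mul]
      push_cast
      ring
    rw [h1, RCLike.norm_ofReal, abs_of_nonneg]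
    exact mul_nonneg (by positivity) (Finset.sum_nonneg fun l _ => norm_nonneg _)
  have hzd : Disjoint z.support F := by
    refine Finset.disjoint_of_subset_left
      (Finsupp.support_smul.trans Finsupp.support_finsetSum) ?_
    rw [Finset.disjoint_biUnion_left]
    exact fun l _ => Finset.disjoint_of_subset_left (absF_support _) (hfd l)
  have hz1 : ‖J e z‖ ≤ 1 := by
    rw [hz, norm_real_smul (by positivity), J, map_sum]
    calc 1 / (2 * ((n : ℝ) + 1)) * ‖∑ l, J e (absF (f l))‖ ≤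
          1 / (2 * ((n : ℝ) + 1)) * ∑ l, ‖J e (absF (f l))‖ := by
          gcongr
          exact norm_sum_le _ _
      _ ≤ 1 / (2 * ((n : ℝ) + 1)) * ∑ _l : Fin n, (2 : ℝ) := by
          gcongr with l _
          rw [norm_J_absF h]
          exact hfn l
      _ ≤ 1 := by
          rw [Finset.sum_const, Finset.card_univ, Fintype.card_fin, nsmul_eq_mul,
            one_div_mul_eq_div, div_le_one (by positivity)]
          linarith
  have hdom : ∀ (x : E) (i : ι), ‖P x i‖ ≤ 2 ^ r * ‖J e (P x)‖ * ‖z i‖ := by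
    intro x i
    have h1 : ‖P x i‖ ≤ 3 ^ n * ‖x‖ * ∑ l, ‖f l i‖ := by
      rw [hPx, Finsupp.finsetSum_apply, Finset.mul_sum]
      refine (norm_sum_le _ _).trans (Finset.sum_le_sum fun l _ => ?_)
      rw [Finsupp.smul_apply, smul_eq_mul, norm_mul]
      exact mul_le_mul_of_nonneg_right (hcoef x l) (norm_nonneg _)
    have h2 : ∑ l, ‖f l i‖ = 2 * (n + 1) * ‖z i‖ := by
      rw [hzi]
      field_simp
    have h3 := hlow x
    calc ‖P x i‖ ≤ 3 ^ n * ‖x‖ * (2 * (n + 1) * ‖z i‖) := by rw [← h2]; exact h1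
      _ ≤ 3 ^ n * (2 * ‖J e (P x)‖) * (2 * (n + 1) * ‖z i‖) := by
          gcongr
          linarith
      _ = (4 * (n + 1) * 3 ^ n) * ‖J e (P x)‖ * ‖z i‖ := by ring
      _ ≤ 2 ^ r * ‖J e (P x)‖ * ‖z i‖ := by gcongr
  -- the quadratic form on `E`
  have hqf : ∀ x : E, 1 / (8 * K ^ 2) * ‖J e (P x)‖ ^ 2 ≤ qf M z (P x) ∧
      qf M z (P x) ≤ (4 * K ^ 2 + 1) * ‖J e (P x)‖ ^ 2 := by
    intro x
    rcases eq_or_lt_of_le (norm_nonneg (J e (P x))) with h0 | h0
    · have hP0 : ∀ i, ‖P x i‖ = 0 := by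
        intro i
        have := hdom x i
        rw [← h0] at this
        simp only [mul_zero, zero_mul] at this
        exact le_antisymm this (norm_nonneg _)
      have hq0 : qf M z (P x) = 0 := by
        unfold qf
        exact Finset.sum_eq_zero fun i _ => by rw [hP0]; ring
      rw [hq0, ← h0]
      simp
    · set N0 := ‖J e (P x)‖ with hN0
      set τ : ℝ := 1 / (2 ^ r * N0) with hτ
      have hτ0 : 0 < τ := by positivity
      have hτi : ∀ i, ‖((τ : 𝕜) • P x) i‖ = τ * ‖P x i‖ := fun i => by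
        rw [Finsupp.smul_apply, smul_eq_mul, norm_mul, RCLike.norm_ofReal, abs_of_nonneg hτ0.le]
      have h1 := hF ((τ : 𝕜) • P x) z hzd hz1 (by
        intro i
        rw [hτi, hτ, one_div_mul_eq_div, div_le_iff₀ (by positivity)]
        have := hdom x i
        linarith) (by
        rw [norm_real_smul hτ0.le, ← hN0, hτ]
        field_simp)
      have h2 : qf M z ((τ : 𝕜) • P x) = τ ^ 2 * qf M z (P x) := by
        unfold qf
        rw [Finset.mul_sum]
        refine Finset.sum_congr rfl fun i _ => ?_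
        rw [hτi]
        ring
      rw [h2] at h1
      have h3 : (4 : ℝ) ^ r = (2 ^ r) ^ 2 := by rw [← pow_mul, mul_comm, pow_mul]; norm_num
      have h4 : 4 ^ r * (τ ^ 2 * qf M z (P x)) = qf M z (P x) / N0 ^ 2 := by
        rw [h3, hτ]
        field_simp
      rw [h4] at h1
      have hN2 : 0 < N0 ^ 2 := by positivity
      exact ⟨by rw [le_div_iff₀ hN2] at h1; exact h1.1, by rw [div_le_iff₀ hN2] at h1; exact h1.2⟩
  -- the linear map
  set w : ι → ℝ := fun i => M i ‖z i‖ / ‖z i‖ ^ 2 with hw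
  have hw0 : ∀ i, 0 ≤ w i := fun i =>
    div_nonneg ((hM i).nonneg _ (norm_nonneg _)) (by positivity)
  let L : E →ₗ[𝕜] EuclideanSpace 𝕜 z.support :=
    { toFun := fun x => WithLp.toLp 2 (fun i : z.support => ((Real.sqrt (w i) : ℝ) : 𝕜) * P x i)
      map_add' := by
        intro x y
        ext i
        simp [mul_add]
      map_smul' := by
        intro a x
        ext i
        simp
        ring }
  have hL2 : ∀ x, ‖L x‖ ^ 2 = qf M z (P x) := by
    intro x
    have h1 := norm_sq_weighted z.support w hw0 (fun i : z.support => P x i)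
    have h2 : ‖L x‖ ^ 2 = ∑ i : z.support, w i * ‖P x i‖ ^ 2 := h1
    rw [h2]
    unfold qf
    rw [← Finset.sum_coe_sort z.support (fun i => M i ‖z i‖ / ‖z i‖ ^ 2 * ‖P x i‖ ^ 2)]
  have hsq1 : 0 < Real.sqrt (1 / (8 * K ^ 2)) := Real.sqrt_pos.2 (by positivity)
  have hLlow : ∀ x, Real.sqrt (1 / (8 * K ^ 2)) / 2 * ‖x‖ ≤ ‖L x‖ := by
    intro x
    have h1 : (Real.sqrt (1 / (8 * K ^ 2)) * ‖J e (P x)‖) ^ 2 ≤ ‖L x‖ ^ 2 := by
      rw [hL2, mul_pow, Real.sq_sqrt (by positivity)]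
      exact (hqf x).1
    have h2 := (sq_le_sq₀ (by positivity) (norm_nonneg _)).1 h1
    have h3 := hlow x
    calc Real.sqrt (1 / (8 * K ^ 2)) / 2 * ‖x‖ = Real.sqrt (1 / (8 * K ^ 2)) * (1 / 2 * ‖x‖) := by
          ring
      _ ≤ Real.sqrt (1 / (8 * K ^ 2)) * ‖J e (P x)‖ := by gcongr
      _ ≤ _ := h2
  have hLup : ∀ x, ‖L x‖ ≤ 3 / 2 * Real.sqrt (4 * K ^ 2 + 1) * ‖x‖ := by
    intro x
    have h1 : ‖L x‖ ^ 2 ≤ (Real.sqrt (4 * K ^ 2 + 1) * ‖J e (P x)‖) ^ 2 := by
      rw [hL2, mul_pow, Real.sq_sqrt (by positivity)]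
      exact (hqf x).2
    have h2 := (sq_le_sq₀ (norm_nonneg _) (by positivity)).1 h1
    have h3 := hupp x
    calc ‖L x‖ ≤ Real.sqrt (4 * K ^ 2 + 1) * ‖J e (P x)‖ := h2
      _ ≤ Real.sqrt (4 * K ^ 2 + 1) * (3 / 2 * ‖x‖) := by gcongr
      _ = _ := by ring
  exact exists_equiv_of_bounds hEn L (by positivity) (by positivity) hLlow hLup

end Pool.Agent.H88.MO
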