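import Pool.Agent.H88.MO.Defs

namespace Pool.Agent.H88.MO

open Filter Topology

section Orl

variable {M : ℝ → ℝ}

theorem Orlicz.scale (h : Orlicz M) {s t : ℝ} (hs : 0 ≤ s) (hs1 : s ≤ 1) (ht : 0 ≤ t) :
    M (s * t) ≤ s * M t := by
  have := h.convex.2 (show (0 : ℝ) ∈ Set.Ici 0 by simp) (show t ∈ Set.Ici (0 : ℝ) from ht)
    (show 0 ≤ 1 - s by linarith) hs (by ring)
  simpa [h.zero] using this

theorem Orlicz.mono (h : Orlicz M) {s t : ℝ} (hs : 0 ≤ s) (hst : s ≤ t) : M s ≤ M t := by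
  rcases eq_or_lt_of_le hs with h0 | h0
  · rw [← h0, h.zero]; exact h.nonneg _ (hs.trans hst)
  · have ht : 0 < t := lt_of_lt_of_le h0 hst
    have := h.scale (s := s / t) (t := t) (by positivity) ((div_le_one ht).2 hst) ht.le
    rw [div_mul_cancel₀ _ ht.ne'] at this
    refine this.trans ?_
    exact mul_le_of_le_one_left (h.nonneg _ ht.le) ((div_le_one ht).2 hst)

theorem Orlicz.cont (h : Orlicz M) : ContinuousOn M (Set.Ioi 0) := by
  have := h.convex.continuousOn_interior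
  simpa using this

end Orl

variable {𝕜 : Type*} [RCLike 𝕜] {ι : Type*}

/-- `∑ M_i (t |c_i|)` -/
noncomputable def phi (M : ι → ℝ → ℝ) (c : ι →₀ 𝕜) (t : ℝ) : ℝ := c.sum fun i a => M i (t * ‖a‖)

variable {M : ι → ℝ → ℝ}

theorem phi_eq_sum (hM : ∀ i, Orlicz (M i)) (c : ι →₀ 𝕜) (t : ℝ) {s : Finset ι}
    (hs : c.support ⊆ s) : phi M c t = ∑ i ∈ s, M i (t * ‖c i‖) := by
  unfold phi
  rw [Finsupp.sum_of_support_subset c hs]
  intro i _
  simp [(hM i).zero]

theorem phi_nonneg (hM : ∀ i, Orlicz (M i)) (c : ι →₀ 𝕜) {t : ℝ} (ht : 0 ≤ t) :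
    0 ≤ phi M c t :=
  Finset.sum_nonneg fun i _ => (hM i).nonneg _ (by positivity)

theorem phi_zero (hM : ∀ i, Orlicz (M i)) (c : ι →₀ 𝕜) : phi M c 0 = 0 := by
  unfold phi
  simp [Finsupp.sum, (hM _).zero]

theorem phi_scale (hM : ∀ i, Orlicz (M i)) (c : ι →₀ 𝕜) {s t : ℝ} (hs : 0 ≤ s) (hs1 : s ≤ 1)
    (ht : 0 ≤ t) : phi M c (s * t) ≤ s * phi M c t := by
  unfold phi Finsupp.sum
  rw [Finset.mul_sum]
  refine Finset.sum_le_sum fun i _ => ?_
  have := (hM i).scale hs hs1 (t := t * ‖c i‖) (by positivity)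
  rwa [← mul_assoc] at this

theorem phi_mono (hM : ∀ i, Orlicz (M i)) (c : ι →₀ 𝕜) {s t : ℝ} (hs : 0 ≤ s) (hst : s ≤ t) :
    phi M c s ≤ phi M c t := by
  unfold phi Finsupp.sum
  refine Finset.sum_le_sum fun i _ => ?_
  exact (hM i).mono (by positivity) (by gcongr)

theorem phi_convex (hM : ∀ i, Orlicz (M i)) (c : ι →₀ 𝕜) :
    ConvexOn ℝ (Set.Ici 0) (phi M c) := by
  refine ⟨convex_Ici 0, ?_⟩
  intro x hx y hy a b ha hb hab
  have hx' : (0 : ℝ) ≤ x := hx
  have hy' : (0 : ℝ) ≤ y := hy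
  unfold phi Finsupp.sum
  simp only [smul_eq_mul]
  rw [Finset.mul_sum, Finset.mul_sum, ← Finset.sum_add_distrib]
  refine Finset.sum_le_sum fun i _ => ?_
  have := (hM i).convex.2 (show x * ‖c i‖ ∈ Set.Ici (0 : ℝ) by
      simp only [Set.mem_Ici]; positivity)
    (show y * ‖c i‖ ∈ Set.Ici (0 : ℝ) by simp only [Set.mem_Ici]; positivity) ha hb hab
  simp only [smul_eq_mul] at this
  calc M i ((a * x + b * y) * ‖c i‖) = M i (a * (x * ‖c i‖) + b * (y * ‖c i‖)) := by ring_nf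
    _ ≤ _ := this

theorem phi_cont (hM : ∀ i, Orlicz (M i)) (c : ι →₀ 𝕜) : ContinuousOn (phi M c) (Set.Ioi 0) := by
  have := (phi_convex hM c).continuousOn_interior
  simpa using this

theorem phi_tendsto (hM : ∀ i, Orlicz (M i)) {c : ι →₀ 𝕜} (hc : c ≠ 0) :
    Tendsto (phi M c) atTop atTop := by
  obtain ⟨i, hi⟩ : ∃ i, c i ≠ 0 := by
    by_contra hcon
    push Not at hcon
    exact hc (Finsupp.ext hcon)
  have h1 : Tendsto (fun t : ℝ => M i (t * ‖c i‖)) atTop atTop :=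
    (hM i).top.comp (tendsto_id.atTop_mul_const (norm_pos_iff.2 hi))
  refine tendsto_atTop_mono' _ ?_ h1
  filter_upwards [eventually_ge_atTop 0] with t ht
  unfold phi Finsupp.sum
  exact Finset.single_le_sum (f := fun j => M j (t * ‖c j‖))
    (fun j _ => (hM j).nonneg _ (by positivity)) (Finsupp.mem_support_iff.2 hi)

theorem phi_orlicz (hM : ∀ i, Orlicz (M i)) {c : ι →₀ 𝕜} (hc : c ≠ 0) : Orlicz (phi M c) where
  convex := phi_convex hM c
  nonneg := fun _ ht => phi_nonneg hM c ht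
  zero := phi_zero hM c
  top := phi_tendsto hM hc

theorem phi_smul (hM : ∀ i, Orlicz (M i)) (a : 𝕜) (c : ι →₀ 𝕜) (t : ℝ) :
    phi M (a • c) t = phi M c (t * ‖a‖) := by
  rw [phi_eq_sum hM (a • c) t (s := c.support) Finsupp.support_smul, phi_eq_sum hM c _ subset_rfl]
  refine Finset.sum_congr rfl fun i _ => ?_
  simp only [Finsupp.smul_apply, smul_eq_mul, norm_mul]
  ring_nf

theorem phi_add (c c' : ι →₀ 𝕜) (h : Disjoint c.support c'.support) (t : ℝ) :
    phi M (c + c') t = phi M c t + phi M c' t := by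
  unfold phi
  exact Finsupp.sum_add_index_of_disjoint h _

theorem phi_sum {κ : Type*} (s : Finset κ) (u : κ → ι →₀ 𝕜)
    (hu : (s : Set κ).Pairwise fun i j => Disjoint (u i).support (u j).support) (t : ℝ) :
    phi M (∑ k ∈ s, u k) t = ∑ k ∈ s, phi M (u k) t := by
  classical
  induction s using Finset.induction_on with
  | empty => simp [phi]
  | insert a s ha ih =>
    rw [Finset.sum_insert ha, Finset.sum_insert ha, phi_add, ih]
    · intro i hi j hj hij
      exact hu (by simp [hi]) (by simp [hj]) hij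
    · refine Finset.disjoint_of_subset_right Finsupp.support_finsetSum ?_
      rw [Finset.disjoint_biUnion_right]
      intro i hi
      refine hu (by simp) (by simp [hi]) ?_
      rintro rfl
      exact ha hi

section MO

variable {X : Type*} [NormedAddCommGroup X] [NormedSpace 𝕜 X] {e : ι → X}

/-- The vector `∑ c_i e_i`. -/
noncomputable abbrev J (e : ι → X) (c : ι →₀ 𝕜) : X := Finsupp.linearCombination 𝕜 e c

theorem norm_J_le_iff (h : IsMusielakOrlicz 𝕜 M e) (c : ι →₀ 𝕜) {r : ℝ} (hr : 0 < r) :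
    ‖J e c‖ ≤ r ↔ phi M c r⁻¹ ≤ 1 := by
  have hM := h.orlicz
  have hset : {r : ℝ | 0 < r ∧ c.sum (fun i a => M i (‖a‖ / r)) ≤ 1} =
      {r : ℝ | 0 < r ∧ phi M c r⁻¹ ≤ 1} := by
    ext r
    simp only [Set.mem_ofPred_eq, phi]
    have : (fun (i : ι) (a : 𝕜) => M i (‖a‖ / r)) = fun i a => M i (r⁻¹ * ‖a‖) := by
      funext i a
      rw [div_eq_inv_mul]
    rw [this]
  have hn := h.norm_eq c
  rw [hset] at hn
  have hbdd : BddBelow {r : ℝ | 0 < r ∧ phi M c r⁻¹ ≤ 1} := ⟨0, fun x hx => hx.1.le⟩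
  have hne : {r : ℝ | 0 < r ∧ phi M c r⁻¹ ≤ 1}.Nonempty := by
    refine ⟨max 1 (phi M c 1), by positivity, ?_⟩
    have h1 : (0 : ℝ) < max 1 (phi M c 1) := by positivity
    have := phi_scale hM c (s := (max 1 (phi M c 1))⁻¹) (t := 1) (by positivity)
      (inv_le_one_of_one_le₀ (le_max_left _ _)) zero_le_one
    rw [mul_one] at this
    refine this.trans ?_
    rw [inv_mul_le_iff₀ h1, mul_one]
    exact le_max_right _ _
  constructor
  · intro hle
    rw [J, hn] at hle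
    have hr' : (0 : ℝ) < r⁻¹ := by positivity
    have hcont : ContinuousWithinAt (phi M c) (Set.Ioo 0 r⁻¹) r⁻¹ :=
      ((phi_cont hM c).continuousAt (Ioi_mem_nhds hr')).continuousWithinAt
    have hmem : r⁻¹ ∈ closure (Set.Ioo 0 r⁻¹) := by
      rw [closure_Ioo hr'.ne]
      exact ⟨hr'.le, le_rfl⟩
    have : (𝓝[Set.Ioo 0 r⁻¹] r⁻¹).NeBot := mem_closure_iff_nhdsWithin_neBot.1 hmem
    refine le_of_tendsto hcont ?_
    filter_upwards [self_mem_nhdsWithin] with t ht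
    have ht0 : 0 < t := ht.1
    have hlt : sInf {r : ℝ | 0 < r ∧ phi M c r⁻¹ ≤ 1} < t⁻¹ := by
      refine lt_of_le_of_lt hle ?_
      rw [lt_inv_comm₀ hr ht0]
      exact ht.2
    obtain ⟨x, hx, hxt⟩ := (csInf_lt_iff hbdd hne).1 hlt
    refine (phi_mono hM c ht0.le ?_).trans hx.2
    rw [le_inv_comm₀ ht0 hx.1]
    exact hxt.le
  · intro hle
    rw [J, hn]
    exact csInf_le hbdd ⟨hr, hle⟩

theorem mul_norm_le_one_iff (h : IsMusielakOrlicz 𝕜 M e) (c : ι →₀ 𝕜) {t : ℝ} (ht : 0 ≤ t) :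
    t * ‖J e c‖ ≤ 1 ↔ phi M c t ≤ 1 := by
  rcases eq_or_lt_of_le ht with h0 | h0
  · rw [← h0]; simp [phi_zero h.orlicz]
  · have := norm_J_le_iff h c (r := t⁻¹) (by positivity)
    rw [inv_inv] at this
    rw [← this, inv_eq_one_div, le_div_iff₀' h0]

theorem mul_norm_lt_one_iff (h : IsMusielakOrlicz 𝕜 M e) (c : ι →₀ 𝕜) {t : ℝ} (ht : 0 ≤ t) :
    t * ‖J e c‖ < 1 ↔ phi M c t < 1 := by
  have hM := h.orlicz
  rcases eq_or_lt_of_le ht with h0 | h0
  · rw [← h0]; simp [phi_zero h.orlicz]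
  · constructor
    · intro hlt
      -- choose `t' > t` with `t' * ‖J c‖ ≤ 1`
      obtain ⟨t', ht', h1⟩ : ∃ t', t < t' ∧ t' * ‖J e c‖ ≤ 1 := by
        rcases eq_or_lt_of_le (norm_nonneg (J e c)) with hz | hz
        · exact ⟨t + 1, by linarith, by rw [← hz]; simp⟩
        · refine ⟨‖J e c‖⁻¹, ?_, ?_⟩
          · rw [inv_eq_one_div, lt_div_iff₀ hz]; exact hlt
          · rw [inv_mul_cancel₀ hz.ne']
      have h2 := (mul_norm_le_one_iff h c (h0.le.trans ht'.le)).1 h1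
      have ht'0 : 0 < t' := h0.trans ht'
      have h3 := phi_scale hM c (s := t / t') (t := t') (by positivity)
        ((div_le_one ht'0).2 ht'.le) ht'0.le
      rw [div_mul_cancel₀ _ ht'0.ne'] at h3
      have h4 : t / t' < 1 := (div_lt_one ht'0).2 ht'
      have h5 : 0 ≤ t / t' := by positivity
      calc phi M c t ≤ t / t' * phi M c t' := h3
        _ ≤ t / t' * 1 := by gcongr
        _ < 1 := by linarith
    · intro hlt
      rcases eq_or_lt_of_le (norm_nonneg (J e c)) with hz | hz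
      · rw [← hz]; simp
      have hcont : ContinuousWithinAt (phi M c) (Set.Ioi t) t :=
        ((phi_cont hM c).continuousAt (Ioi_mem_nhds h0)).continuousWithinAt
      have hev : ∀ᶠ x in 𝓝[Set.Ioi t] t, phi M c x < 1 := hcont.eventually_lt_const hlt
      obtain ⟨t', ht', hlt'⟩ := (hev.and self_mem_nhdsWithin).exists
      have h1 := (mul_norm_le_one_iff h c (h0.le.trans (le_of_lt hlt'))).2 ht'.le
      have : t < t' := hlt'
      nlinarith

theorem norm_le_one_iff (h : IsMusielakOrlicz 𝕜 M e) (c : ι →₀ 𝕜) :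
    ‖J e c‖ ≤ 1 ↔ phi M c 1 ≤ 1 := by
  simpa using mul_norm_le_one_iff h c zero_le_one

theorem norm_lt_one_iff (h : IsMusielakOrlicz 𝕜 M e) (c : ι →₀ 𝕜) :
    ‖J e c‖ < 1 ↔ phi M c 1 < 1 := by
  simpa using mul_norm_lt_one_iff h c zero_le_one

theorem one_le_norm_iff (h : IsMusielakOrlicz 𝕜 M e) (c : ι →₀ 𝕜) :
    1 ≤ ‖J e c‖ ↔ 1 ≤ phi M c 1 := by
  rw [← not_lt, norm_lt_one_iff h, not_lt]

theorem norm_eq_one_iff (h : IsMusielakOrlicz 𝕜 M e) (c : ι →₀ 𝕜) :
    ‖J e c‖ = 1 ↔ phi M c 1 = 1 := by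
  rw [le_antisymm_iff, le_antisymm_iff, norm_le_one_iff h, one_le_norm_iff h]

theorem phi_le_norm (h : IsMusielakOrlicz 𝕜 M e) (c : ι →₀ 𝕜) (hc : ‖J e c‖ ≤ 1) :
    phi M c 1 ≤ ‖J e c‖ := by
  rcases eq_or_lt_of_le (norm_nonneg (J e c)) with hz | hz
  · -- norm zero
    rw [← hz]
    refine le_of_forall_pos_le_add fun ε hε => ?_
    have h1 := (mul_norm_le_one_iff h c (t := ε⁻¹ + 1) (by positivity)).1 (by rw [← hz]; simp)
    have h2 := phi_scale h.orlicz c (s := (ε⁻¹ + 1)⁻¹) (t := ε⁻¹ + 1) (by positivity)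
      (inv_le_one_of_one_le₀ (by linarith [inv_pos.2 hε])) (by positivity)
    rw [inv_mul_cancel₀ (by positivity)] at h2
    have h3 : (ε⁻¹ + 1)⁻¹ ≤ ε := by
      rw [inv_le_comm₀ (by positivity) hε]; linarith
    have h4 : (0 : ℝ) ≤ (ε⁻¹ + 1)⁻¹ := by positivity
    calc phi M c 1 ≤ (ε⁻¹ + 1)⁻¹ * phi M c (ε⁻¹ + 1) := h2
      _ ≤ (ε⁻¹ + 1)⁻¹ * 1 := by gcongr
      _ ≤ 0 + ε := by linarith
  · have h1 := (mul_norm_le_one_iff h c (t := ‖J e c‖⁻¹) (by positivity)).1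
      (by rw [inv_mul_cancel₀ hz.ne'])
    have h2 := phi_scale h.orlicz c (s := ‖J e c‖) (t := ‖J e c‖⁻¹) hz.le hc (by positivity)
    rw [mul_inv_cancel₀ hz.ne'] at h2
    calc phi M c 1 ≤ ‖J e c‖ * phi M c ‖J e c‖⁻¹ := h2
      _ ≤ ‖J e c‖ * 1 := by gcongr
      _ = _ := mul_one _

/-- The norm depends only on the moduli of the coefficients. -/
theorem norm_J_congr (h : IsMusielakOrlicz 𝕜 M e) (c c' : ι →₀ 𝕜) (hcc : ∀ i, ‖c i‖ = ‖c' i‖) :
    ‖J e c‖ = ‖J e c'‖ := by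
  have hphi : ∀ t, phi M c t = phi M c' t := by
    classical
    intro t
    rw [phi_eq_sum h.orlicz c t (s := c.support ∪ c'.support) Finset.subset_union_left,
      phi_eq_sum h.orlicz c' t (s := c.support ∪ c'.support) Finset.subset_union_right]
    exact Finset.sum_congr rfl fun i _ => by rw [hcc]
  have key : ∀ r : ℝ, 0 < r → (‖J e c‖ ≤ r ↔ ‖J e c'‖ ≤ r) := by
    intro r hr
    rw [norm_J_le_iff h c hr, norm_J_le_iff h c' hr, hphi]
  refine le_antisymm ?_ ?_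
  · refine le_of_forall_pos_le_add fun ε hε => ?_
    have h0 := norm_nonneg (J e c')
    exact (key _ (by linarith)).2 (by linarith)
  · refine le_of_forall_pos_le_add fun ε hε => ?_
    have h0 := norm_nonneg (J e c)
    exact (key _ (by linarith)).1 (by linarith)

/-- The norm is monotone in the moduli of the coefficients. -/
theorem norm_J_mono (h : IsMusielakOrlicz 𝕜 M e) (c c' : ι →₀ 𝕜) (hcc : ∀ i, ‖c i‖ ≤ ‖c' i‖) :
    ‖J e c‖ ≤ ‖J e c'‖ := by
  have hphi : ∀ t, 0 ≤ t → phi M c t ≤ phi M c' t := by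
    classical
    intro t ht
    rw [phi_eq_sum h.orlicz c t (s := c.support ∪ c'.support) Finset.subset_union_left,
      phi_eq_sum h.orlicz c' t (s := c.support ∪ c'.support) Finset.subset_union_right]
    exact Finset.sum_le_sum fun i _ => (h.orlicz i).mono (by positivity)
      (mul_le_mul_of_nonneg_left (hcc i) ht)
  refine le_of_forall_pos_le_add fun ε hε => ?_
  have h0 := norm_nonneg (J e c')
  have hr : 0 < ‖J e c'‖ + ε := by linarith
  rw [norm_J_le_iff h c hr]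
  exact (hphi _ (by positivity)).trans ((norm_J_le_iff h c' hr).1 (by linarith))

end MO

end Pool.Agent.H88.MO
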