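import Pool.Agent.H88.MO.Mk

namespace Pool.Agent.H88.MO

open Filter Topology

variable {𝕜 : Type*} [RCLike 𝕜] {ι : Type*} {M : ι → ℝ → ℝ}
variable {X : Type*} [NormedAddCommGroup X] [NormedSpace 𝕜 X] {e : ι → X}

/-- First case: uniformly quadratic behaviour of the normalised vectors far out. -/
def Case1 (𝕜 : Type*) [RCLike 𝕜] {ι : Type*} (M : ι → ℝ → ℝ) {X : Type*} [NormedAddCommGroup X]
    [NormedSpace 𝕜 X] (e : ι → X) : Prop :=
  ∃ K : ℝ, ∀ S : ℕ, ∃ F : Finset ι, ∀ u : ι →₀ 𝕜, Disjoint u.support F → ‖J e u‖ = 1 →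
    ∀ s ≤ S, 1 ≤ K * (4 ^ s * phi M u (1 / 2 ^ s)) ∧ 4 ^ s * phi M u (1 / 2 ^ s) ≤ K

theorem not_case1 (hc : ¬ Case1 𝕜 M e) (K : ℝ) :
    ∃ s : ℕ, (∀ F : Finset ι, ∃ u : ι →₀ 𝕜, Disjoint u.support F ∧
        (‖J e u‖ = 1 ∧ K * (4 ^ s * phi M u (1 / 2 ^ s)) < 1)) ∨
      (∀ F : Finset ι, ∃ u : ι →₀ 𝕜, Disjoint u.support F ∧
        (‖J e u‖ = 1 ∧ K < 4 ^ s * phi M u (1 / 2 ^ s))) := by
  classical
  by_contra hcon
  push Not at hcon
  have h1 : ∀ s : ℕ, ∃ F : Finset ι, ∀ u : ι →₀ 𝕜, Disjoint u.support F → ‖J e u‖ = 1 →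
      1 ≤ K * (4 ^ s * phi M u (1 / 2 ^ s)) ∧ 4 ^ s * phi M u (1 / 2 ^ s) ≤ K := by
    intro s
    obtain ⟨⟨F1, h1⟩, ⟨F2, h2⟩⟩ := hcon s
    refine ⟨F1 ∪ F2, fun u hu hn => ⟨?_, ?_⟩⟩
    · exact h1 u (Finset.disjoint_of_subset_right Finset.subset_union_left hu) hn
    · exact h2 u (Finset.disjoint_of_subset_right Finset.subset_union_right hu) hn
  choose F hF using h1
  refine hc ⟨K, fun S => ⟨(Finset.range (S + 1)).biUnion F, fun u hu hn s hs => ?_⟩⟩
  exact hF s u (Finset.disjoint_of_subset_right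
    (Finset.subset_biUnion_of_mem F (Finset.mem_range.2 (Nat.lt_succ_of_le hs))) hu) hn

/-- **One stage of the construction.** -/
theorem stage (h : IsMusielakOrlicz 𝕜 M e) (hX : NearHilbert X) (hc : ¬ Case1 𝕜 M e) {j : ℕ}
    (hj : 1 ≤ j) (F0 : Finset ι) :
    ∃ (m : ℕ) (v : Fin m → ι →₀ 𝕜), 1 ≤ m ∧ Disj v ∧ (∀ c, Disjoint (v c).support F0) ∧
      (∀ c, 1 ≤ ‖J e (v c)‖) ∧
      (∀ c, ∀ s ≤ j, ∀ t : ℝ, 0 ≤ t → t ≤ 1 →
        4 ^ s * phi M (v c) (t / 2 ^ s) ≤ 8 * phi M (v c) t + 1 / (2 ^ j * m) ∧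
        phi M (v c) t ≤ 8 * (4 ^ s * phi M (v c) (t / 2 ^ s)) + 1 / (2 ^ j * m)) ∧
      (j * ∑ c, ‖J e (v c)‖ ^ 2 ≤ ‖J e (∑ c, v c)‖ ^ 2 ∨
        j * ‖J e (∑ c, v c)‖ ^ 2 ≤ ∑ c, ‖J e (v c)‖ ^ 2) := by
  classical
  have hM := h.orlicz
  have hj0 : (0 : ℝ) < j := by exact_mod_cast hj
  have hj1 : (1 : ℝ) ≤ j := by exact_mod_cast hj
  -- growth constant
  have hγ0 : (0 : ℝ) < 1 / (2 * j) := by positivity
  have hγ1 : (1 : ℝ) / (2 * j) ≤ 1 := by rw [div_le_one (by positivity)]; linarith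
  obtain ⟨A, hA1, hA⟩ := growth h hX (γ := 1 + 1 / (2 * j)) (by linarith) (by linarith)
  have hA0 : 0 < A := by linarith
  obtain ⟨L, κ0, hL1, hκ0, hsm⟩ := smoothing hj hA1
  -- the numbers of copies
  set T : ℕ := ⌈16 * A⌉₊ with hT
  have hTA : 16 * A ≤ T := Nat.le_ceil _
  have hT1 : 1 ≤ T := Nat.one_le_iff_ne_zero.2 (by
    rw [hT]; exact (Nat.ceil_pos.2 (by positivity)).ne')
  set κ : ℕ → ℕ := fun l => T * κ0 l with hκ
  have hκT : (T : ℝ) ≤ κ 0 := by
    have : T * 1 ≤ T * κ0 0 := Nat.mul_le_mul_left T (hκ0 0)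
    have h2 : T ≤ κ 0 := by simpa [hκ] using this
    exact_mod_cast h2
  set B : ℝ := ∑ l ∈ Finset.range L, (κ l : ℝ) * (1 / 2 ^ (l + 1)) with hB
  have hB1 : 1 ≤ B := by
    have hmem : 0 ∈ Finset.range L := Finset.mem_range.2 hL1
    have h1 := Finset.single_le_sum (f := fun l => (κ l : ℝ) * (1 / 2 ^ (l + 1)))
      (fun l _ => by positivity) hmem
    simp only [zero_add, pow_one] at h1
    have : 16 ≤ (κ 0 : ℝ) := by linarith
    linarith
  set D : ℝ := 32 * B ^ 2 * j with hD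
  have hB0 : 0 < B := by linarith
  have hD0 : 0 < D := by positivity
  have hBB : B ≤ B ^ 2 := by nlinarith
  have hD1 : 32 ≤ D := by
    rw [hD]
    have : 1 ≤ B ^ 2 := by nlinarith
    nlinarith
  -- facts for a limit function
  have facts : ∀ (u : ℕ → ι →₀ 𝕜) (N : ℝ → ℝ), LimitOf M e u N →
      (∀ (r : ℝ) (s : ℕ), 0 ≤ r → r ≤ 1 → s ≤ j →
        4 ^ s * smooth L κ N (r / 2 ^ s) ≤ 8 * smooth L κ N r ∧
        smooth L κ N r ≤ 8 * (4 ^ s * smooth L κ N (r / 2 ^ s))) ∧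
      2 ≤ smooth L κ N 1 ∧ (∀ k : ℕ, 0 < N (1 / 2 ^ k)) := by
    intro u N hL
    have hgr : Grows j A N := fun a k h1 h2 => hA u N hL a k h1 h2
    have hN0 : ∀ r, 0 ≤ r → r ≤ 1 → 0 ≤ N r := fun r h1 h2 => hL.nonneg h h1 h2
    have hpos : ∀ k : ℕ, 0 < N (1 / 2 ^ k) := by
      intro k
      have h1 := (hgr 1 k zero_le_one le_rfl).2
      rw [hL.one h] at h1
      by_contra hcon
      push Not at hcon
      have h2 : A * (1 + 1 / (2 * (j : ℝ))) ^ k * (4 ^ k * N (1 / 2 ^ k)) ≤ 0 := by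
        apply mul_nonpos_of_nonneg_of_nonpos (by positivity)
        apply mul_nonpos_of_nonneg_of_nonpos (by positivity) hcon
      linarith
    refine ⟨?_, ?_, hpos⟩
    · intro r s h1 h2 h3
      have h4 := hsm N hN0 hgr r s h1 h2 h3
      have e1 : ∀ r, smooth L κ N r = T * smooth L κ0 N r := fun r => smooth_mul L κ0 T N r
      rw [e1, e1]
      have hT0 : (0 : ℝ) ≤ T := by positivity
      constructor
      · have := mul_le_mul_of_nonneg_left h4.1 hT0
        linarith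
      · have := mul_le_mul_of_nonneg_left h4.2 hT0
        linarith
    · have h1 := le_smooth h hL hL1 κ (t := 1) zero_le_one le_rfl
      have h2 := (hgr 1 1 zero_le_one le_rfl).2
      rw [hL.one h, pow_one, pow_one, pow_one] at h2
      have h3 : 1 ≤ 8 * A * N (1 / 2) := by
        have h4 : 0 < N (1 / 2) := by simpa using hpos 1
        have h5 : A * (1 + 1 / (2 * (j : ℝ))) * (4 * N (1 / 2)) ≤ A * 2 * (4 * N (1 / 2)) := by
          gcongr
          linarith
        linarith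
      have h6 : 16 * A * N (1 / 2) ≤ κ 0 * N (1 / 2) := by
        have h4 : 0 < N (1 / 2) := by simpa using hpos 1
        gcongr
        linarith
      linarith
  -- building the vectors
  have build : ∀ (u : ℕ → ι →₀ 𝕜) (N : ℝ → ℝ), LimitOf M e u N → ∀ m : ℕ, 1 ≤ m →
      ∃ v : Fin m → ι →₀ 𝕜, Disj v ∧ (∀ c, Disjoint (v c).support F0) ∧
        (∀ c, 1 ≤ ‖J e (v c)‖) ∧ (∀ c, ‖J e (v c)‖ ≤ B) ∧
        (∀ c, ∀ s ≤ j, ∀ t : ℝ, 0 ≤ t → t ≤ 1 →
          4 ^ s * phi M (v c) (t / 2 ^ s) ≤ 8 * phi M (v c) t + 1 / (2 ^ j * m) ∧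
          phi M (v c) t ≤ 8 * (4 ^ s * phi M (v c) (t / 2 ^ s)) + 1 / (2 ^ j * m)) ∧
        (∀ t : ℝ, 0 ≤ t → t ≤ 1 →
          |phi M (∑ c, v c) t - m * smooth L κ N t| ≤ 1 / 2) := by
    intro u N hL m hm
    obtain ⟨hq, hQ1, _⟩ := facts u N hL
    have hm0 : (0 : ℝ) < m := by exact_mod_cast hm
    set ε : ℝ := 1 / ((8 * 4 ^ j + 8) * 2 ^ j * m) with hε
    have hε0 : 0 < ε := by positivity
    have hεm : (8 * 4 ^ j + 8) * ε = 1 / (2 ^ j * m) := by
      rw [hε]
      have : (8 * 4 ^ j + 8 : ℝ) ≠ 0 := by positivity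
      field_simp
    have hmε : m * ε ≤ 1 / 2 := by
      rw [hε, mul_one_div, div_le_div_iff₀ (by positivity) (by norm_num)]
      have h1 : (1 : ℝ) ≤ 2 ^ j := one_le_pow₀ (by norm_num)
      have h2 : (0 : ℝ) ≤ 8 * 4 ^ j := by positivity
      have h3 : (2 : ℝ) ≤ (8 * 4 ^ j + 8) * 2 ^ j := by nlinarith
      nlinarith
    have hε1 : ε ≤ 1 / 2 := by
      have : (1 : ℝ) ≤ m := by exact_mod_cast hm
      nlinarith
    set Kt : ℝ := ∑ l ∈ Finset.range L, (κ l : ℝ) with hKt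
    have hKt0 : 0 < Kt := by
      have hmem : 0 ∈ Finset.range L := Finset.mem_range.2 hL1
      have h1 := Finset.single_le_sum (f := fun l => (κ l : ℝ))
        (fun l _ => by positivity) hmem
      have h1' : (κ 0 : ℝ) ≤ Kt := h1
      have : 16 ≤ (κ 0 : ℝ) := by linarith
      linarith
    set δ : ℝ := ε / Kt with hδ
    have hδ0 : 0 < δ := by positivity
    have hev := hL.uniform h hδ0
    have hinf := infinite_of_eventually hev
    have hinf2 : ({i | ∀ x, 0 ≤ x → x ≤ 1 / 2 → |phi M (u i) x - N x| ≤ δ} \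
        {i | ¬ Disjoint (u i).support F0}).Infinite := hinf.sdiff (hL.disj.finite_meet F0)
    obtain ⟨f, hfi, hf⟩ := exists_inj (τ := Fin m × (Σ l : Fin L, Fin (κ l))) hinf2
    have hf1 : ∀ x, ∀ y, 0 ≤ y → y ≤ 1 / 2 → |phi M (u (f x)) y - N y| ≤ δ := fun x => (hf x).1
    have hf2 : ∀ x, Disjoint (u (f x)).support F0 := fun x => by
      have := (hf x).2
      simpa using this
    have hgi : ∀ c : Fin m, Function.Injective fun x : (Σ l : Fin L, Fin (κ l)) => f (c, x) := by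
      intro c x y hxy
      have := hfi hxy
      simpa using this
    have hdd : Disj fun x : Fin m × (Σ l : Fin L, Fin (κ l)) =>
        (((1 / 2 ^ ((x.2.1 : ℕ) + 1) : ℝ)) : 𝕜) • u (f x) := (hL.disj.comp hfi).smul _
    have hvd : Disj fun c : Fin m => mkv L κ u fun x => f (c, x) := hdd.sumProd
    have hclose : ∀ c : Fin m, ∀ t : ℝ, 0 ≤ t → t ≤ 1 →
        |phi M (mkv L κ u fun x => f (c, x)) t - smooth L κ N t| ≤ ε := by
      intro c t ht ht1
      have h1 := mkv_close (N := N) hM hL.disj (hgi c) (δ := δ) (fun x => hf1 (c, x)) ht ht1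
      have h2 : (∑ l ∈ Finset.range L, (κ l : ℝ)) * δ = ε := by
        rw [← hKt, hδ]; field_simp
      rwa [h2] at h1
    refine ⟨fun c => mkv L κ u fun x => f (c, x), hvd, fun c => mkv_support fun x => hf2 (c, x),
      fun c => ?_, fun c => norm_mkv_le hL.norm, ?_, ?_⟩
    · rw [one_le_norm_iff h]
      have := (abs_le.1 (hclose c 1 zero_le_one le_rfl)).1
      linarith
    · intro c s hs t ht ht1
      have h2s : (1 : ℝ) ≤ 2 ^ s := one_le_pow₀ (by norm_num)
      have h0 : 0 ≤ t / 2 ^ s := by positivity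
      have h01 : t / 2 ^ s ≤ 1 := by
        rw [div_le_one (by positivity)]; linarith
      have c1 := abs_le.1 (hclose c t ht ht1)
      have c2 := abs_le.1 (hclose c (t / 2 ^ s) h0 h01)
      have hq' := hq t s ht ht1 hs
      have h4 : (4 : ℝ) ^ s ≤ 4 ^ j := pow_le_pow_right₀ (by norm_num) hs
      have h40 : (0 : ℝ) < 4 ^ s := by positivity
      rw [← hεm]
      have h5 : 4 ^ s * ε ≤ 4 ^ j * ε := by gcongr
      constructor
      · have h6 : 4 ^ s * phi M (mkv L κ u fun x => f (c, x)) (t / 2 ^ s) ≤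
            4 ^ s * (smooth L κ N (t / 2 ^ s) + ε) :=
          mul_le_mul_of_nonneg_left (by linarith) h40.le
        have h7 : 0 ≤ 4 ^ j * ε := by positivity
        nlinarith
      · have h6 : 4 ^ s * smooth L κ N (t / 2 ^ s) ≤
            4 ^ s * (phi M (mkv L κ u fun x => f (c, x)) (t / 2 ^ s) + ε) :=
          mul_le_mul_of_nonneg_left (by linarith) h40.le
        nlinarith
    · intro t ht ht1
      rw [phi_sum _ _ fun i _ k _ hik => hvd hik]
      have h1 : (m : ℝ) * smooth L κ N t = ∑ _c : Fin m, smooth L κ N t := by simp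
      rw [h1, ← Finset.sum_sub_distrib]
      refine (Finset.abs_sum_le_sum_abs _ _).trans ?_
      calc ∑ c : Fin m, |phi M (mkv L κ u fun x => f (c, x)) t - smooth L κ N t| ≤
            ∑ _c : Fin m, ε := Finset.sum_le_sum fun c _ => hclose c t ht ht1
        _ = m * ε := by simp
        _ ≤ 1 / 2 := hmε
  -- the two sides
  obtain ⟨s, hs | hs⟩ := not_case1 hc D
  · -- side B: `N` is small
    obtain ⟨u, hu, hP⟩ := exists_disj_seq hs
    obtain ⟨N, hL⟩ := exists_limit h hu fun i => (hP i).1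
    obtain ⟨_, _, hpos⟩ := facts u N hL
    set t : ℝ := 1 / 2 ^ s with ht
    have ht0 : 0 < t := by positivity
    have ht1 : t ≤ 1 := by
      rw [ht, div_le_one (by positivity)]; exact one_le_pow₀ (by norm_num)
    have h4 : (4 : ℝ) ^ s * t ^ 2 = 1 := by
      have : (4 : ℝ) ^ s = (2 ^ s) ^ 2 := by rw [← pow_mul, mul_comm, pow_mul]; norm_num
      rw [ht, this]; field_simp
    have h40 : (0 : ℝ) < 4 ^ s := by positivity
    have hN : D * (4 ^ s * N t) ≤ 1 := by
      refine le_of_tendsto (((hL.lim t ht0.le ht1).const_mul (4 ^ s)).const_mul D) ?_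
      exact Eventually.of_forall fun i => (hP i).2.le
    set q : ℝ := smooth L κ N t with hq
    have hq0 : 0 < q := by
      have h1 := le_smooth h hL hL1 κ ht0.le ht1
      have h2 : 0 < N (t / 2) := by
        have : t / 2 = 1 / 2 ^ (s + 1) := by rw [ht, div_div]; congr 1
        rw [this]; exact hpos _
      have h3 : (16 : ℝ) ≤ κ 0 := by linarith
      have h5 : 0 < κ 0 * N (t / 2) := by positivity
      linarith
    have hqB : q ≤ B * N t := smooth_le h hL L κ ht0.le ht1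
    have hNt : 0 < N t := by rw [ht]; exact hpos s
    have hqD : D * q ≤ B * t ^ 2 := by
      have h1 : D * q ≤ D * (B * N t) := by gcongr
      have h2 : D * N t ≤ t ^ 2 := by
        have : D * N t = D * (4 ^ s * N t) * t ^ 2 := by
          calc D * N t = D * N t * (4 ^ s * t ^ 2) := by rw [h4, mul_one]
            _ = _ := by ring
        rw [this]
        exact mul_le_of_le_one_left (by positivity) hN
      calc D * q ≤ B * (D * N t) := by linarith
        _ ≤ B * t ^ 2 := by gcongr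
    have hq14 : q ≤ 1 / 4 := by
      have h1 : B * t ^ 2 ≤ B ^ 2 := by
        have : t ^ 2 ≤ 1 := pow_le_one₀ ht0.le ht1
        nlinarith
      have h2 : D * q ≤ B ^ 2 := hqD.trans h1
      rw [hD] at h2
      have h3 : 32 * j * q ≤ 1 := by
        have h5 : B ^ 2 * (32 * j * q) ≤ B ^ 2 * 1 := by linarith
        exact le_of_mul_le_mul_left h5 (by positivity)
      nlinarith
    set m : ℕ := ⌊1 / (2 * q)⌋₊ with hm
    have hm1 : 1 ≤ m := by
      rw [hm, Nat.one_le_floor_iff, le_div_iff₀ (by positivity)]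
      linarith
    have hmq : m * q ≤ 1 / 2 := by
      have h1 : (m : ℝ) ≤ 1 / (2 * q) := Nat.floor_le (by positivity)
      rw [le_div_iff₀ (by positivity)] at h1
      linarith
    have hmq2 : 1 ≤ 4 * (m * q) := by
      have h1 : 1 / (2 * q) < m + 1 := Nat.lt_floor_add_one _
      have h2 : (1 : ℝ) ≤ m := by exact_mod_cast hm1
      rw [div_lt_iff₀ (by positivity)] at h1
      nlinarith
    obtain ⟨v, hv1, hv2, hv3, hv4, hv5, hv6⟩ := build u N hL m hm1
    refine ⟨m, v, hm1, hv1, hv2, hv3, hv5, Or.inr ?_⟩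
    have h1 := (abs_le.1 (hv6 t ht0.le ht1)).2
    have h2 : phi M (∑ c, v c) t ≤ 1 := by linarith
    have h3 := (mul_norm_le_one_iff h _ ht0.le).2 h2
    have h5 : (t * ‖J e (∑ c, v c)‖) ^ 2 ≤ 1 := pow_le_one₀ (by positivity) h3
    have h6 : (m : ℝ) ≤ ∑ c, ‖J e (v c)‖ ^ 2 := by
      calc (m : ℝ) = ∑ _c : Fin m, (1 : ℝ) := by simp
        _ ≤ _ := Finset.sum_le_sum fun c _ => one_le_pow₀ (hv3 c)
    refine le_trans ?_ h6
    -- `j ‖w‖² ≤ m`
    set w := ‖J e (∑ c, v c)‖ with hw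
    have h7 : t ^ 2 * w ^ 2 ≤ 1 := by rw [← mul_pow]; exact h5
    have h8 : D ≤ 4 * (m * (B * t ^ 2)) := by
      calc D = D * 1 := by ring
        _ ≤ D * (4 * (m * q)) := by gcongr
        _ = 4 * (m * (D * q)) := by ring
        _ ≤ _ := by gcongr
    have h9 : D * w ^ 2 ≤ 4 * m * B := by
      calc D * w ^ 2 ≤ 4 * (m * (B * t ^ 2)) * w ^ 2 := by gcongr
        _ = 4 * m * B * (t ^ 2 * w ^ 2) := by ring
        _ ≤ 4 * m * B * 1 := by gcongr
        _ = _ := mul_one _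
    have h10 : 4 * B * (j * w ^ 2) ≤ 4 * B * m := by
      calc 4 * B * (j * w ^ 2) ≤ 32 * B ^ 2 * (j * w ^ 2) := by
            have : 0 ≤ j * w ^ 2 := by positivity
            have h11 : 4 * B ≤ 32 * B ^ 2 := by linarith
            gcongr
        _ = D * w ^ 2 := by rw [hD]; ring
        _ ≤ _ := by linarith
    exact le_of_mul_le_mul_left h10 (by positivity)
  · -- side A: `N` is large
    obtain ⟨u, hu, hP⟩ := exists_disj_seq hs
    obtain ⟨N, hL⟩ := exists_limit h hu fun i => (hP i).1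
    have hs1 : 1 ≤ s := by
      by_contra hcon
      have hs0 : s = 0 := by omega
      have h1 := (hP 0).2
      rw [hs0] at h1
      have h2 := phi_one h (hP 0).1
      simp only [pow_zero, div_one, one_mul, h2] at h1
      linarith
    obtain ⟨s', rfl⟩ : ∃ s', s = s' + 1 := ⟨s - 1, by omega⟩
    set t : ℝ := 1 / 2 ^ s' with ht
    have ht0 : 0 < t := by positivity
    have ht1 : t ≤ 1 := by
      rw [ht, div_le_one (by positivity)]; exact one_le_pow₀ (by norm_num)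
    have ht2 : t / 2 = 1 / 2 ^ (s' + 1) := by rw [ht, div_div]; congr 1
    have h4 : (4 : ℝ) ^ (s' + 1) * t ^ 2 = 4 := by
      have : (4 : ℝ) ^ (s' + 1) = 4 * (2 ^ s') ^ 2 := by
        rw [pow_succ, ← pow_mul, mul_comm s' 2, pow_mul]; norm_num; ring
      rw [ht, this]; field_simp
    have h40 : (0 : ℝ) < 4 ^ (s' + 1) := by positivity
    have hN : D ≤ 4 ^ (s' + 1) * N (t / 2) := by
      refine ge_of_tendsto ((hL.lim (t / 2) (by positivity) (by linarith)).const_mul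
        (4 ^ (s' + 1))) ?_
      exact Eventually.of_forall fun i => by rw [ht2]; exact (hP i).2.le
    set q : ℝ := smooth L κ N t with hq
    have hNt0 : 0 ≤ N (t / 2) := hL.nonneg h (by positivity) (by linarith)
    have hqN : N (t / 2) ≤ q := by
      have h1 := le_smooth h hL hL1 κ ht0.le ht1
      have h3 : (1 : ℝ) ≤ κ 0 := by linarith
      nlinarith
    have hqD : D * t ^ 2 ≤ 4 * q := by
      calc D * t ^ 2 ≤ 4 ^ (s' + 1) * N (t / 2) * t ^ 2 := by gcongr
        _ = 4 ^ (s' + 1) * t ^ 2 * N (t / 2) := by ring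
        _ = 4 * N (t / 2) := by rw [h4]
        _ ≤ _ := by linarith
    have hq0 : 0 < q := by
      have : 0 < D * t ^ 2 := by positivity
      linarith
    have hqB : q ≤ B * t :=
      (smooth_le h hL L κ ht0.le ht1).trans (by
        have := hL.le_self h ht0.le ht1
        gcongr)
    have hq1 : q ≤ 1 := by
      have h1 : D * t ≤ 4 * B := by
        have h2 : D * t * t ≤ 4 * B * t := by nlinarith
        exact le_of_mul_le_mul_right h2 ht0
      have h2 : D * q ≤ 4 * B ^ 2 := by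
        calc D * q ≤ D * (B * t) := by gcongr
          _ = B * (D * t) := by ring
          _ ≤ B * (4 * B) := by gcongr
          _ = _ := by ring
      have h3 : 4 * B ^ 2 * q ≤ 4 * B ^ 2 * 1 := by
        have h5 : 4 * B ^ 2 ≤ D := by
          rw [hD]
          have : 0 ≤ B ^ 2 := by positivity
          nlinarith
        calc 4 * B ^ 2 * q ≤ D * q := by gcongr
          _ ≤ _ := by linarith
      exact le_of_mul_le_mul_left h3 (by positivity)
    set m : ℕ := ⌈1 / q⌉₊ with hm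
    have hm1 : 1 ≤ m := Nat.one_le_iff_ne_zero.2 (by
      rw [hm]; exact (Nat.ceil_pos.2 (by positivity)).ne')
    have hmq : 1 ≤ m * q := by
      have h1 : 1 / q ≤ (m : ℝ) := Nat.le_ceil _
      rwa [div_le_iff₀ hq0] at h1
    have hmq2 : m * q ≤ 2 := by
      have h1 : (m : ℝ) < 1 / q + 1 := Nat.ceil_lt_add_one (by positivity)
      have h2 : 1 / q * q = 1 := by field_simp
      nlinarith
    obtain ⟨v, hv1, hv2, hv3, hv4, hv5, hv6⟩ := build u N hL m hm1
    refine ⟨m, v, hm1, hv1, hv2, hv3, hv5, Or.inl ?_⟩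
    have h1 := (abs_le.1 (hv6 t ht0.le ht1)).1
    have h2 : 1 / 2 ≤ phi M (∑ c, v c) t := by linarith
    set w := ‖J e (∑ c, v c)‖ with hw
    have hw0 : 0 ≤ w := norm_nonneg _
    have h3 : 1 / 2 ≤ t * w := by
      by_contra hcon
      push Not at hcon
      have := phi_le_mul_norm h (∑ c, v c) ht0.le (by linarith)
      linarith
    have h5 : 1 / 4 ≤ t ^ 2 * w ^ 2 := by
      calc (1 / 4 : ℝ) = (1 / 2) ^ 2 := by norm_num
        _ ≤ (t * w) ^ 2 := pow_le_pow_left₀ (by norm_num) h3 2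
        _ = _ := by ring
    have h6 : ∑ c, ‖J e (v c)‖ ^ 2 ≤ m * B ^ 2 := by
      calc ∑ c, ‖J e (v c)‖ ^ 2 ≤ ∑ _c : Fin m, B ^ 2 :=
            Finset.sum_le_sum fun c _ => pow_le_pow_left₀ (norm_nonneg _) (hv4 c) 2
        _ = m * B ^ 2 := by simp
    have h7 : j * ∑ c, ‖J e (v c)‖ ^ 2 ≤ j * (m * B ^ 2) := by gcongr
    refine h7.trans ?_
    -- `j m B² ≤ w²`: `32 j B² = D`, `D t² ≤ 4 q`, `m q ≤ 2`, `1/4 ≤ t² w²`
    have h8 : m * (D * t ^ 2) ≤ 8 := by
      calc m * (D * t ^ 2) ≤ m * (4 * q) := by gcongr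
        _ = 4 * (m * q) := by ring
        _ ≤ _ := by linarith
    have h9 : (t ^ 2) * (j * (m * B ^ 2)) ≤ t ^ 2 * w ^ 2 := by
      have h10 : m * (D * t ^ 2) = 32 * (t ^ 2 * (j * (m * B ^ 2))) := by rw [hD]; ring
      linarith
    exact le_of_mul_le_mul_left h9 (by positivity)

end Pool.Agent.H88.MO
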