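import Pool.Agent.H88.MO.AH
import Pool.Agent.H88.MO.Stage

namespace Pool.Agent.H88.MO

open Filter Topology

universe u

variable {𝕜 : Type*} [RCLike 𝕜] {ι : Type*} {M : ι → ℝ → ℝ}
variable {X : Type*} [NormedAddCommGroup X] [NormedSpace 𝕜 X] {e : ι → X}

/-- closed linear span of the vectors `J (v k)` -/
def blockSpace {κ : Type*} (e : ι → X) (v : κ → ι →₀ 𝕜) : Submodule 𝕜 X :=
  (Submodule.span 𝕜 (Set.range fun k => J e (v k))).topologicalClosure

/-- the spanning vectors of `blockSpace` -/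
noncomputable def blockVec {κ : Type*} (e : ι → X) (v : κ → ι →₀ 𝕜) (k : κ) : blockSpace e v :=
  ⟨J e (v k), Submodule.le_topologicalClosure _ (Submodule.subset_span ⟨k, rfl⟩)⟩

theorem blockVec_comb {κ : Type*} (v : κ → ι →₀ 𝕜) (c : κ →₀ 𝕜) :
    ((Finsupp.linearCombination 𝕜 (blockVec e v) c : blockSpace e v) : X) =
      J e (∑ k ∈ c.support, c k • v k) := by
  rw [Finsupp.linearCombination_apply, Finsupp.sum, J, map_sum]
  simp [blockVec]

theorem block_isMO (h : IsMusielakOrlicz 𝕜 M e) {κ : Type*} {v : κ → ι →₀ 𝕜} (hv : Disj v)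
    (hv0 : ∀ k, v k ≠ 0) :
    IsMusielakOrlicz 𝕜 (fun k => phi M (v k)) (blockVec e v) where
  orlicz := fun k => phi_orlicz h.orlicz (hv0 k)
  norm_eq := by
    intro c
    have h1 : ‖Finsupp.linearCombination 𝕜 (blockVec e v) c‖ =
        ‖J e (∑ k ∈ c.support, c k • v k)‖ := by
      rw [← blockVec_comb]; rfl
    rw [h1, J, h.norm_eq]
    congr 1
    ext r
    simp only [Set.mem_ofPred_eq]
    refine and_congr_right fun hr => ?_
    have h2 : ∀ y : ι →₀ 𝕜, (y.sum fun i a => M i (‖a‖ / r)) = phi M y r⁻¹ := by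
      intro y
      unfold phi
      congr 1
      funext i a
      rw [div_eq_inv_mul]
    rw [h2, phi_sum _ _ fun i _ j _ hij => hv.smul (fun k => c k) hij]
    simp only [phi_smul h.orlicz]
    unfold Finsupp.sum
    have h3 : ∀ k, r⁻¹ * ‖c k‖ = ‖c k‖ / r := fun k => by rw [div_eq_inv_mul]
    simp only [h3]
  dense := by
    rw [eq_top_iff]
    rintro ⟨y, hy⟩ -
    have hy' : y ∈ closure (Submodule.span 𝕜 (Set.range fun k => J e (v k)) : Set X) := hy
    change (⟨y, hy⟩ : blockSpace e v) ∈ closure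
      (Submodule.span 𝕜 (Set.range (blockVec e v)) : Set (blockSpace e v))
    rw [Metric.mem_closure_iff] at hy' ⊢
    intro ε hε
    obtain ⟨z, hz, hyz⟩ := hy' ε hε
    have h1 : Submodule.span 𝕜 (Set.range fun k => J e (v k)) =
        (Submodule.span 𝕜 (Set.range (blockVec e v))).map (blockSpace e v).subtype := by
      rw [Submodule.map_span, ← Set.range_comp]
      rfl
    rw [h1] at hz
    obtain ⟨w, hw, rfl⟩ := hz
    exact ⟨w, hw, hyz⟩

/-- The first case implies the local quadratic condition. -/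
theorem Case1.quad (h : IsMusielakOrlicz 𝕜 M e) (hc : Case1 𝕜 M e) :
    ∃ K : ℝ, 1 ≤ K ∧ Quad 𝕜 M K := by
  obtain ⟨K0, hK0⟩ := hc
  set K := max 1 K0 with hK
  have hK1 : 1 ≤ K := le_max_left _ _
  have hKp : 0 < K := by linarith
  refine ⟨4 * K ^ 2, by nlinarith, ?_⟩
  intro S η hη
  obtain ⟨R, hR⟩ := exists_pow_lt_of_lt_one (y := (1 / 2 : ℝ))
    (x := η / 4 ^ S) (by positivity) (by norm_num)
  obtain ⟨F, hF⟩ := hK0 (S + R + 1)
  refine ⟨F, ?_⟩
  intro y hy hy1 s hs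
  have hM := h.orlicz
  have hF' : ∀ u : ι →₀ 𝕜, Disjoint u.support F → ‖J e u‖ = 1 →
    ∀ s ≤ S + R + 1, 1 ≤ K * (4 ^ s * phi M u (1 / 2 ^ s)) ∧
      4 ^ s * phi M u (1 / 2 ^ s) ≤ K := by
    intro u hu hn s hs
    have h1 := hF u hu hn s hs
    have h2 : 0 ≤ 4 ^ s * phi M u (1 / 2 ^ s) :=
      mul_nonneg (by positivity) (phi_nonneg hM _ (by positivity))
    constructor
    · refine h1.1.trans ?_
      gcongr
      exact le_max_right _ _
    · exact h1.2.trans (le_max_right _ _)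
  set lam := ‖J e y‖ with hlam
  have hlam1 : lam ≤ 1 := (norm_le_one_iff h y).2 hy1
  have hphi0 : 0 ≤ phi M y 1 := phi_nonneg hM _ zero_le_one
  have hphis : 0 ≤ phi M y (1 / 2 ^ s) := phi_nonneg hM _ (by positivity)
  have h2s : (1 : ℝ) / 2 ^ s ≤ 1 := by
    rw [div_le_one (by positivity)]; exact one_le_pow₀ (by norm_num)
  by_cases hsmall : lam ≤ 1 / 2 ^ R
  · have h1 : phi M y 1 ≤ lam := phi_le_norm h y hlam1
    have h2 : phi M y 1 ≤ η / 4 ^ S := by
      refine h1.trans (hsmall.trans ?_)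
      have : (1 : ℝ) / 2 ^ R = (1 / 2) ^ R := by rw [div_pow, one_pow]
      rw [this]; exact hR.le
    have h3 : 4 ^ S * phi M y 1 ≤ η := by
      rw [le_div_iff₀ (by positivity)] at h2; linarith
    have h4 : (4 : ℝ) ^ s ≤ 4 ^ S := pow_le_pow_right₀ (by norm_num) hs
    have h5 : (1 : ℝ) ≤ 4 ^ S := one_le_pow₀ (by norm_num)
    have h6 : phi M y (1 / 2 ^ s) ≤ phi M y 1 := phi_mono hM y (by positivity) h2s
    constructor
    · have h7 : 4 ^ s * phi M y (1 / 2 ^ s) ≤ 4 ^ S * phi M y 1 := by gcongr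
      have h8 : 0 ≤ 4 * K ^ 2 * phi M y 1 := by positivity
      linarith
    · have h7 : phi M y 1 ≤ 4 ^ S * phi M y 1 := le_mul_of_one_le_left hphi0 h5
      have h8 : 0 ≤ 4 * K ^ 2 * (4 ^ s * phi M y (1 / 2 ^ s)) := by positivity
      linarith
  · push Not at hsmall
    have hlam0 : 0 < lam := lt_trans (by positivity) hsmall
    set r := Nat.findGreatest (fun r => lam ≤ 1 / 2 ^ r) R with hr
    have hr1 : lam ≤ 1 / 2 ^ r :=
      Nat.findGreatest_spec (P := fun r => lam ≤ 1 / 2 ^ r) (Nat.zero_le R) (by simpa using hlam1)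
    have hrR : r < R := by
      refine lt_of_le_of_ne (Nat.findGreatest_le R) ?_
      intro hcon
      rw [hcon] at hr1
      linarith
    have hr2 : 1 / 2 ^ (r + 1) < lam := by
      have := Nat.findGreatest_is_greatest (P := fun r => lam ≤ 1 / 2 ^ r) (n := R)
        (k := r + 1) (Nat.lt_succ_self _) hrR
      exact not_le.1 this
    set u : ι →₀ 𝕜 := ((lam⁻¹ : ℝ) : 𝕜) • y with hu
    have hun : ‖J e u‖ = 1 := by
      rw [hu, norm_real_smul (by positivity), ← hlam, inv_mul_cancel₀ hlam0.ne']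
    have hud : Disjoint u.support F := Finset.disjoint_of_subset_left Finsupp.support_smul hy
    have hphiu : ∀ t, phi M u (lam * t) = phi M y t := by
      intro t
      rw [hu, phi_real_smul hM (by positivity)]
      congr 1
      field_simp
    have b1 := hF' u hud hun r (by omega)
    have b2 := hF' u hud hun (r + 1) (by omega)
    have b3 := hF' u hud hun (r + s) (by omega)
    have b4 := hF' u hud hun (r + 1 + s) (by omega)
    have p1 : phi M u (1 / 2 ^ (r + 1)) ≤ phi M y 1 := by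
      rw [← hphiu 1, mul_one]
      exact phi_mono hM u (by positivity) hr2.le
    have p2 : phi M y 1 ≤ phi M u (1 / 2 ^ r) := by
      rw [← hphiu 1, mul_one]
      exact phi_mono hM u hlam0.le hr1
    have p3 : phi M u (1 / 2 ^ (r + 1 + s)) ≤ phi M y (1 / 2 ^ s) := by
      rw [← hphiu]
      refine phi_mono hM u (by positivity) ?_
      calc (1 : ℝ) / 2 ^ (r + 1 + s) = 1 / 2 ^ (r + 1) * (1 / 2 ^ s) := by
            rw [pow_add, one_div_mul_one_div]
        _ ≤ lam * (1 / 2 ^ s) := by gcongr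
    have p4 : phi M y (1 / 2 ^ s) ≤ phi M u (1 / 2 ^ (r + s)) := by
      rw [← hphiu]
      refine phi_mono hM u (by positivity) ?_
      calc lam * (1 / 2 ^ s) ≤ 1 / 2 ^ r * (1 / 2 ^ s) := by gcongr
        _ = (1 : ℝ) / 2 ^ (r + s) := by rw [pow_add, one_div_mul_one_div]
    have h4r : (0 : ℝ) < 4 ^ r := by positivity
    have h4s : (0 : ℝ) < 4 ^ s := by positivity
    constructor
    · -- `4^s φ_y(1/2^s) ≤ K / 4^r ≤ 4 K² φ_y(1)`
      have q1 : 4 ^ r * (4 ^ s * phi M y (1 / 2 ^ s)) ≤ K := by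
        calc 4 ^ r * (4 ^ s * phi M y (1 / 2 ^ s)) ≤
              4 ^ r * (4 ^ s * phi M u (1 / 2 ^ (r + s))) := by gcongr
          _ = 4 ^ (r + s) * phi M u (1 / 2 ^ (r + s)) := by rw [pow_add]; ring
          _ ≤ K := b3.2
      have q2 : 1 ≤ K * (4 ^ (r + 1) * phi M y 1) := by
        calc 1 ≤ K * (4 ^ (r + 1) * phi M u (1 / 2 ^ (r + 1))) := b2.1
          _ ≤ _ := by gcongr
      have q3 : 4 ^ r * (4 ^ s * phi M y (1 / 2 ^ s)) ≤ 4 ^ r * (4 * K ^ 2 * phi M y 1) := by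
        calc 4 ^ r * (4 ^ s * phi M y (1 / 2 ^ s)) ≤ K * 1 := by rw [mul_one]; exact q1
          _ ≤ K * (K * (4 ^ (r + 1) * phi M y 1)) := by gcongr
          _ = _ := by rw [pow_succ]; ring
      have q4 := le_of_mul_le_mul_left q3 h4r
      linarith
    · have q1 : 4 ^ r * phi M y 1 ≤ K := by
        calc 4 ^ r * phi M y 1 ≤ 4 ^ r * phi M u (1 / 2 ^ r) := by gcongr
          _ ≤ K := b1.2
      have q2 : 1 ≤ K * (4 ^ (r + 1) * (4 ^ s * phi M y (1 / 2 ^ s))) := by
        calc 1 ≤ K * (4 ^ (r + 1 + s) * phi M u (1 / 2 ^ (r + 1 + s))) := b4.1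
          _ ≤ K * (4 ^ (r + 1 + s) * phi M y (1 / 2 ^ s)) := by gcongr
          _ = _ := by rw [pow_add 4 (r + 1) s]; ring
      have q3 : 4 ^ r * phi M y 1 ≤ 4 ^ r * (4 * K ^ 2 * (4 ^ s * phi M y (1 / 2 ^ s))) := by
        calc 4 ^ r * phi M y 1 ≤ K * 1 := by rw [mul_one]; exact q1
          _ ≤ K * (K * (4 ^ (r + 1) * (4 ^ s * phi M y (1 / 2 ^ s)))) := by gcongr
          _ = _ := by rw [pow_succ]; ring
      have q4 := le_of_mul_le_mul_left q3 h4r
      linarith

/-- Some choice of signs gives a small sum in a Hilbert space. -/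
theorem exists_sign_le {H : Type*} [NormedAddCommGroup H] [InnerProductSpace 𝕜 H] {κ : Type*}
    [DecidableEq κ] (t : Finset κ) (g : κ → H) :
    (∃ s : κ → Bool, ‖∑ i ∈ t, (if s i then g i else -g i)‖ ^ 2 ≤ ∑ i ∈ t, ‖g i‖ ^ 2) ∧
    (∃ s : κ → Bool, ∑ i ∈ t, ‖g i‖ ^ 2 ≤ ‖∑ i ∈ t, (if s i then g i else -g i)‖ ^ 2) := by
  induction t using Finset.induction_on with
  | empty => simp
  | insert a t ha ih =>
    have key : ∀ (s : κ → Bool) (b : Bool),
        ∑ i ∈ insert a t, (if Function.update s a b i then g i else -g i) =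
        (if b then g a else -g a) + ∑ i ∈ t, (if s i then g i else -g i) := by
      intro s b
      rw [Finset.sum_insert ha]
      congr 1
      · simp
      · refine Finset.sum_congr rfl fun i hi => ?_
        have : i ≠ a := by rintro rfl; exact ha hi
        rw [Function.update_of_ne this]
    obtain ⟨⟨s1, hs1⟩, ⟨s2, hs2⟩⟩ := ih
    constructor
    · set x := ∑ i ∈ t, (if s1 i then g i else -g i) with hx
      have hp := parallelogram_law_with_norm 𝕜 x (g a)
      rcases le_total (‖x + g a‖ * ‖x + g a‖) (‖x - g a‖ * ‖x - g a‖) with hle | hle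
      · refine ⟨Function.update s1 a true, ?_⟩
        rw [key, Finset.sum_insert ha, ← hx]
        simp only [if_true]
        rw [add_comm (g a) x]
        nlinarith
      · refine ⟨Function.update s1 a false, ?_⟩
        rw [key, Finset.sum_insert ha, ← hx]
        simp only [Bool.false_eq_true, if_false]
        rw [neg_add_eq_sub]
        nlinarith
    · set x := ∑ i ∈ t, (if s2 i then g i else -g i) with hx
      have hp := parallelogram_law_with_norm 𝕜 x (g a)
      rcases le_total (‖x + g a‖ * ‖x + g a‖) (‖x - g a‖ * ‖x - g a‖) with hle | hle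
      · refine ⟨Function.update s2 a false, ?_⟩
        rw [key, Finset.sum_insert ha, ← hx]
        simp only [Bool.false_eq_true, if_false]
        rw [neg_add_eq_sub]
        nlinarith
      · refine ⟨Function.update s2 a true, ?_⟩
        rw [key, Finset.sum_insert ha, ← hx]
        simp only [if_true]
        rw [add_comm (g a) x]
        nlinarith

/-- In a Hilbertian space unconditional finite families satisfy two-sided quadratic estimates. -/
theorem Hilbertian.bound {Y : Type u} [NormedAddCommGroup Y] [NormedSpace 𝕜 Y]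
    (hY : Hilbertian 𝕜 Y) : ∃ C : ℝ, 0 ≤ C ∧ ∀ (m : ℕ) (y : Fin m → Y),
      (∀ s : Fin m → Bool, ‖∑ i, (if s i then y i else -y i)‖ = ‖∑ i, y i‖) →
      ‖∑ i, y i‖ ^ 2 ≤ C * ∑ i, ‖y i‖ ^ 2 ∧ ∑ i, ‖y i‖ ^ 2 ≤ C * ‖∑ i, y i‖ ^ 2 := by
  obtain ⟨H, _, _, _, ⟨T⟩⟩ := hY
  set a := ‖(T : Y →L[𝕜] H)‖ with ha
  set b := ‖(T.symm : H →L[𝕜] Y)‖ with hb
  have ha0 : 0 ≤ a := norm_nonneg _
  have hb0 : 0 ≤ b := norm_nonneg _
  have hTa : ∀ y, ‖T y‖ ≤ a * ‖y‖ := fun y => (T : Y →L[𝕜] H).le_opNorm y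
  have hTb : ∀ y, ‖y‖ ≤ b * ‖T y‖ := fun y => by
    have := (T.symm : H →L[𝕜] Y).le_opNorm (T y)
    simpa using this
  refine ⟨(a * b) ^ 2, by positivity, fun m y hy => ?_⟩
  have hT : ∀ s : Fin m → Bool, T (∑ i, (if s i then y i else -y i)) =
      ∑ i, (if s i then T (y i) else -T (y i)) := by
    intro s
    rw [map_sum]
    refine Finset.sum_congr rfl fun i _ => ?_
    split_ifs
    · rfl
    · rw [map_neg]
  obtain ⟨⟨s1, hs1⟩, ⟨s2, hs2⟩⟩ :=
    exists_sign_le (𝕜 := 𝕜) (Finset.univ : Finset (Fin m)) fun i => T (y i)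
  rw [← hT] at hs1 hs2
  have h1 : ∑ i, ‖T (y i)‖ ^ 2 ≤ a ^ 2 * ∑ i, ‖y i‖ ^ 2 := by
    rw [Finset.mul_sum]
    refine Finset.sum_le_sum fun i _ => ?_
    rw [← mul_pow]
    exact pow_le_pow_left₀ (norm_nonneg _) (hTa _) 2
  have h2 : ∑ i, ‖y i‖ ^ 2 ≤ b ^ 2 * ∑ i, ‖T (y i)‖ ^ 2 := by
    rw [Finset.mul_sum]
    refine Finset.sum_le_sum fun i _ => ?_
    rw [← mul_pow]
    exact pow_le_pow_left₀ (norm_nonneg _) (hTb _) 2
  constructor
  · rw [← hy s1]
    calc ‖∑ i, (if s1 i then y i else -y i)‖ ^ 2 ≤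
          (b * ‖T (∑ i, (if s1 i then y i else -y i))‖) ^ 2 :=
          pow_le_pow_left₀ (norm_nonneg _) (hTb _) 2
      _ = b ^ 2 * ‖T (∑ i, (if s1 i then y i else -y i))‖ ^ 2 := by ring
      _ ≤ b ^ 2 * (a ^ 2 * ∑ i, ‖y i‖ ^ 2) := by
          gcongr
          exact hs1.trans h1
      _ = _ := by ring
  · calc ∑ i, ‖y i‖ ^ 2 ≤ b ^ 2 * ∑ i, ‖T (y i)‖ ^ 2 := h2
      _ ≤ b ^ 2 * (a * ‖∑ i, (if s2 i then y i else -y i)‖) ^ 2 := by
          gcongr
          exact hs2.trans (pow_le_pow_left₀ (norm_nonneg _) (hTa _) 2)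
      _ = (a * b) ^ 2 * ‖∑ i, (if s2 i then y i else -y i)‖ ^ 2 := by ring
      _ = _ := by rw [hy s2]

end Pool.Agent.H88.MO
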