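import Mathlib

namespace Pool.Agent.H88.MO

open Filter Topology

universe u

variable {𝕜 : Type*} [RCLike 𝕜]

/-- A basis of an `n`-dimensional normed space with coefficient bound `3 ^ n`. -/
theorem exists_good_basis (n : ℕ) : ∀ (E : Type u) [NormedAddCommGroup E] [NormedSpace 𝕜 E]
    [FiniteDimensional 𝕜 E], Module.finrank 𝕜 E = n →
    ∃ b : Fin n → E, (∀ l, ‖b l‖ ≤ 1) ∧
      ∀ x : E, ∃ c : Fin n → 𝕜, x = ∑ l, c l • b l ∧ ∀ l, ‖c l‖ ≤ 3 ^ n * ‖x‖ := by
  induction n with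
  | zero =>
    intro E _ _ _ hE
    have : Subsingleton E := Module.finrank_zero_iff.1 hE
    exact ⟨Fin.elim0, fun l => l.elim0, fun x => ⟨Fin.elim0, Subsingleton.elim _ _,
      fun l => l.elim0⟩⟩
  | succ n ih =>
    intro E _ _ _ hE
    have hnt : Nontrivial E := Module.nontrivial_of_finrank_pos (R := 𝕜) (by omega)
    obtain ⟨v, hv⟩ := exists_ne (0 : E)
    obtain ⟨f, hf⟩ : ∃ f : E →ₗ[𝕜] 𝕜, f v ≠ 0 := by
      by_contra hcon
      push Not at hcon
      exact hv ((Module.forall_dual_apply_eq_zero_iff 𝕜 v).1 hcon)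
    have hsurj : Function.Surjective f := by
      intro y
      refine ⟨(y / f v) • v, ?_⟩
      rw [map_smul, smul_eq_mul, div_mul_cancel₀ _ hf]
    have hker : Module.finrank 𝕜 (LinearMap.ker f) = n := by
      have h1 := LinearMap.finrank_range_add_finrank_ker f
      rw [LinearMap.range_eq_top.2 hsurj, finrank_top, Module.finrank_self] at h1
      omega
    have hclosed : IsClosed ((LinearMap.ker f : Submodule 𝕜 E) : Set E) :=
      Submodule.closed_of_finiteDimensional _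
    obtain ⟨x0, hx0, hx0d⟩ := riesz_lemma hclosed ⟨v, by simpa using hf⟩
      (show (1 / 2 : ℝ) < 1 by norm_num)
    have hfx0 : f x0 ≠ 0 := by simpa using hx0
    have hx00 : x0 ≠ 0 := by rintro rfl; simp at hfx0
    have hn0 : 0 < ‖x0‖ := norm_pos_iff.2 hx00
    set y0 : E := ((‖x0‖⁻¹ : ℝ) : 𝕜) • x0 with hy0
    have hny0 : ‖y0‖ = 1 := by
      rw [hy0, norm_smul, RCLike.norm_ofReal, abs_of_nonneg (by positivity),
        inv_mul_cancel₀ hn0.ne']
    have hfy0 : f y0 ≠ 0 := by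
      rw [hy0, map_smul, smul_eq_mul]
      refine mul_ne_zero ?_ hfx0
      exact_mod_cast (inv_pos.2 hn0).ne'
    have hdist : ∀ y ∈ LinearMap.ker f, 1 / 2 ≤ ‖y0 - y‖ := by
      intro y hy
      have h1 := hx0d (((‖x0‖ : ℝ) : 𝕜) • y) (Submodule.smul_mem _ _ hy)
      have h2 : y0 - y = ((‖x0‖⁻¹ : ℝ) : 𝕜) • (x0 - ((‖x0‖ : ℝ) : 𝕜) • y) := by
        rw [hy0, smul_sub, smul_smul, ← RCLike.ofReal_mul, inv_mul_cancel₀ hn0.ne',
          RCLike.ofReal_one, one_smul]
      rw [h2, norm_smul, RCLike.norm_ofReal, abs_of_nonneg (by positivity)]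
      rw [inv_mul_eq_div, le_div_iff₀ hn0]
      exact h1
    obtain ⟨b', hb', hc'⟩ := ih (LinearMap.ker f) hker
    refine ⟨Fin.cons y0 fun l => (b' l : E), ?_, ?_⟩
    · intro l
      refine Fin.cases ?_ (fun l => ?_) l
      · simp [hny0]
      · simpa using hb' l
    · intro x
      set c0 : 𝕜 := f x / f y0 with hc0
      have hrest : x - c0 • y0 ∈ LinearMap.ker f := by
        rw [LinearMap.mem_ker, map_sub, map_smul, smul_eq_mul, hc0, div_mul_cancel₀ _ hfy0,
          sub_self]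
      obtain ⟨c, hcx, hcb⟩ := hc' ⟨x - c0 • y0, hrest⟩
      have hx1 : x - c0 • y0 = ∑ l, c l • (b' l : E) := by
        have := congrArg Subtype.val hcx
        simpa using this
      have hc0b : ‖c0‖ ≤ 2 * ‖x‖ := by
        by_cases hz : c0 = 0
        · rw [hz]; simp
        · have h1 := hdist (-(c0⁻¹ • (x - c0 • y0)))
            (Submodule.neg_mem _ (Submodule.smul_mem _ _ hrest))
          have h2 : y0 - -(c0⁻¹ • (x - c0 • y0)) = c0⁻¹ • x := by
            rw [smul_sub, smul_smul, inv_mul_cancel₀ hz, one_smul]; abel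
          rw [h2, norm_smul, norm_inv, inv_mul_eq_div, le_div_iff₀ (norm_pos_iff.2 hz)] at h1
          linarith
      have hrn : ‖x - c0 • y0‖ ≤ 3 * ‖x‖ := by
        calc ‖x - c0 • y0‖ ≤ ‖x‖ + ‖c0 • y0‖ := norm_sub_le _ _
          _ = ‖x‖ + ‖c0‖ := by rw [norm_smul, hny0, mul_one]
          _ ≤ _ := by linarith
      refine ⟨Fin.cons c0 c, ?_, ?_⟩
      · rw [Fin.sum_univ_succ]
        simp only [Fin.cons_zero, Fin.cons_succ]
        rw [← hx1]
        abel
      · intro l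
        have h3 : (3 : ℝ) ≤ 3 ^ (n + 1) := by
          calc (3 : ℝ) = 3 ^ 1 := by norm_num
            _ ≤ 3 ^ (n + 1) := pow_le_pow_right₀ (by norm_num) (by omega)
        refine Fin.cases ?_ (fun l => ?_) l
        · simp only [Fin.cons_zero]
          have := norm_nonneg x
          nlinarith
        · simp only [Fin.cons_succ]
          calc ‖c l‖ ≤ 3 ^ n * ‖x - c0 • y0‖ := hcb l
            _ ≤ 3 ^ n * (3 * ‖x‖) := by gcongr
            _ = _ := by ring

/-- An `n`-dimensional space with a linear map to an inner product space with lower bound `a` and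
upper bound `b` has distance at most `b / a` to the Hilbert space of dimension `n`. -/
theorem exists_equiv_of_bounds {E : Type*} [NormedAddCommGroup E] [NormedSpace 𝕜 E]
    [FiniteDimensional 𝕜 E] {n : ℕ} (hn : Module.finrank 𝕜 E = n) {H : Type*}
    [NormedAddCommGroup H] [InnerProductSpace 𝕜 H] (L : E →ₗ[𝕜] H) {a b : ℝ} (ha : 0 < a)
    (hb : 0 ≤ b) (h1 : ∀ x, a * ‖x‖ ≤ ‖L x‖) (h2 : ∀ x, ‖L x‖ ≤ b * ‖x‖) :
    ∃ T : E ≃L[𝕜] EuclideanSpace 𝕜 (Fin n),
        ‖(T : E →L[𝕜] EuclideanSpace 𝕜 (Fin n))‖ *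
          ‖(T.symm : EuclideanSpace 𝕜 (Fin n) →L[𝕜] E)‖ ≤ b / a := by
  have hinj : Function.Injective L := by
    rw [← LinearMap.ker_eq_bot, LinearMap.ker_eq_bot']
    intro x hx
    have := h1 x
    rw [hx, norm_zero] at this
    have h3 : ‖x‖ ≤ 0 := by
      by_contra hcon
      push Not at hcon
      have := mul_pos ha hcon
      linarith
    exact norm_le_zero_iff.1 h3
  let e1 : E ≃ₗ[𝕜] LinearMap.range L := LinearEquiv.ofInjective L hinj
  have hfd : FiniteDimensional 𝕜 (LinearMap.range L) := Module.Finite.range L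
  have hfr : Module.finrank 𝕜 (LinearMap.range L) = n := by rw [← e1.finrank_eq, hn]
  let iso : LinearMap.range L ≃ₗᵢ[𝕜] EuclideanSpace 𝕜 (Fin n) :=
    ((stdOrthonormalBasis 𝕜 (LinearMap.range L)).reindex (finCongr hfr)).repr
  let T : E ≃L[𝕜] EuclideanSpace 𝕜 (Fin n) :=
    (e1.trans iso.toLinearEquiv).toContinuousLinearEquiv
  have hT : ∀ x, ‖T x‖ = ‖L x‖ := by
    intro x
    change ‖iso (e1 x)‖ = ‖L x‖
    rw [iso.norm_map]
    rfl
  refine ⟨T, ?_⟩
  have hn1 : ‖(T : E →L[𝕜] EuclideanSpace 𝕜 (Fin n))‖ ≤ b :=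
    ContinuousLinearMap.opNorm_le_bound _ hb fun x => by
      rw [ContinuousLinearEquiv.coe_coe, hT]; exact h2 x
  have hn2 : ‖(T.symm : EuclideanSpace 𝕜 (Fin n) →L[𝕜] E)‖ ≤ a⁻¹ :=
    ContinuousLinearMap.opNorm_le_bound _ (by positivity) fun y => by
      rw [ContinuousLinearEquiv.coe_coe]
      have h3 := h1 (T.symm y)
      rw [← hT, T.apply_symm_apply] at h3
      rw [inv_mul_eq_div, le_div_iff₀ ha]
      linarith
  calc _ ≤ b * a⁻¹ := by gcongr
    _ = b / a := by rw [div_eq_mul_inv]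

end Pool.Agent.H88.MO
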