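import Pool.Agent.H88.MO.Basic

namespace Pool.Agent.H88.MO

open Filter Topology

variable {ι : Type*} {M : ι → ℝ → ℝ}

/-- the level of `y` relative to `z` -/
noncomputable def lev (S : ℕ) (y z : ℝ) : ℕ := Nat.findGreatest (fun s => y ≤ z / 2 ^ s) S

theorem lev_le (S : ℕ) (y z : ℝ) : lev S y z ≤ S := Nat.findGreatest_le S

theorem lev_spec {S : ℕ} {y z : ℝ} (h : y ≤ z) : y ≤ z / 2 ^ lev S y z :=
  Nat.findGreatest_spec (P := fun s => y ≤ z / 2 ^ s) (Nat.zero_le S) (by simpa using h)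

theorem lev_gt {S : ℕ} {y z : ℝ} (h : lev S y z < S) : z / 2 ^ (lev S y z + 1) < y := by
  have := Nat.findGreatest_is_greatest (P := fun s => y ≤ z / 2 ^ s) (n := S)
    (k := lev S y z + 1) (Nat.lt_succ_self _) h
  exact not_le.1 this

/-- **Level sets.** Comparison of `∑ M_i (y_i)` and the quadratic form `∑ (M_i (z_i) / z_i ^ 2) y_i ^ 2`. -/
theorem level_compare (hM : ∀ i, Orlicz (M i)) (s0 : Finset ι) (y z : ι → ℝ)
    (hy : ∀ i, 0 ≤ y i) (hz : ∀ i, 0 ≤ z i) (hyz : ∀ i, y i ≤ z i)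
    (hz1 : ∑ i ∈ s0, M i (z i) ≤ 1) {K η : ℝ} (hK : 1 ≤ K) (hη : 0 ≤ η) (S : ℕ)
    (H : ∀ I ⊆ s0, ∀ k ≤ S, 4 ^ k * ∑ i ∈ I, M i (z i / 2 ^ k) ≤ K * ∑ i ∈ I, M i (z i) + 4 ^ k * η ∧
      ∑ i ∈ I, M i (z i) ≤ 4 ^ k * (K * ∑ i ∈ I, M i (z i / 2 ^ k) + η)) :
    ∑ i ∈ s0, M i (y i) ≤ 4 * K * (∑ i ∈ s0, M i (z i) / z i ^ 2 * y i ^ 2) + S * η + 1 / 2 ^ S ∧
    (∑ i ∈ s0, M i (z i) / z i ^ 2 * y i ^ 2) ≤
      4 * K * (∑ i ∈ s0, M i (y i)) + 4 * S * η + 1 / 2 ^ S := by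
  classical
  set I : ℕ → Finset ι := fun k => s0.filter fun i => lev S (y i) (z i) = k with hI
  have hmaps : ∀ i ∈ s0, lev S (y i) (z i) ∈ Finset.range (S + 1) := fun i _ =>
    Finset.mem_range.2 (Nat.lt_succ_of_le (lev_le _ _ _))
  have hsplit : ∀ f : ι → ℝ, ∑ i ∈ s0, f i = ∑ k ∈ Finset.range S, ∑ i ∈ I k, f i +
      ∑ i ∈ I S, f i := by
    intro f
    rw [← Finset.sum_range_succ (fun k => ∑ i ∈ I k, f i)]
    exact (Finset.sum_fiberwise_of_maps_to hmaps f).symm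
  have hIsub : ∀ k, I k ⊆ s0 := fun k => Finset.filter_subset _ _
  have hMn : ∀ i (t : ℝ), 0 ≤ t → 0 ≤ M i t := fun i t ht => (hM i).nonneg t ht
  have hw0 : ∀ i, 0 ≤ M i (z i) / z i ^ 2 := fun i => div_nonneg (hMn i _ (hz i)) (by positivity)
  -- pointwise bounds
  have hup : ∀ k, ∀ i ∈ I k, y i ≤ z i / 2 ^ k := by
    intro k i hi
    have h1 := (Finset.mem_filter.1 hi).2
    have h2 := lev_spec (S := S) (hyz i)
    rwa [h1] at h2
  have hlo : ∀ k < S, ∀ i ∈ I k, z i / 2 ^ (k + 1) ≤ y i := by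
    intro k hk i hi
    have h1 := (Finset.mem_filter.1 hi).2
    have h2 := lev_gt (S := S) (y := y i) (z := z i) (by rw [h1]; exact hk)
    rw [h1] at h2
    exact h2.le
  have hqle : ∀ k, ∀ i ∈ I k, 4 ^ k * (M i (z i) / z i ^ 2 * y i ^ 2) ≤ M i (z i) := by
    intro k i hi
    have h1 := hup k i hi
    rcases eq_or_lt_of_le (hz i) with h0 | h0
    · rw [← h0]; simp [(hM i).zero]
    · have h2 : y i ^ 2 ≤ (z i / 2 ^ k) ^ 2 := pow_le_pow_left₀ (hy i) h1 2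
      calc 4 ^ k * (M i (z i) / z i ^ 2 * y i ^ 2) ≤
            4 ^ k * (M i (z i) / z i ^ 2 * (z i / 2 ^ k) ^ 2) := by
            have := hw0 i
            gcongr
        _ = M i (z i) := by
            have h4 : (4 : ℝ) ^ k = (2 ^ k) ^ 2 := by rw [← pow_mul, mul_comm, pow_mul]; norm_num
            rw [h4]
            field_simp
  have hqge : ∀ k < S, ∀ i ∈ I k, M i (z i) ≤ 4 ^ (k + 1) * (M i (z i) / z i ^ 2 * y i ^ 2) := by
    intro k hk i hi
    have h1 := hlo k hk i hi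
    rcases eq_or_lt_of_le (hz i) with h0 | h0
    · rw [← h0]; simp [(hM i).zero]
    · have h2 : (z i / 2 ^ (k + 1)) ^ 2 ≤ y i ^ 2 := pow_le_pow_left₀ (by positivity) h1 2
      calc M i (z i) = 4 ^ (k + 1) * (M i (z i) / z i ^ 2 * (z i / 2 ^ (k + 1)) ^ 2) := by
            have h4 : (4 : ℝ) ^ (k + 1) = (2 ^ (k + 1)) ^ 2 := by
              rw [← pow_mul, mul_comm, pow_mul]; norm_num
            rw [h4]
            field_simp
        _ ≤ _ := by
            have := hw0 i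
            gcongr
  have hq0 : ∀ i, 0 ≤ M i (z i) / z i ^ 2 * y i ^ 2 := fun i => mul_nonneg (hw0 i) (by positivity)
  constructor
  · rw [hsplit (fun i => M i (y i)), hsplit (fun i => M i (z i) / z i ^ 2 * y i ^ 2)]
    have h1 : ∀ k ∈ Finset.range S, ∑ i ∈ I k, M i (y i) ≤
        4 * K * (∑ i ∈ I k, M i (z i) / z i ^ 2 * y i ^ 2) + η := by
      intro k hk
      have hk' := Finset.mem_range.1 hk
      have h4 : (0 : ℝ) < 4 ^ k := by positivity
      have e1 : ∑ i ∈ I k, M i (y i) ≤ ∑ i ∈ I k, M i (z i / 2 ^ k) :=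
        Finset.sum_le_sum fun i hi => (hM i).mono (hy i) (hup k i hi)
      have e2 := (H (I k) (hIsub k) k hk'.le).1
      have e3 : ∑ i ∈ I k, M i (z i) ≤
          4 ^ (k + 1) * ∑ i ∈ I k, M i (z i) / z i ^ 2 * y i ^ 2 := by
        rw [Finset.mul_sum]
        exact Finset.sum_le_sum fun i hi => hqge k hk' i hi
      have e4 : 4 ^ k * ∑ i ∈ I k, M i (y i) ≤
          4 ^ k * (4 * K * (∑ i ∈ I k, M i (z i) / z i ^ 2 * y i ^ 2) + η) := by
        calc 4 ^ k * ∑ i ∈ I k, M i (y i) ≤ 4 ^ k * ∑ i ∈ I k, M i (z i / 2 ^ k) := by gcongr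
          _ ≤ K * ∑ i ∈ I k, M i (z i) + 4 ^ k * η := e2
          _ ≤ K * (4 ^ (k + 1) * ∑ i ∈ I k, M i (z i) / z i ^ 2 * y i ^ 2) + 4 ^ k * η := by
              gcongr
          _ = _ := by ring
      exact le_of_mul_le_mul_left e4 h4
    have h2 : ∑ i ∈ I S, M i (y i) ≤ 1 / 2 ^ S := by
      calc ∑ i ∈ I S, M i (y i) ≤ ∑ i ∈ I S, (1 / 2 ^ S) * M i (z i) := by
            refine Finset.sum_le_sum fun i hi => ?_
            have h3 := (hM i).scale (s := 1 / 2 ^ S) (t := z i) (by positivity)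
              (by rw [div_le_one (by positivity)]; exact one_le_pow₀ (by norm_num)) (hz i)
            refine le_trans ((hM i).mono (hy i) ?_) h3
            calc y i ≤ z i / 2 ^ S := hup S i hi
              _ = _ := by ring
        _ = (1 / 2 ^ S) * ∑ i ∈ I S, M i (z i) := by rw [Finset.mul_sum]
        _ ≤ (1 / 2 ^ S) * 1 := by
            gcongr
            exact (Finset.sum_le_sum_of_subset_of_nonneg (hIsub S)
              fun i _ _ => hMn i _ (hz i)).trans hz1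
        _ = _ := mul_one _
    have h3 := Finset.sum_le_sum h1
    rw [Finset.sum_add_distrib, ← Finset.mul_sum, Finset.sum_const, Finset.card_range,
      nsmul_eq_mul] at h3
    have h5 : 0 ≤ 4 * K * ∑ i ∈ I S, M i (z i) / z i ^ 2 * y i ^ 2 :=
      mul_nonneg (by positivity) (Finset.sum_nonneg fun i _ => hq0 i)
    linarith
  · rw [hsplit (fun i => M i (y i)), hsplit (fun i => M i (z i) / z i ^ 2 * y i ^ 2)]
    have h1 : ∀ k ∈ Finset.range S, (∑ i ∈ I k, M i (z i) / z i ^ 2 * y i ^ 2) ≤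
        4 * K * (∑ i ∈ I k, M i (y i)) + 4 * η := by
      intro k hk
      have hk' := Finset.mem_range.1 hk
      have h4 : (0 : ℝ) < 4 ^ k := by positivity
      have e1 : ∑ i ∈ I k, M i (z i / 2 ^ (k + 1)) ≤ ∑ i ∈ I k, M i (y i) :=
        Finset.sum_le_sum fun i hi => (hM i).mono (div_nonneg (hz i) (by positivity))
          (hlo k hk' i hi)
      have e2 := (H (I k) (hIsub k) (k + 1) hk').2
      have e3 : 4 ^ k * (∑ i ∈ I k, M i (z i) / z i ^ 2 * y i ^ 2) ≤ ∑ i ∈ I k, M i (z i) := by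
        rw [Finset.mul_sum]
        exact Finset.sum_le_sum fun i hi => hqle k i hi
      have e4 : 4 ^ k * (∑ i ∈ I k, M i (z i) / z i ^ 2 * y i ^ 2) ≤
          4 ^ k * (4 * K * (∑ i ∈ I k, M i (y i)) + 4 * η) := by
        calc 4 ^ k * (∑ i ∈ I k, M i (z i) / z i ^ 2 * y i ^ 2) ≤ ∑ i ∈ I k, M i (z i) := e3
          _ ≤ 4 ^ (k + 1) * (K * ∑ i ∈ I k, M i (z i / 2 ^ (k + 1)) + η) := e2
          _ ≤ 4 ^ (k + 1) * (K * ∑ i ∈ I k, M i (y i) + η) := by gcongr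
          _ = _ := by ring
      exact le_of_mul_le_mul_left e4 h4
    have h2 : (∑ i ∈ I S, M i (z i) / z i ^ 2 * y i ^ 2) ≤ 1 / 2 ^ S := by
      have e3 : 4 ^ S * (∑ i ∈ I S, M i (z i) / z i ^ 2 * y i ^ 2) ≤ ∑ i ∈ I S, M i (z i) := by
        rw [Finset.mul_sum]
        exact Finset.sum_le_sum fun i hi => hqle S i hi
      have e4 : ∑ i ∈ I S, M i (z i) ≤ 1 :=
        (Finset.sum_le_sum_of_subset_of_nonneg (hIsub S)
              fun i _ _ => hMn i _ (hz i)).trans hz1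
      have e5 : (2 : ℝ) ^ S ≤ 4 ^ S := pow_le_pow_left₀ (by norm_num) (by norm_num) S
      have e6 : 0 ≤ ∑ i ∈ I S, M i (z i) / z i ^ 2 * y i ^ 2 :=
        Finset.sum_nonneg fun i _ => hq0 i
      rw [le_div_iff₀ (by positivity), mul_comm]
      calc 2 ^ S * (∑ i ∈ I S, M i (z i) / z i ^ 2 * y i ^ 2) ≤
          4 ^ S * (∑ i ∈ I S, M i (z i) / z i ^ 2 * y i ^ 2) := by gcongr
        _ ≤ 1 := e3.trans e4
    have h3 := Finset.sum_le_sum h1
    rw [Finset.sum_add_distrib, ← Finset.mul_sum, Finset.sum_const, Finset.card_range,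
      nsmul_eq_mul] at h3
    have h5 : 0 ≤ 4 * K * ∑ i ∈ I S, M i (y i) :=
      mul_nonneg (by positivity) (Finset.sum_nonneg fun i _ => hMn i _ (hy i))
    linarith

end Pool.Agent.H88.MO
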