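import Pool.Agent.H88.MO.Limit
import Pool.Agent.H88.MO.Level
import Pool.Agent.H88.MO.FinDim

namespace Pool.Agent.H88.MO

open Filter Topology

variable {𝕜 : Type*} [RCLike 𝕜] {ι : Type*} {M : ι → ℝ → ℝ}

/-- The local quadratic condition for vectors supported off a finite set. -/
def Quad (𝕜 : Type*) [RCLike 𝕜] (M : ι → ℝ → ℝ) (K : ℝ) : Prop :=
  ∀ (S : ℕ) (η : ℝ), 0 < η → ∃ F : Finset ι, ∀ y : ι →₀ 𝕜, Disjoint y.support F →
    phi M y 1 ≤ 1 → ∀ s ≤ S, 4 ^ s * phi M y (1 / 2 ^ s) ≤ K * phi M y 1 + η ∧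
      phi M y 1 ≤ K * (4 ^ s * phi M y (1 / 2 ^ s)) + η

/-- the quadratic form belonging to the dominating vector `z` -/
noncomputable def qf (M : ι → ℝ → ℝ) (z y : ι →₀ 𝕜) : ℝ :=
  ∑ i ∈ z.support, M i ‖z i‖ / ‖z i‖ ^ 2 * ‖y i‖ ^ 2

section MO

variable {X : Type*} [NormedAddCommGroup X] [NormedSpace 𝕜 X] {e : ι → X}

theorem Quad.core (h : IsMusielakOrlicz 𝕜 M e) {K : ℝ} (hK : 1 ≤ K) (hQ : Quad 𝕜 M K) (r : ℕ) :
    ∃ F : Finset ι, ∀ y z : ι →₀ 𝕜, Disjoint z.support F → ‖J e z‖ ≤ 1 →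
      (∀ i, ‖y i‖ ≤ ‖z i‖) → 2 ^ r * ‖J e y‖ = 1 →
      1 / (8 * K ^ 2) ≤ 4 ^ r * qf M z y ∧ 4 ^ r * qf M z y ≤ 4 * K ^ 2 + 1 := by
  classical
  have hK0 : 0 < K := by linarith
  -- choose `S`
  obtain ⟨S0, hS0⟩ := exists_pow_lt_of_lt_one (y := (1 / 2 : ℝ))
    (x := 1 / (4 * K * 4 ^ r)) (by positivity) (by norm_num)
  set S := S0 + r with hS
  have hSle : 4 ^ r * (1 / 2 ^ S) ≤ 1 / (4 * K) := by
    have h1 : (1 / 2 : ℝ) ^ S ≤ (1 / 2 : ℝ) ^ S0 :=
      pow_le_pow_of_le_one (by norm_num) (by norm_num) (by omega)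
    have h2 : (1 : ℝ) / 2 ^ S = (1 / 2) ^ S := by rw [div_pow, one_pow]
    rw [h2]
    calc 4 ^ r * (1 / 2 : ℝ) ^ S ≤ 4 ^ r * (1 / (4 * K * 4 ^ r)) := by
          gcongr
          exact h1.trans hS0.le
      _ = 1 / (4 * K) := by field_simp
  set η : ℝ := 1 / (4 * K * (4 * K + 4 ^ r * (4 * S) + 1)) with hη
  have hη0 : 0 < η := by positivity
  have hη1 : (4 * K + 4 ^ r * (4 * S) + 1) * η = 1 / (4 * K) := by
    rw [hη]
    have : 4 * K + 4 ^ r * (4 * (S : ℝ)) + 1 ≠ 0 := by positivity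
    field_simp
  obtain ⟨F, hF⟩ := hQ S η hη0
  refine ⟨F, ?_⟩
  intro y z hz hz1 hyz hyr
  have hM := h.orlicz
  have hysupp : y.support ⊆ z.support := by
    intro i hi
    rw [Finsupp.mem_support_iff] at hi ⊢
    intro h0
    have := hyz i
    rw [h0, norm_zero] at this
    exact hi (norm_le_zero_iff.1 this)
  have hzphi : ∑ i ∈ z.support, M i ‖z i‖ ≤ 1 := by
    have := (norm_le_one_iff h z).1 hz1
    rw [phi_eq_sum hM z 1 subset_rfl] at this
    simpa using this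
  have hyphi : phi M y 1 = ∑ i ∈ z.support, M i ‖y i‖ := by
    rw [phi_eq_sum hM y 1 hysupp]
    simp
  have H : ∀ I ⊆ z.support, ∀ k ≤ S, 4 ^ k * ∑ i ∈ I, M i (‖z i‖ / 2 ^ k) ≤
      K * ∑ i ∈ I, M i ‖z i‖ + 4 ^ k * η ∧
      ∑ i ∈ I, M i ‖z i‖ ≤ 4 ^ k * (K * ∑ i ∈ I, M i (‖z i‖ / 2 ^ k) + η) := by
    intro I hI k hk
    set zI : ι →₀ 𝕜 := z.filter (· ∈ I) with hzI
    have hsupp : zI.support ⊆ I := by
      intro i hi
      rw [hzI, Finsupp.support_filter, Finset.mem_filter] at hi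
      exact hi.2
    have hval : ∀ i ∈ I, zI i = z i := fun i hi => Finsupp.filter_apply_pos _ _ hi
    have hphi : ∀ t, phi M zI t = ∑ i ∈ I, M i (t * ‖z i‖) := by
      intro t
      rw [phi_eq_sum hM zI t hsupp]
      exact Finset.sum_congr rfl fun i hi => by rw [hval i hi]
    have hd : Disjoint zI.support F :=
      Finset.disjoint_of_subset_left (hsupp.trans hI) hz
    have h1 : phi M zI 1 ≤ 1 := by
      rw [hphi]
      simp only [one_mul]
      exact (Finset.sum_le_sum_of_subset_of_nonneg hI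
        fun i _ _ => (hM i).nonneg _ (norm_nonneg _)).trans hzphi
    have h2 := hF zI hd h1 k hk
    rw [hphi, hphi] at h2
    simp only [one_mul] at h2
    have h3 : ∀ i, 1 / 2 ^ k * ‖z i‖ = ‖z i‖ / 2 ^ k := fun i => by ring
    simp only [h3] at h2
    have h4 : (1 : ℝ) ≤ 4 ^ k := one_le_pow₀ (by norm_num)
    constructor
    · nlinarith [h2.1]
    · nlinarith [h2.2]
  have hlev := level_compare hM z.support (fun i => ‖y i‖) (fun i => ‖z i‖)
    (fun i => norm_nonneg _) (fun i => norm_nonneg _) hyz hzphi hK hη0.le S H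
  have hq : (∑ i ∈ z.support, M i ‖z i‖ / ‖z i‖ ^ 2 * ‖y i‖ ^ 2) = qf M z y := rfl
  rw [hq, ← hyphi] at hlev
  -- the value at `y`
  set y1 : ι →₀ 𝕜 := (((2 : ℝ) ^ r : ℝ) : 𝕜) • y with hy1
  have hy1n : ‖J e y1‖ = 1 := by rw [hy1, norm_real_smul (by positivity)]; exact hyr
  have hy1d : Disjoint y1.support F :=
    Finset.disjoint_of_subset_left (Finsupp.support_smul.trans hysupp) hz
  have hy1p : phi M y1 1 = 1 := phi_one h hy1n
  have hy1s : phi M y1 (1 / 2 ^ r) = phi M y 1 := by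
    rw [hy1, phi_real_smul hM (by positivity)]
    congr 1
    field_simp
  have h5 := hF y1 hy1d hy1p.le r (by omega)
  rw [hy1p, hy1s] at h5
  set φ := phi M y 1 with hφ
  set q := qf M z y with hqq
  have h4r : (0 : ℝ) < 4 ^ r := by positivity
  have hS0' : (0 : ℝ) ≤ S := by positivity
  have hk4 : 1 / (4 * K) ≤ 1 / 4 := by
    apply one_div_le_one_div_of_le <;> linarith
  constructor
  · -- lower bound
    have e1 : 4 ^ r * φ ≤ 4 ^ r * (4 * K * q + S * η + 1 / 2 ^ S) :=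
      mul_le_mul_of_nonneg_left hlev.1 h4r.le
    have e2 : 1 - η ≤ K * (4 ^ r * φ) := by linarith [h5.2]
    have e3 : 1 - η ≤ K * (4 * K * (4 ^ r * q) + 4 ^ r * (S * η) + 4 ^ r * (1 / 2 ^ S)) := by
      refine e2.trans ?_
      calc K * (4 ^ r * φ) ≤ K * (4 ^ r * (4 * K * q + S * η + 1 / 2 ^ S)) := by gcongr
        _ = _ := by ring
    have e4 : 4 ^ r * (S * η) + 4 ^ r * (1 / 2 ^ S) ≤ 1 / (4 * K) - 4 * K * η - η + 1 / (4 * K) := by
      have : 0 ≤ 4 ^ r * (S * η) := by positivity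
      nlinarith
    have e5 : 1 - η ≤ K * (4 * K * (4 ^ r * q)) + K * (1 / (4 * K) - 4 * K * η - η + 1 / (4 * K)) := by
      calc 1 - η ≤ K * (4 * K * (4 ^ r * q)) + K * (4 ^ r * (S * η) + 4 ^ r * (1 / 2 ^ S)) := by
            linarith [e3]
        _ ≤ _ := by gcongr
    have e6 : K * (1 / (4 * K)) = 1 / 4 := by field_simp
    have e7 : 1 / 2 ≤ 4 * K ^ 2 * (4 ^ r * q) := by
      have e8 : K * (1 / (4 * K) - 4 * K * η - η + 1 / (4 * K)) =
        1 / 2 - 4 * K ^ 2 * η - K * η := by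
        have : K * (1 / (4 * K) - 4 * K * η - η + 1 / (4 * K)) =
          K * (1 / (4 * K)) + K * (1 / (4 * K)) - 4 * K ^ 2 * η - K * η := by ring
        rw [this, e6]; ring
      rw [e8] at e5
      have e9 : η ≤ K * η := le_mul_of_one_le_left hη0.le hK
      have e10 : 0 ≤ K ^ 2 * η := by positivity
      nlinarith
    rw [div_le_iff₀ (by positivity)]
    nlinarith
  · have e1 : 4 ^ r * q ≤ 4 ^ r * (4 * K * φ + 4 * S * η + 1 / 2 ^ S) :=
      mul_le_mul_of_nonneg_left hlev.2 h4r.le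
    have e2 : 4 ^ r * φ ≤ K + η := by linarith [h5.1]
    have e3 : 4 ^ r * (4 * K * φ + 4 * S * η + 1 / 2 ^ S) ≤
        4 * K * (K + η) + 4 ^ r * (4 * S) * η + 1 / (4 * K) := by
      calc 4 ^ r * (4 * K * φ + 4 * S * η + 1 / 2 ^ S) =
            4 * K * (4 ^ r * φ) + 4 ^ r * (4 * S) * η + 4 ^ r * (1 / 2 ^ S) := by ring
        _ ≤ _ := by gcongr
    nlinarith

end MO

end Pool.Agent.H88.MO
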