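import Mathlib

/-!
# Musielak–Orlicz sequence spaces, near Hilbert spaces, asymptotically Hilbertian spaces
-/

namespace Pool.Agent.H88.MO

open Filter Topology

universe u

/-- `M : [0, ∞) → [0, ∞)` is an Orlicz function: it is convex, `M 0 = 0` and `M t → ∞` as
`t → ∞`. Only the values at `t ≥ 0` matter. -/
structure Orlicz (M : ℝ → ℝ) : Prop where
  convex : ConvexOn ℝ (Set.Ici 0) M
  nonneg : ∀ t, 0 ≤ t → 0 ≤ M t
  zero : M 0 = 0
  top : Tendsto M atTop atTop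

/-- The Banach space `X` is (up to an isometry) the Musielak–Orlicz sequence space `h_(M_i)` over
the index set `ι`, with unit vectors `e i`: the functions `M i` are Orlicz functions, for all
finitely supported families `c` of scalars
`‖∑ c_i e_i‖ = inf {r > 0 : ∑ M_i (|c_i| / r) ≤ 1}`,
and `X` is the closed linear span of the vectors `e i`. -/
structure IsMusielakOrlicz (𝕜 : Type*) [RCLike 𝕜] {ι : Type*} (M : ι → ℝ → ℝ) {X : Type*}
    [NormedAddCommGroup X] [NormedSpace 𝕜 X] (e : ι → X) : Prop where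
  orlicz : ∀ i, Orlicz (M i)
  norm_eq : ∀ c : ι →₀ 𝕜, ‖Finsupp.linearCombination 𝕜 e c‖ =
    sInf {r : ℝ | 0 < r ∧ c.sum (fun i a => M i (‖a‖ / r)) ≤ 1}
  dense : (Submodule.span 𝕜 (Set.range e)).topologicalClosure = ⊤

/-- The quadratic Rademacher mean `(𝔼 ‖∑ ± x_i‖ ^ 2) ^ (1/2)` over all choices of signs. -/
noncomputable def radMean {X : Type*} [NormedAddCommGroup X] {n : ℕ} (x : Fin n → X) : ℝ :=
  Real.sqrt ((∑ s : Fin n → Bool, ‖∑ i, (if s i then x i else -x i)‖ ^ 2) / 2 ^ n)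

/-- Type `p`: `(𝔼 ‖∑ ± x_i‖ ^ 2) ^ (1/2) ≤ C (∑ ‖x_i‖ ^ p) ^ (1/p)`. -/
def HasType (X : Type*) [NormedAddCommGroup X] (p : ℝ) : Prop :=
  ∃ C : ℝ, ∀ (n : ℕ) (x : Fin n → X), radMean x ≤ C * (∑ i, ‖x i‖ ^ p) ^ (1 / p)

/-- Cotype `q` (for finite `q`): `(∑ ‖x_i‖ ^ q) ^ (1/q) ≤ C (𝔼 ‖∑ ± x_i‖ ^ 2) ^ (1/2)`. -/
def HasCotype (X : Type*) [NormedAddCommGroup X] (q : ℝ) : Prop :=
  ∃ C : ℝ, ∀ (n : ℕ) (x : Fin n → X), (∑ i, ‖x i‖ ^ q) ^ (1 / q) ≤ C * radMean x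

/-- `X` is near Hilbert: it has type `p` and cotype `q` for all `1 ≤ p < 2 < q < ∞`
(every space has cotype `∞`). -/
def NearHilbert (X : Type*) [NormedAddCommGroup X] : Prop :=
  (∀ p : ℝ, 1 ≤ p → p < 2 → HasType X p) ∧ (∀ q : ℝ, 2 < q → HasCotype X q)

/-- `X` is Hilbertian: it is isomorphic (as a topological vector space) to a Hilbert space. -/
def Hilbertian (𝕜 : Type*) [RCLike 𝕜] (X : Type u) [NormedAddCommGroup X] [NormedSpace 𝕜 X] :
    Prop :=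
  ∃ (H : Type u) (_ : NormedAddCommGroup H) (_ : InnerProductSpace 𝕜 H) (_ : CompleteSpace H),
    Nonempty (X ≃L[𝕜] H)

/-- `X` is asymptotically Hilbertian: there is a constant `K` such that for every `n` there is a
closed subspace `Y` of finite codimension all of whose `n`-dimensional subspaces `E` have
Banach–Mazur distance at most `K` to the `n`-dimensional Hilbert space. -/
def AsymptoticallyHilbertian (𝕜 : Type*) [RCLike 𝕜] (X : Type*) [NormedAddCommGroup X]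
    [NormedSpace 𝕜 X] : Prop :=
  ∃ K : ℝ, ∀ n : ℕ, ∃ Y : Submodule 𝕜 X, IsClosed (Y : Set X) ∧ FiniteDimensional 𝕜 (X ⧸ Y) ∧
    ∀ E : Submodule 𝕜 X, E ≤ Y → FiniteDimensional 𝕜 E → Module.finrank 𝕜 E = n →
      ∃ T : E ≃L[𝕜] EuclideanSpace 𝕜 (Fin n),
        ‖(T : E →L[𝕜] EuclideanSpace 𝕜 (Fin n))‖ *
          ‖(T.symm : EuclideanSpace 𝕜 (Fin n) →L[𝕜] E)‖ ≤ K

end Pool.Agent.H88.MO
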