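import Pool.Agent.H88.MO.Limit

namespace Pool.Agent.H88.MO

open Filter Topology

variable {𝕜 : Type*} [RCLike 𝕜] {ι : Type*} {M : ι → ℝ → ℝ}
variable {X : Type*} [NormedAddCommGroup X] [NormedSpace 𝕜 X] {e : ι → X}
variable {u : ℕ → ι →₀ 𝕜} {N : ℝ → ℝ}

/-- `max 1 ⌊x⌋` is at least `x / 2` -/
theorem two_max_floor {x : ℝ} : x < 2 * (max 1 ⌊x⌋₊ : ℕ) := by
  have h1 : x < ⌊x⌋₊ + 1 := Nat.lt_floor_add_one x
  have h2 : ((1 : ℕ) : ℝ) ≤ ((max 1 ⌊x⌋₊ : ℕ) : ℝ) := by exact_mod_cast le_max_left _ _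
  have h3 : ((⌊x⌋₊ : ℕ) : ℝ) ≤ ((max 1 ⌊x⌋₊ : ℕ) : ℝ) := by exact_mod_cast le_max_right _ _
  push_cast at h2 ⊢
  push_cast at h3
  linarith

theorem max_floor_cases {x : ℝ} (hx : 0 ≤ x) :
    max 1 ⌊x⌋₊ = 1 ∨ ((max 1 ⌊x⌋₊ : ℕ) : ℝ) ≤ x := by
  rcases le_total 1 ⌊x⌋₊ with h | h
  · right
    rw [max_eq_right h]
    exact Nat.floor_le hx
  · left
    exact max_eq_left h

/-- the function of a double sum of scaled copies -/
theorem phi_double (h : IsMusielakOrlicz 𝕜 M e) {K n : ℕ} {f : Fin K × Fin n → ι →₀ 𝕜}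
    (hf : Disj f) {a t : ℝ} (ha : 0 ≤ a) (ht : 0 ≤ t) (s : ℝ) :
    phi M (∑ k, (t : 𝕜) • ∑ j, (a : 𝕜) • f (k, j)) s = ∑ k, ∑ j, phi M (f (k, j)) (s * t * a) := by
  have hd : Disj fun x : Fin K × Fin n => (a : 𝕜) • f x := hf.smul fun _ => (a : 𝕜)
  rw [phi_sum]
  · refine Finset.sum_congr rfl fun k _ => ?_
    rw [phi_real_smul h.orlicz ht, phi_sum]
    · refine Finset.sum_congr rfl fun j _ => ?_
      rw [phi_real_smul h.orlicz ha]
    · intro i _ j _ hij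
      exact hd (by simp [hij])
  · intro i _ j _ hij
    exact (hd.sumProd.smul fun _ => (t : 𝕜)) hij

theorem growth_type (h : IsMusielakOrlicz 𝕜 M e) (hL : LimitOf M e u N) {p C : ℝ} (hp : 1 ≤ p)
    (hC : ∀ (n : ℕ) (x : Fin n → X), radMean x ≤ C * (∑ i, ‖x i‖ ^ p) ^ (1 / p)) (hC1 : 1 ≤ C)
    {a t : ℝ} (ha : 0 < a) (ha1 : a ≤ 1) (ht : 0 < t) (ht1 : t ≤ 1) :
    N (t * a) ≤ 8 * (C ^ p * t ^ p) * N a := by
  have hC0 : 0 < C := by linarith
  have hCp : 0 < C ^ p := Real.rpow_pos_of_pos hC0 p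
  have htp : 0 < t ^ p := Real.rpow_pos_of_pos ht p
  by_contra hcon
  push Not at hcon
  have hNa : 0 ≤ N a := hL.nonneg h ha.le ha1
  have hta : 0 < t * a := by positivity
  have hta1 : t * a ≤ 1 := mul_le_one₀ ht1 ha.le ha1
  rcases eq_or_lt_of_le hNa with h0 | hθ
  · have := hL.scale h ht.le ht1 ha.le ha1
    rw [← h0] at this hcon
    simp at this hcon
    linarith
  -- numbers of copies
  set n : ℕ := max 1 ⌊1 / (2 * N a)⌋₊ with hn
  set K : ℕ := max 1 ⌊1 / (C ^ p * t ^ p)⌋₊ with hK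
  have hn1 : 1 ≤ n := le_max_left _ _
  have hK1 : 1 ≤ K := le_max_left _ _
  have hn0 : (0 : ℝ) < n := by exact_mod_cast hn1
  have hK0 : (0 : ℝ) < K := by exact_mod_cast hK1
  have hn2 : 1 / (2 * N a) < 2 * (n : ℝ) := two_max_floor
  have hK2 : 1 / (C ^ p * t ^ p) < 2 * (K : ℝ) := two_max_floor
  have hn3 : 1 < 4 * (n * N a) := by
    rw [div_lt_iff₀ (by positivity)] at hn2
    linarith
  have hK3 : 1 < 2 * (K * (C ^ p * t ^ p)) := by
    rw [div_lt_iff₀ (by positivity)] at hK2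
    linarith
  have hbig : 1 < K * n * N (t * a) := by
    have h1 : 1 < (4 * (n * N a)) * (2 * (K * (C ^ p * t ^ p))) := by nlinarith
    have h2 : K * n * (8 * (C ^ p * t ^ p) * N a) < K * n * N (t * a) :=
      mul_lt_mul_of_pos_left hcon (by positivity)
    linarith
  -- good indices
  have hlow : 1 / (K * n) < N (t * a) := by
    rw [div_lt_iff₀ (by positivity)]; linarith
  have hev : ∀ᶠ i in (hyperfilter ℕ : Filter ℕ),
      1 / (K * n) < phi M (u i) (t * a) ∧ phi M (u i) a < 2 * N a :=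
    ((hL.lim _ hta.le hta1).eventually_const_lt hlow).and
      ((hL.lim _ ha.le ha1).eventually_lt_const (by linarith))
  obtain ⟨f, hfi, hf⟩ := exists_inj (τ := Fin K × Fin n) (infinite_of_eventually hev)
  have hd : Disj fun x : Fin K × Fin n => u (f x) := hL.disj.comp hfi
  have hda : Disj fun x : Fin K × Fin n => (a : 𝕜) • u (f x) := hd.smul fun _ => (a : 𝕜)
  have hdk : Disj fun k : Fin K => (t : 𝕜) • ∑ j, (a : 𝕜) • u (f (k, j)) :=
    hda.sumProd.smul fun _ => (t : 𝕜)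
  -- each block has norm at most one
  have hv : ∀ k : Fin K, ‖J e (∑ j, (a : 𝕜) • u (f (k, j)))‖ ≤ 1 := by
    intro k
    rw [norm_le_one_iff h, phi_sum]
    · simp only [phi_real_smul h.orlicz ha.le, one_mul]
      rcases max_floor_cases (x := 1 / (2 * N a)) (by positivity) with h1 | h1
      · have h1' : n = 1 := h1
        calc ∑ j, phi M (u (f (k, j))) a ≤ ∑ _j : Fin n, (1 : ℝ) :=
              Finset.sum_le_sum fun j _ => phi_le_one h (hL.norm _) ha.le ha1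
          _ = 1 := by simp [h1']
      · have h1' : (n : ℝ) ≤ 1 / (2 * N a) := h1
        calc ∑ j, phi M (u (f (k, j))) a ≤ ∑ _j : Fin n, (2 * N a) :=
              Finset.sum_le_sum fun j _ => (hf (k, j)).2.le
          _ = n * (2 * N a) := by simp
          _ ≤ 1 := by rwa [le_div_iff₀ (by positivity)] at h1'
    · intro i _ j _ hij
      exact hda (by simp [hij])
  have hx : ∀ k : Fin K, ‖J e ((t : 𝕜) • ∑ j, (a : 𝕜) • u (f (k, j)))‖ ≤ t := by
    intro k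
    rw [norm_real_smul ht.le]
    exact mul_le_of_le_one_right ht.le (hv k)
  have hsum : ‖J e (∑ k, (t : 𝕜) • ∑ j, (a : 𝕜) • u (f (k, j)))‖ ≤ 1 := by
    rcases max_floor_cases (x := 1 / (C ^ p * t ^ p)) (by positivity) with h1 | h1
    · have h1' : K = 1 := h1
      rw [J, map_sum]
      refine (norm_sum_le _ _).trans ?_
      calc ∑ k, ‖J e ((t : 𝕜) • ∑ j, (a : 𝕜) • u (f (k, j)))‖ ≤ ∑ _k : Fin K, t :=
            Finset.sum_le_sum fun k _ => hx k
        _ = t := by simp [h1']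
        _ ≤ 1 := ht1
    · have h1' : (K : ℝ) ≤ 1 / (C ^ p * t ^ p) := h1
      refine type_disj h hp hC hC0 hdk ht.le hx ?_
      rw [le_div_iff₀ (by positivity)] at h1'
      linarith
  rw [norm_le_one_iff h, phi_double h hd ha.le ht.le] at hsum
  have hlt : (1 : ℝ) < ∑ k : Fin K, ∑ j : Fin n, phi M (u (f (k, j))) (1 * t * a) := by
    have : Nonempty (Fin K × Fin n) := ⟨(⟨0, hK1⟩, ⟨0, hn1⟩)⟩
    rw [← Finset.sum_product']
    calc (1 : ℝ) = ∑ _x : Fin K × Fin n, 1 / ((K : ℝ) * n) := by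
          rw [Finset.sum_const, Finset.card_univ]
          simp only [Fintype.card_prod, Fintype.card_fin, nsmul_eq_mul, Nat.cast_mul]
          field_simp
      _ < _ := by
          refine Finset.sum_lt_sum_of_nonempty Finset.univ_nonempty fun x _ => ?_
          rw [one_mul]
          exact (hf x).1
  linarith

theorem growth_cotype (h : IsMusielakOrlicz 𝕜 M e) (hL : LimitOf M e u N) {q C : ℝ} (hq : 1 ≤ q)
    (hC : ∀ (n : ℕ) (x : Fin n → X), (∑ i, ‖x i‖ ^ q) ^ (1 / q) ≤ C * radMean x) (hC1 : 1 ≤ C)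
    {a t : ℝ} (ha : 0 < a) (ha1 : a ≤ 1) (ht : 0 < t) (ht1 : t ≤ 1) :
    N a * t ^ q ≤ 6 * C ^ q * N (t * a) := by
  have hC0 : 0 < C := by linarith
  have hCp : 0 < C ^ q := Real.rpow_pos_of_pos hC0 q
  have htp : 0 < t ^ q := Real.rpow_pos_of_pos ht q
  by_contra hcon
  push Not at hcon
  have hNa : 0 ≤ N a := hL.nonneg h ha.le ha1
  have hta : 0 < t * a := by positivity
  have hta1 : t * a ≤ 1 := mul_le_one₀ ht1 ha.le ha1
  have hNta : 0 ≤ N (t * a) := hL.nonneg h hta.le hta1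
  rcases eq_or_lt_of_le hNa with h0 | hθ
  · rw [← h0, zero_mul] at hcon
    have : 0 ≤ 6 * C ^ q * N (t * a) := by positivity
    linarith
  have hNa1 : N a ≤ 1 := (hL.le_self h ha.le ha1).trans ha1
  set n : ℕ := ⌈2 / N a⌉₊ with hn
  set K : ℕ := ⌈C ^ q / t ^ q⌉₊ with hK
  have hn1 : 1 ≤ n := Nat.one_le_iff_ne_zero.2 (by
    rw [hn]; exact (Nat.ceil_pos.2 (by positivity)).ne')
  have hK1 : 1 ≤ K := Nat.one_le_iff_ne_zero.2 (by
    rw [hK]; exact (Nat.ceil_pos.2 (by positivity)).ne')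
  have hn0 : (0 : ℝ) < n := by exact_mod_cast hn1
  have hK0 : (0 : ℝ) < K := by exact_mod_cast hK1
  have hn2 : 2 / N a ≤ n := Nat.le_ceil _
  have hK2 : C ^ q / t ^ q ≤ K := Nat.le_ceil _
  have hn3 : (n : ℝ) ≤ 3 / N a := by
    have h1 : (n : ℝ) < 2 / N a + 1 := Nat.ceil_lt_add_one (by positivity)
    have h2 : 1 ≤ 1 / N a := by rw [le_div_iff₀ hθ]; linarith
    have h3 : 3 / N a = 2 / N a + 1 / N a := by ring
    linarith
  have hK3 : (K : ℝ) ≤ 2 * (C ^ q / t ^ q) := by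
    have h1 : (K : ℝ) < C ^ q / t ^ q + 1 := Nat.ceil_lt_add_one (by positivity)
    have h2 : 1 ≤ C ^ q / t ^ q := by
      rw [le_div_iff₀ htp, one_mul]
      calc t ^ q ≤ 1 := Real.rpow_le_one ht.le ht1 (by linarith)
        _ ≤ C ^ q := Real.one_le_rpow hC1 (by linarith)
    linarith
  have hsmall : K * n * N (t * a) < 1 := by
    have h1 : N (t * a) < N a * t ^ q / (6 * C ^ q) := by
      rw [lt_div_iff₀ (by positivity)]; linarith
    calc K * n * N (t * a) < K * n * (N a * t ^ q / (6 * C ^ q)) :=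
          mul_lt_mul_of_pos_left h1 (by positivity)
      _ ≤ (2 * (C ^ q / t ^ q)) * (3 / N a) * (N a * t ^ q / (6 * C ^ q)) := by gcongr
      _ = 1 := by field_simp; norm_num
  have hup : N (t * a) < 1 / (K * n) := by
    rw [lt_div_iff₀ (by positivity)]; linarith
  have hev : ∀ᶠ i in (hyperfilter ℕ : Filter ℕ),
      phi M (u i) (t * a) < 1 / (K * n) ∧ N a / 2 < phi M (u i) a :=
    ((hL.lim _ hta.le hta1).eventually_lt_const hup).and
      ((hL.lim _ ha.le ha1).eventually_const_lt (by linarith))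
  obtain ⟨f, hfi, hf⟩ := exists_inj (τ := Fin K × Fin n) (infinite_of_eventually hev)
  have hd : Disj fun x : Fin K × Fin n => u (f x) := hL.disj.comp hfi
  have hda : Disj fun x : Fin K × Fin n => (a : 𝕜) • u (f x) := hd.smul fun _ => (a : 𝕜)
  have hdk : Disj fun k : Fin K => (t : 𝕜) • ∑ j, (a : 𝕜) • u (f (k, j)) :=
    hda.sumProd.smul fun _ => (t : 𝕜)
  have hv : ∀ k : Fin K, 1 ≤ ‖J e (∑ j, (a : 𝕜) • u (f (k, j)))‖ := by
    intro k
    rw [one_le_norm_iff h, phi_sum]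
    · simp only [phi_real_smul h.orlicz ha.le, one_mul]
      calc (1 : ℝ) ≤ n * (N a / 2) := by
            rw [div_le_iff₀ hθ] at hn2; linarith
        _ = ∑ _j : Fin n, (N a / 2) := by simp
        _ ≤ ∑ j, phi M (u (f (k, j))) a := Finset.sum_le_sum fun j _ => (hf (k, j)).2.le
    · intro i _ j _ hij
      exact hda (by simp [hij])
  have hx : ∀ k : Fin K, t ≤ ‖J e ((t : 𝕜) • ∑ j, (a : 𝕜) • u (f (k, j)))‖ := by
    intro k
    rw [norm_real_smul ht.le]
    exact le_mul_of_one_le_right ht.le (hv k)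
  have hsum : 1 ≤ ‖J e (∑ k, (t : 𝕜) • ∑ j, (a : 𝕜) • u (f (k, j)))‖ := by
    refine cotype_disj h hq hC hC0 hdk ht.le hx ?_
    rwa [div_le_iff₀ htp] at hK2
  rw [one_le_norm_iff h, phi_double h hd ha.le ht.le] at hsum
  have hlt : ∑ k : Fin K, ∑ j : Fin n, phi M (u (f (k, j))) (1 * t * a) < 1 := by
    have : Nonempty (Fin K × Fin n) := ⟨(⟨0, hK1⟩, ⟨0, hn1⟩)⟩
    rw [← Finset.sum_product']
    calc _ < ∑ _x : Fin K × Fin n, 1 / ((K : ℝ) * n) := by
          refine Finset.sum_lt_sum_of_nonempty Finset.univ_nonempty fun x _ => ?_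
          rw [one_mul]
          exact (hf x).1
      _ = 1 := by
          rw [Finset.sum_const, Finset.card_univ]
          simp only [Fintype.card_prod, Fintype.card_fin, nsmul_eq_mul, Nat.cast_mul]
          field_simp
  linarith

/-- **Growth of limit functions.** For each `γ > 1` there is a constant `A` such that for all limit
functions of normalised disjoint sequences the function `4 ^ k N (2 ^ (-k) a)` of `k` grows and
decays at most like `A γ ^ k`. -/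
theorem growth (h : IsMusielakOrlicz 𝕜 M e) (hX : NearHilbert X) {γ : ℝ} (hγ : 1 < γ)
    (hγ2 : γ ≤ 2) : ∃ A : ℝ, 1 ≤ A ∧ ∀ (u : ℕ → ι →₀ 𝕜) (N : ℝ → ℝ), LimitOf M e u N →
      ∀ (a : ℝ) (k : ℕ), 0 ≤ a → a ≤ 1 → 4 ^ k * N (a / 2 ^ k) ≤ A * γ ^ k * N a ∧
        N a ≤ A * γ ^ k * (4 ^ k * N (a / 2 ^ k)) := by
  set δ : ℝ := Real.logb 2 γ with hδ
  have hδ0 : 0 < δ := Real.logb_pos (by norm_num) hγ
  have hδ1 : δ ≤ 1 := by
    rw [hδ, Real.logb_le_iff_le_rpow (by norm_num) (by linarith), Real.rpow_one]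
    exact hγ2
  have h2δ : (2 : ℝ) ^ δ = γ := Real.rpow_logb (by norm_num) (by norm_num) (by linarith)
  obtain ⟨C, hC1, hC⟩ := (hX.1 (2 - δ) (by linarith) (by linarith)).pos_const
  obtain ⟨D, hD1, hD⟩ := (hX.2 (2 + δ) (by linarith)).pos_const
  have hC0 : 0 < C := by linarith
  have hD0 : 0 < D := by linarith
  have hγ0 : 0 < γ := by linarith
  have hCp : 1 ≤ C ^ (2 - δ) := Real.one_le_rpow hC1 (by linarith)
  have hDp : 1 ≤ D ^ (2 + δ) := Real.one_le_rpow hD1 (by linarith)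
  refine ⟨8 * C ^ (2 - δ) + 6 * D ^ (2 + δ), by linarith, ?_⟩
  intro u N hL a k ha0 ha1
  have hNa := hL.nonneg h ha0 ha1
  have hN0 : N 0 = 0 := by
    have h1 := hL.scale h (s := 0) (t := 1) le_rfl zero_le_one zero_le_one le_rfl
    have h2 := hL.nonneg h (t := 0) le_rfl zero_le_one
    simp at h1
    linarith
  rcases eq_or_lt_of_le ha0 with h0 | ha
  · rw [← h0]; simp [hN0]
  have hk : (0 : ℝ) < (2 ^ k)⁻¹ := by positivity
  have hk1 : ((2 : ℝ) ^ k)⁻¹ ≤ 1 := inv_le_one_of_one_le₀ (one_le_pow₀ (by norm_num))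
  have hak : a / 2 ^ k = (2 ^ k)⁻¹ * a := by rw [div_eq_inv_mul]
  have hpow : ∀ s : ℝ, (((2 : ℝ) ^ k)⁻¹) ^ s = ((2 : ℝ) ^ s)⁻¹ ^ k := by
    intro s
    rw [Real.inv_rpow (by positivity), ← Real.rpow_natCast 2 k, ← Real.rpow_mul (by norm_num),
      mul_comm, Real.rpow_mul (by norm_num), Real.rpow_natCast, inv_pow]
  have hp1 : (2 : ℝ) ^ (2 - δ) = 4 / γ := by
    rw [Real.rpow_sub (by norm_num), h2δ]; norm_num
  have hp2 : (2 : ℝ) ^ (2 + δ) = 4 * γ := by
    rw [Real.rpow_add (by norm_num), h2δ]; norm_num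
  constructor
  · have h1 := growth_type h hL (by linarith) hC hC1 ha ha1 hk hk1
    rw [hpow, hp1, inv_div, div_pow] at h1
    rw [hak]
    have h2 : 4 ^ k * N ((2 ^ k)⁻¹ * a) ≤ 8 * C ^ (2 - δ) * γ ^ k * N a := by
      calc 4 ^ k * N ((2 ^ k)⁻¹ * a) ≤ 4 ^ k * (8 * (C ^ (2 - δ) * (γ ^ k / 4 ^ k)) * N a) := by
            gcongr
        _ = _ := by field_simp
    refine h2.trans ?_
    gcongr
    linarith
  · have h1 := growth_cotype h hL (by linarith) hD hD1 ha ha1 hk hk1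
    rw [hpow, hp2, inv_pow, mul_pow] at h1
    rw [hak]
    have hNk : 0 ≤ N ((2 ^ k)⁻¹ * a) :=
      hL.nonneg h (by positivity) (mul_le_one₀ hk1 ha.le ha1)
    have h2 : N a ≤ 6 * D ^ (2 + δ) * γ ^ k * (4 ^ k * N ((2 ^ k)⁻¹ * a)) := by
      calc N a = (N a * (4 ^ k * γ ^ k)⁻¹) * (4 ^ k * γ ^ k) := by field_simp
        _ ≤ (6 * D ^ (2 + δ) * N ((2 ^ k)⁻¹ * a)) * (4 ^ k * γ ^ k) := by gcongr
        _ = _ := by ring
    refine h2.trans ?_
    gcongr
    linarith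

end Pool.Agent.H88.MO
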