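import Pool.Agent.H88.MO.Types

namespace Pool.Agent.H88.MO

open Filter Topology

variable {𝕜 : Type*} [RCLike 𝕜] {ι : Type*} {M : ι → ℝ → ℝ}
variable {X : Type*} [NormedAddCommGroup X] [NormedSpace 𝕜 X] {e : ι → X}

/-- `N` is the limit along a free ultrafilter of the functions of a normalised disjoint sequence. -/
structure LimitOf (M : ι → ℝ → ℝ) (e : ι → X) (u : ℕ → ι →₀ 𝕜) (N : ℝ → ℝ) : Prop where
  disj : Disj u
  norm : ∀ i, ‖J e (u i)‖ = 1
  lim : ∀ t, 0 ≤ t → t ≤ 1 → Tendsto (fun i => phi M (u i) t) (hyperfilter ℕ) (𝓝 (N t))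

theorem phi_one (h : IsMusielakOrlicz 𝕜 M e) {c : ι →₀ 𝕜} (hc : ‖J e c‖ = 1) : phi M c 1 = 1 :=
  (norm_eq_one_iff h c).1 hc

theorem phi_le_one (h : IsMusielakOrlicz 𝕜 M e) {c : ι →₀ 𝕜} (hc : ‖J e c‖ = 1) {t : ℝ}
    (ht : 0 ≤ t) (ht1 : t ≤ 1) : phi M c t ≤ 1 :=
  (phi_mono h.orlicz c ht ht1).trans (phi_one h hc).le

theorem exists_limit (h : IsMusielakOrlicz 𝕜 M e) {u : ℕ → ι →₀ 𝕜} (hu : Disj u)
    (hn : ∀ i, ‖J e (u i)‖ = 1) : ∃ N : ℝ → ℝ, LimitOf M e u N := by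
  have key : ∀ t : ℝ, ∃ x : ℝ, 0 ≤ t → t ≤ 1 →
      Tendsto (fun i => phi M (u i) t) (hyperfilter ℕ) (𝓝 x) := by
    intro t
    by_cases ht : 0 ≤ t ∧ t ≤ 1
    · have hle : ((hyperfilter ℕ).map (fun i => phi M (u i) t) : Filter ℝ) ≤
          𝓟 (Set.Icc (0 : ℝ) 1) := by
        rw [le_principal_iff]
        exact Filter.mem_map.2 (Filter.univ_mem' fun i =>
          ⟨phi_nonneg h.orlicz _ ht.1, phi_le_one h (hn i) ht.1 ht.2⟩)
      obtain ⟨x, _, hx⟩ := isCompact_Icc.ultrafilter_le_nhds _ hle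
      exact ⟨x, fun _ _ => hx⟩
    · exact ⟨0, fun h1 h2 => absurd ⟨h1, h2⟩ ht⟩
  choose N hN using key
  exact ⟨N, hu, hn, hN⟩

section props

variable {u : ℕ → ι →₀ 𝕜} {N : ℝ → ℝ}

theorem LimitOf.nonneg (h : IsMusielakOrlicz 𝕜 M e) (hL : LimitOf M e u N) {t : ℝ}
    (ht : 0 ≤ t) (ht1 : t ≤ 1) : 0 ≤ N t :=
  ge_of_tendsto (hL.lim t ht ht1) (Eventually.of_forall fun _ => phi_nonneg h.orlicz _ ht)

theorem LimitOf.one (h : IsMusielakOrlicz 𝕜 M e) (hL : LimitOf M e u N) : N 1 = 1 := by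
  have h1 := hL.lim 1 zero_le_one le_rfl
  have h2 : (fun i => phi M (u i) 1) = fun _ => (1 : ℝ) := by
    funext i; exact phi_one h (hL.norm i)
  rw [h2] at h1
  exact tendsto_nhds_unique h1 tendsto_const_nhds

theorem LimitOf.scale (h : IsMusielakOrlicz 𝕜 M e) (hL : LimitOf M e u N) {s t : ℝ}
    (hs : 0 ≤ s) (hs1 : s ≤ 1) (ht : 0 ≤ t) (ht1 : t ≤ 1) : N (s * t) ≤ s * N t := by
  refine le_of_tendsto_of_tendsto (hL.lim (s * t) (by positivity)
    (mul_le_one₀ hs1 ht ht1)) ((hL.lim t ht ht1).const_mul s) ?_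
  exact Eventually.of_forall fun i => phi_scale h.orlicz _ hs hs1 ht

theorem LimitOf.mono (h : IsMusielakOrlicz 𝕜 M e) (hL : LimitOf M e u N) {s t : ℝ}
    (hs : 0 ≤ s) (hst : s ≤ t) (ht1 : t ≤ 1) : N s ≤ N t :=
  le_of_tendsto_of_tendsto (hL.lim s hs (hst.trans ht1)) (hL.lim t (hs.trans hst) ht1)
    (Eventually.of_forall fun _ => phi_mono h.orlicz _ hs hst)

theorem LimitOf.le_self (h : IsMusielakOrlicz 𝕜 M e) (hL : LimitOf M e u N) {t : ℝ}
    (ht : 0 ≤ t) (ht1 : t ≤ 1) : N t ≤ t := by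
  have := hL.scale h ht ht1 zero_le_one le_rfl
  rwa [mul_one, hL.one h, mul_one] at this

theorem phi_lip (h : IsMusielakOrlicz 𝕜 M e) {c : ι →₀ 𝕜} (hc : ‖J e c‖ = 1) {x y : ℝ}
    (hx : 0 ≤ x) (hxy : x ≤ y) (hy : y ≤ 1 / 2) : phi M c y - phi M c x ≤ 2 * (y - x) := by
  have h1 := phi_one h hc
  have hx1 : 0 < 1 - x := by linarith
  have hconv := (phi_convex h.orlicz c).2 (show x ∈ Set.Ici (0 : ℝ) from hx)
    (show (1 : ℝ) ∈ Set.Ici (0 : ℝ) by simp) (show 0 ≤ (1 - y) / (1 - x) by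
      apply div_nonneg <;> linarith) (show 0 ≤ (y - x) / (1 - x) by
      apply div_nonneg <;> linarith) (by rw [← add_div]; rw [div_eq_one_iff_eq hx1.ne']; ring)
  have harg : (1 - y) / (1 - x) * x + (y - x) / (1 - x) * 1 = y := by
    field_simp
    ring
  simp only [smul_eq_mul] at hconv
  rw [harg, h1, mul_one] at hconv
  have h2 : phi M c y * (1 - x) ≤ (1 - y) * phi M c x + (y - x) := by
    have := mul_le_mul_of_nonneg_right hconv hx1.le
    calc phi M c y * (1 - x) ≤ _ := this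
      _ = (1 - y) * phi M c x + (y - x) := by field_simp
  have h3 := phi_nonneg h.orlicz c hx
  have h4 : phi M c x ≤ phi M c y := phi_mono h.orlicz c hx hxy
  nlinarith

theorem LimitOf.lip (h : IsMusielakOrlicz 𝕜 M e) (hL : LimitOf M e u N) {x y : ℝ}
    (hx : 0 ≤ x) (hxy : x ≤ y) (hy : y ≤ 1 / 2) : N y - N x ≤ 2 * (y - x) :=
  le_of_tendsto ((hL.lim y (hx.trans hxy) (by linarith)).sub (hL.lim x hx (by linarith)))
    (Eventually.of_forall fun i => phi_lip h (hL.norm i) hx hxy hy)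

/-- uniform convergence on `[0, 1/2]` -/
theorem LimitOf.uniform (h : IsMusielakOrlicz 𝕜 M e) (hL : LimitOf M e u N) {δ : ℝ}
    (hδ : 0 < δ) : ∀ᶠ i in (hyperfilter ℕ : Filter ℕ), ∀ x, 0 ≤ x → x ≤ 1 / 2 →
      |phi M (u i) x - N x| ≤ δ := by
  obtain ⟨G, hG⟩ := exists_nat_gt (4 / δ)
  have hG0 : (0 : ℝ) < G := lt_trans (by positivity) hG
  have hev : ∀ᶠ i in (hyperfilter ℕ : Filter ℕ), ∀ k ∈ Finset.range (G + 1),
      |phi M (u i) (k / (2 * G)) - N (k / (2 * G))| < δ / 2 := by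
    rw [Filter.eventually_all_finset]
    intro k hk
    have hk' : (k : ℝ) ≤ G := by exact_mod_cast Nat.lt_succ_iff.1 (Finset.mem_range.1 hk)
    have h1 := hL.lim (k / (2 * G)) (by positivity) (by
      rw [div_le_one (by positivity)]; linarith)
    have h2 := Metric.tendsto_nhds.1 h1 (δ / 2) (by positivity)
    filter_upwards [h2] with i hi
    rwa [Real.dist_eq] at hi
  filter_upwards [hev] with i hi x hx0 hx1
  set k := ⌊x * (2 * G)⌋₊ with hk
  have hkx : (k : ℝ) ≤ x * (2 * G) := Nat.floor_le (by positivity)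
  have hxk : x * (2 * G) < k + 1 := Nat.lt_floor_add_one _
  have hkG : k ≤ G := by
    have : (k : ℝ) ≤ G := hkx.trans (by nlinarith)
    exact_mod_cast this
  have h1 := hi k (Finset.mem_range.2 (by omega))
  have hg0 : (0 : ℝ) ≤ k / (2 * G) := by positivity
  have hgx : (k : ℝ) / (2 * G) ≤ x := by rw [div_le_iff₀ (by positivity)]; exact hkx
  have h2 := phi_lip h (hL.norm i) hg0 hgx hx1
  have h3 := hL.lip h hg0 hgx hx1
  have h4 := phi_mono h.orlicz (u i) hg0 hgx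
  have h5 := hL.mono h hg0 hgx (by linarith)
  have h6 : 2 * (x - k / (2 * G)) ≤ δ / 2 := by
    have : x - k / (2 * G) ≤ 1 / (2 * G) := by
      rw [sub_le_iff_le_add, ← add_div, le_div_iff₀ (by positivity)]
      linarith
    have h7 : 1 / (2 * (G : ℝ)) ≤ δ / 8 := by
      rw [div_lt_iff₀ hδ] at hG
      rw [div_le_iff₀ (by positivity)]
      nlinarith
    linarith
  rw [abs_lt] at h1
  rw [abs_le]
  constructor <;> linarith

theorem infinite_of_eventually {P : ℕ → Prop} (h : ∀ᶠ i in (hyperfilter ℕ : Filter ℕ), P i) :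
    {i | P i}.Infinite := by
  have h1 : ∃ᶠ i in (hyperfilter ℕ : Filter ℕ), P i := h.frequently
  have h2 : ∃ᶠ i in (cofinite : Filter ℕ), P i := h1.filter_mono hyperfilter_le_cofinite
  exact Filter.frequently_cofinite_iff_infinite.1 h2

theorem exists_inj {τ : Type*} [Finite τ] {I : Set ℕ} (hI : I.Infinite) :
    ∃ f : τ → ℕ, Function.Injective f ∧ ∀ x, f x ∈ I := by
  have := Fintype.ofFinite τ
  let g := hI.natEmbedding I
  refine ⟨fun x => (g (Fintype.equivFin τ x : ℕ) : ℕ), ?_, fun x => (g _).2⟩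
  intro x y hxy
  have h1 := g.injective (Subtype.ext hxy)
  exact (Fintype.equivFin τ).injective (Fin.ext h1)

/-- only finitely many members of a disjoint sequence meet a finite set -/
theorem Disj.finite_meet {u : ℕ → ι →₀ 𝕜} (hu : Disj u) (F : Finset ι) :
    {i | ¬ Disjoint (u i).support F}.Finite := by
  classical
  have hsub : {i | ¬ Disjoint (u i).support F} ⊆ ⋃ k ∈ F, {i | k ∈ (u i).support} := by
    intro i hi
    have hi' : ¬ Disjoint (u i).support F := hi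
    rw [Finset.not_disjoint_iff] at hi'
    obtain ⟨k, hk1, hk2⟩ := hi'
    exact Set.mem_biUnion hk2 hk1
  refine Set.Finite.subset ?_ hsub
  refine Set.Finite.biUnion F.finite_toSet fun k _ => ?_
  refine Set.Subsingleton.finite ?_
  intro i hi j hj
  by_contra hij
  exact Finset.disjoint_left.1 (hu hij) hi hj

theorem phi_real_smul (hM : ∀ i, Orlicz (M i)) {a : ℝ} (ha : 0 ≤ a) (c : ι →₀ 𝕜) (t : ℝ) :
    phi M ((a : 𝕜) • c) t = phi M c (t * a) := by
  rw [phi_smul hM, RCLike.norm_ofReal, abs_of_nonneg ha]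

theorem norm_real_smul {a : ℝ} (ha : 0 ≤ a) (c : ι →₀ 𝕜) :
    ‖J e ((a : 𝕜) • c)‖ = a * ‖J e c‖ := by
  rw [J, map_smul, norm_smul, RCLike.norm_ofReal, abs_of_nonneg ha]

theorem Disj.comp {κ κ' : Type*} {u : κ → ι →₀ 𝕜} (hu : Disj u) {f : κ' → κ}
    (hf : Function.Injective f) : Disj fun i => u (f i) :=
  fun _ _ hij => hu (hf.ne hij)

/-- sums over disjoint index sets of a disjoint family are disjoint -/
theorem Disj.sumProd {α β : Type*} [Fintype β] {u : α × β → ι →₀ 𝕜} (hu : Disj u) :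
    Disj fun a => ∑ b, u (a, b) := by
  classical
  intro a a' haa
  refine Finset.disjoint_of_subset_left Finsupp.support_finsetSum
    (Finset.disjoint_of_subset_right Finsupp.support_finsetSum ?_)
  rw [Finset.disjoint_biUnion_left]
  intro b _
  rw [Finset.disjoint_biUnion_right]
  intro b' _
  exact hu (by simp [haa])

end props

end Pool.Agent.H88.MO
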