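import Pool.Agent.H88.MO.Block

namespace Pool.Agent.H88.MO

open Filter Topology

universe u

variable {𝕜 : Type*} [RCLike 𝕜] {ι : Type*} {M : ι → ℝ → ℝ}
variable {X : Type u} [NormedAddCommGroup X] [NormedSpace 𝕜 X] {e : ι → X}

theorem geom_tail (J0 n : ℕ) :
    ∑ j ∈ Finset.Ico J0 (J0 + n), (1 : ℝ) / 2 ^ (j + 1) = 1 / 2 ^ J0 - 1 / 2 ^ (J0 + n) := by
  induction n with
  | zero => simp
  | succ n ih =>
    rw [← add_assoc, Finset.sum_Ico_succ_top (by omega), ih]
    have : (1 : ℝ) / 2 ^ (J0 + n) = 2 * (1 / 2 ^ (J0 + n + 1)) := by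
      rw [pow_succ]; field_simp
    rw [this]
    ring

/-- The second case: the union of the blocks of all stages. -/
theorem case2 (h : IsMusielakOrlicz 𝕜 M e) (hX : NearHilbert X) (hc : ¬ Case1 𝕜 M e) :
    ∃ (κ : Type) (v : κ → ι →₀ 𝕜), Disj v ∧
      AsymptoticallyHilbertian 𝕜 (blockSpace e v) ∧ ¬ Hilbertian 𝕜 (blockSpace e v) := by
  classical
  have hM := h.orlicz
  have st := fun (j : ℕ) (F : Finset ι) => stage h hX hc (j := j + 1) (by omega) F
  choose m v h1 h2 h3 h4 h5 h6 using st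
  -- the used coordinates
  let used : ℕ → Finset ι := fun n => Nat.rec (motive := fun _ => Finset ι) ∅
    (fun j F => F ∪ Finset.univ.biUnion fun c => (v j F c).support) n
  have hused : ∀ j, used (j + 1) = used j ∪
      Finset.univ.biUnion fun c => (v j (used j) c).support := fun j => rfl
  have hmono : Monotone used := monotone_nat_of_le_succ fun j => by
    rw [hused]; exact Finset.subset_union_left
  let m' : ℕ → ℕ := fun j => m j (used j)
  let V : (Σ j : ℕ, Fin (m' j)) → ι →₀ 𝕜 := fun k => v k.1 (used k.1) k.2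
  have hVsupp : ∀ k, (V k).support ⊆ used (k.1 + 1) := by
    intro k
    rw [hused]
    exact (Finset.subset_biUnion_of_mem (fun c => (v k.1 (used k.1) c).support)
      (Finset.mem_univ k.2)).trans Finset.subset_union_right
  have hlt : ∀ k k' : (Σ j : ℕ, Fin (m' j)), k.1 < k'.1 →
      Disjoint (V k).support (V k').support := by
    intro k k' hkk
    exact (Finset.disjoint_of_subset_right ((hVsupp k).trans (hmono hkk))
      (h3 k'.1 (used k'.1) k'.2)).symm
  have hV : Disj V := by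
    rintro ⟨j, c⟩ ⟨j', c'⟩ hne
    rcases lt_trichotomy j j' with hj | hj | hj
    · exact hlt _ _ hj
    · subst hj
      have hcc : c ≠ c' := by
        rintro rfl; exact hne rfl
      exact h2 j (used j) hcc
    · exact (hlt _ _ hj).symm
  have hVn : ∀ k, 1 ≤ ‖J e (V k)‖ := fun k => h4 k.1 (used k.1) k.2
  have hV0 : ∀ k, V k ≠ 0 := by
    intro k hk
    have := hVn k
    rw [hk] at this
    simp at this
    linarith
  have hblock := block_isMO h hV hV0
  refine ⟨_, V, hV, ?_, ?_⟩
  · -- asymptotically Hilbertian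
    refine Quad.asymptoticallyHilbertian hblock (K := 8) (by norm_num) ?_
    intro S η hη
    obtain ⟨J1, hJ1⟩ := exists_pow_lt_of_lt_one (y := (1 / 2 : ℝ)) hη (by norm_num)
    set J0 := max S J1 with hJ0
    have hJη : (1 : ℝ) / 2 ^ J0 ≤ η := by
      have e1 : (1 : ℝ) / 2 ^ J0 = (1 / 2) ^ J0 := by rw [div_pow, one_pow]
      rw [e1]
      exact (pow_le_pow_of_le_one (by norm_num) (by norm_num) (le_max_right _ _)).trans hJ1.le
    refine ⟨(Finset.range J0).sigma fun _ => Finset.univ, ?_⟩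
    intro y hy hy1 s hs
    have hyJ : ∀ k ∈ y.support, J0 ≤ k.1 := by
      intro k hk
      by_contra hcon
      push Not at hcon
      exact Finset.disjoint_left.1 hy hk
        (Finset.mem_sigma.2 ⟨Finset.mem_range.2 hcon, Finset.mem_univ _⟩)
    have hphi : ∀ t, phi (fun k => phi M (V k)) y t =
        ∑ k ∈ y.support, phi M (V k) (t * ‖y k‖) := fun t => rfl
    have hy01 : ∀ k ∈ y.support, ‖y k‖ ≤ 1 := by
      intro k hk
      have e1 : phi M (V k) ‖y k‖ ≤ 1 := by
        rw [hphi] at hy1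
        simp only [one_mul] at hy1
        exact (Finset.single_le_sum (f := fun k => phi M (V k) ‖y k‖)
          (fun k _ => phi_nonneg hM _ (norm_nonneg _)) hk).trans hy1
      have e2 := (mul_norm_le_one_iff h (V k) (norm_nonneg (y k))).2 e1
      have e3 := hVn k
      have e4 := norm_nonneg (y k)
      nlinarith
    have herr : ∑ k ∈ y.support, (1 : ℝ) / (2 ^ (k.1 + 1) * m' k.1) ≤ η := by
      set n := y.support.sup (fun k => k.1) + 1 with hn
      have hsub : y.support ⊆ (Finset.Ico J0 (J0 + n)).sigma fun _ => Finset.univ := by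
        intro k hk
        have e1 : k.1 ≤ y.support.sup (fun k => k.1) :=
          Finset.le_sup (f := fun k : (Σ j : ℕ, Fin (m' j)) => k.1) hk
        exact Finset.mem_sigma.2 ⟨Finset.mem_Ico.2 ⟨hyJ k hk, by omega⟩, Finset.mem_univ _⟩
      calc ∑ k ∈ y.support, (1 : ℝ) / (2 ^ (k.1 + 1) * m' k.1) ≤
            ∑ k ∈ (Finset.Ico J0 (J0 + n)).sigma fun _ => Finset.univ,
              (1 : ℝ) / (2 ^ (k.1 + 1) * m' k.1) :=
            Finset.sum_le_sum_of_subset_of_nonneg hsub fun k _ _ => by positivity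
        _ = ∑ j ∈ Finset.Ico J0 (J0 + n), (1 : ℝ) / 2 ^ (j + 1) := by
            rw [Finset.sum_sigma]
            refine Finset.sum_congr rfl fun j _ => ?_
            have hm0 : (0 : ℝ) < m' j := by exact_mod_cast h1 j (used j)
            have e1 : ∑ _s : Fin (m' j), (1 : ℝ) / (2 ^ (j + 1) * m' j) = 1 / 2 ^ (j + 1) := by
              rw [Finset.sum_const, Finset.card_univ, Fintype.card_fin, nsmul_eq_mul]
              field_simp
            exact e1
        _ = 1 / 2 ^ J0 - 1 / 2 ^ (J0 + n) := geom_tail J0 n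
        _ ≤ 1 / 2 ^ J0 := by
            have : (0 : ℝ) ≤ 1 / 2 ^ (J0 + n) := by positivity
            linarith
        _ ≤ η := hJη
    rw [hphi, hphi]
    have hsJ : ∀ k ∈ y.support, s ≤ k.1 + 1 := by
      intro k hk
      have := hyJ k hk
      have := le_max_left S J1
      omega
    have hq := fun k (hk : k ∈ y.support) =>
      h5 k.1 (used k.1) k.2 s (hsJ k hk) ‖y k‖ (norm_nonneg _) (hy01 k hk)
    have harg : ∀ k, 1 / 2 ^ s * ‖y k‖ = ‖y k‖ / 2 ^ s := fun k => by ring
    simp only [harg, one_mul]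
    constructor
    · calc 4 ^ s * ∑ k ∈ y.support, phi M (V k) (‖y k‖ / 2 ^ s) =
            ∑ k ∈ y.support, 4 ^ s * phi M (V k) (‖y k‖ / 2 ^ s) := by rw [Finset.mul_sum]
        _ ≤ ∑ k ∈ y.support, (8 * phi M (V k) ‖y k‖ + 1 / (2 ^ (k.1 + 1) * m' k.1)) :=
            Finset.sum_le_sum fun k hk => (hq k hk).1
        _ = 8 * (∑ k ∈ y.support, phi M (V k) ‖y k‖) +
              ∑ k ∈ y.support, (1 : ℝ) / (2 ^ (k.1 + 1) * m' k.1) := by
            rw [Finset.sum_add_distrib, Finset.mul_sum]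
        _ ≤ _ := by gcongr
    · calc ∑ k ∈ y.support, phi M (V k) ‖y k‖ ≤
            ∑ k ∈ y.support, (8 * (4 ^ s * phi M (V k) (‖y k‖ / 2 ^ s)) +
              1 / (2 ^ (k.1 + 1) * m' k.1)) :=
            Finset.sum_le_sum fun k hk => (hq k hk).2
        _ = 8 * (4 ^ s * ∑ k ∈ y.support, phi M (V k) (‖y k‖ / 2 ^ s)) +
              ∑ k ∈ y.support, (1 : ℝ) / (2 ^ (k.1 + 1) * m' k.1) := by
            rw [Finset.sum_add_distrib, Finset.mul_sum, Finset.mul_sum]
        _ ≤ _ := by gcongr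
  · -- not Hilbertian
    intro hH
    obtain ⟨C, hC0, hC⟩ := hH.bound
    obtain ⟨j, hj⟩ := exists_nat_gt C
    have hm1 : 1 ≤ m' j := h1 j (used j)
    let y : Fin (m' j) → blockSpace e V := fun c => blockVec e V ⟨j, c⟩
    have hyV : ∀ s : Fin (m' j) → Bool,
        ‖∑ c, (if s c then y c else -y c)‖ = ‖J e (∑ c, V ⟨j, c⟩)‖ := by
      intro s
      have e1 : ((∑ c, (if s c then y c else -y c) : blockSpace e V) : X) =
          ∑ c, (if s c then J e (V ⟨j, c⟩) else -J e (V ⟨j, c⟩)) := by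
        rw [Submodule.coe_sum]
        refine Finset.sum_congr rfl fun c _ => ?_
        split_ifs <;> rfl
      have e2 := norm_sum_sign h (Finset.univ : Finset (Fin (m' j)))
        (u := fun c => V ⟨j, c⟩) (hV.comp (f := fun c : Fin (m' j) => (⟨j, c⟩ : Σ j, Fin (m' j)))
          (fun a b hab => by simpa using hab)) s
      rw [← e2, ← e1]
      rfl
    have hysum : ‖∑ c, y c‖ = ‖J e (∑ c, V ⟨j, c⟩)‖ := by
      have := hyV fun _ => true
      simpa using this
    have hb := hC (m' j) y fun s => by rw [hyV s, hysum]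
    have hyn : ∀ c, ‖y c‖ = ‖J e (V ⟨j, c⟩)‖ := fun c => rfl
    rw [hysum] at hb
    simp only [hyn] at hb
    have hsum1 : 1 ≤ ∑ c, ‖J e (V ⟨j, c⟩)‖ ^ 2 := by
      calc (1 : ℝ) ≤ m' j := by exact_mod_cast hm1
        _ = ∑ _c : Fin (m' j), (1 : ℝ) := by simp
        _ ≤ _ := Finset.sum_le_sum fun c _ => one_le_pow₀ (hVn ⟨j, c⟩)
    have h6' := h6 j (used j)
    have h6'' : ((j + 1 : ℕ) : ℝ) * ∑ c, ‖J e (V ⟨j, c⟩)‖ ^ 2 ≤ ‖J e (∑ c, V ⟨j, c⟩)‖ ^ 2 ∨
        ((j + 1 : ℕ) : ℝ) * ‖J e (∑ c, V ⟨j, c⟩)‖ ^ 2 ≤ ∑ c, ‖J e (V ⟨j, c⟩)‖ ^ 2 := h6'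
    push_cast at h6''
    rcases h6'' with h7 | h7
    · nlinarith [hb.1]
    · have h8 : 0 < ‖J e (∑ c, V ⟨j, c⟩)‖ ^ 2 := by
        by_contra hcon
        push Not at hcon
        have := hb.2
        nlinarith
      nlinarith [hb.2]

theorem single_disj : Disj (fun i : ι => (Finsupp.single i 1 : ι →₀ 𝕜)) := by
  intro i j hij
  refine Finset.disjoint_of_subset_left Finsupp.support_single_subset
    (Finset.disjoint_of_subset_right Finsupp.support_single_subset ?_)
  simpa using hij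

/-- A closed subspace is a *block subspace* if it is the closed linear span of vectors with
pairwise disjoint finite supports with respect to the unit vectors `e i`. -/
def IsBlockSubspace (𝕜 : Type*) [RCLike 𝕜] {ι : Type*} {X : Type*} [NormedAddCommGroup X]
    [NormedSpace 𝕜 X] (e : ι → X) (Y : Submodule 𝕜 X) : Prop :=
  ∃ V : Set (ι →₀ 𝕜), V.PairwiseDisjoint (fun c => c.support) ∧
    Y = (Submodule.span 𝕜 ((fun c => Finsupp.linearCombination 𝕜 e c) '' V)).topologicalClosure

theorem isBlockSubspace_blockSpace {κ : Type*} {v : κ → ι →₀ 𝕜} (hv : Disj v) :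
    IsBlockSubspace 𝕜 e (blockSpace e v) := by
  refine ⟨Set.range v, ?_, ?_⟩
  · rintro _ ⟨i, rfl⟩ _ ⟨j, rfl⟩ hij
    have : i ≠ j := by rintro rfl; exact hij rfl
    exact hv this
  · rw [← Set.range_comp]
    rfl

/-- **Theorem.** Every near Hilbert, non-Hilbertian Musielak–Orlicz sequence space contains a block
subspace which is asymptotically Hilbertian but not Hilbertian. -/
theorem main (h : IsMusielakOrlicz 𝕜 M e) (hX : NearHilbert X) (hnH : ¬ Hilbertian 𝕜 X) :
    ∃ Y : Submodule 𝕜 X, IsClosed (Y : Set X) ∧ IsBlockSubspace 𝕜 e Y ∧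
      AsymptoticallyHilbertian 𝕜 Y ∧ ¬ Hilbertian 𝕜 Y := by
  by_cases hc : Case1 𝕜 M e
  · -- the whole space
    obtain ⟨K, hK, hQ⟩ := hc.quad h
    have h1 := block_isMO h (single_disj (𝕜 := 𝕜) (ι := ι)) (fun i => by simp)
    have h2 : (fun i => phi M (Finsupp.single i (1 : 𝕜))) = M := by
      funext i t
      unfold phi
      rw [Finsupp.sum_single_index]
      · simp
      · simp [(h.orlicz i).zero]
    rw [h2] at h1
    refine ⟨blockSpace e fun i : ι => (Finsupp.single i 1 : ι →₀ 𝕜),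
      Submodule.isClosed_topologicalClosure _, isBlockSubspace_blockSpace single_disj,
      hQ.asymptoticallyHilbertian h1 hK, ?_⟩
    rintro ⟨H, _, _, _, ⟨T⟩⟩
    have h3 : blockSpace e (fun i : ι => (Finsupp.single i 1 : ι →₀ 𝕜)) = ⊤ := by
      unfold blockSpace
      have : (fun k => J e (Finsupp.single k (1 : 𝕜))) = e := by
        funext k
        simp [J]
      rw [this]
      exact h.dense
    refine hnH ⟨H, inferInstance, inferInstance, inferInstance, ⟨?_⟩⟩
    exact (Submodule.topContEquiv (R := 𝕜) (M := X)).symm.trans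
      ((ContinuousLinearEquiv.ofEq _ _ h3.symm).trans T)
  · obtain ⟨κ, v, hv, hA, hnH'⟩ := case2 h hX hc
    exact ⟨blockSpace e v, Submodule.isClosed_topologicalClosure _,
      isBlockSubspace_blockSpace hv, hA, hnH'⟩

end Pool.Agent.H88.MO
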