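import Mathlib

namespace Pool.Agent.H88.MO

open Filter Topology

/-- the weights `min (β ^ l) (β ^ (2 Y - l))`, `β = (b + 1) / b`, times `b ^ (2 Y)` -/
def ker (b Y l : ℕ) : ℕ := min (b ^ (2 * Y - l) * (b + 1) ^ l) (b ^ l * (b + 1) ^ (2 * Y - l))

theorem ker_pos {b : ℕ} (hb : 1 ≤ b) (Y l : ℕ) : 1 ≤ ker b Y l := by
  have h1 : 0 < b ^ (2 * Y - l) * (b + 1) ^ l := by positivity
  have h2 : 0 < b ^ l * (b + 1) ^ (2 * Y - l) := by positivity
  have := lt_min h1 h2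
  exact this

theorem ker_up {b Y l : ℕ} (hl : l + 1 ≤ 2 * Y) : b * ker b Y (l + 1) ≤ (b + 1) * ker b Y l := by
  obtain ⟨m, hm⟩ : ∃ m, 2 * Y = m + (l + 1) := ⟨2 * Y - (l + 1), by omega⟩
  have e1 : 2 * Y - (l + 1) = m := by omega
  have e2 : 2 * Y - l = m + 1 := by omega
  unfold ker
  rw [e1, e2, Nat.mul_min_mul_left', Nat.mul_min_mul_left']
  refine min_le_min ?_ ?_
  · apply le_of_eq; ring
  · calc b * (b ^ (l + 1) * (b + 1) ^ m) = b ^ 2 * (b ^ l * (b + 1) ^ m) := by ring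
      _ ≤ (b + 1) ^ 2 * (b ^ l * (b + 1) ^ m) := by gcongr; omega
      _ = _ := by ring
where
  Nat.mul_min_mul_left' {a x y : ℕ} : a * min x y = min (a * x) (a * y) := by
    rcases le_total x y with h | h
    · rw [min_eq_left h, min_eq_left (Nat.mul_le_mul_left a h)]
    · rw [min_eq_right h, min_eq_right (Nat.mul_le_mul_left a h)]

theorem ker_down {b Y l : ℕ} (hl : l + 1 ≤ 2 * Y) :
    b * ker b Y l ≤ (b + 1) * ker b Y (l + 1) := by
  obtain ⟨m, hm⟩ : ∃ m, 2 * Y = m + (l + 1) := ⟨2 * Y - (l + 1), by omega⟩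
  have e1 : 2 * Y - (l + 1) = m := by omega
  have e2 : 2 * Y - l = m + 1 := by omega
  unfold ker
  rw [e1, e2, ker_up.Nat.mul_min_mul_left', ker_up.Nat.mul_min_mul_left']
  refine min_le_min ?_ ?_
  · calc b * (b ^ (m + 1) * (b + 1) ^ l) = b ^ 2 * (b ^ m * (b + 1) ^ l) := by ring
      _ ≤ (b + 1) ^ 2 * (b ^ m * (b + 1) ^ l) := by gcongr; omega
      _ = _ := by ring
  · apply le_of_eq; ring

theorem one_step {b : ℕ} (hb : 1 ≤ b) {L : ℕ} {w g : ℕ → ℝ} (hg : ∀ l, 0 ≤ g l)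
    (hw : ∀ l, 0 ≤ w l)
    (h1 : ∀ l, l + 1 ≤ L → b * w (l + 1) ≤ (b + 1) * w l)
    (h2 : ∀ l, l + 1 ≤ L → b * w l ≤ (b + 1) * w (l + 1)) (hL : 1 ≤ L)
    (htop : b * (w L * g (L + 1)) ≤ ∑ l ∈ Finset.range L, w (l + 1) * g (l + 1))
    (hbot : b * (w 1 * g 1) ≤ ∑ l ∈ Finset.range L, w (l + 1) * g (l + 2)) :
    (∑ l ∈ Finset.range L, w (l + 1) * g (l + 2)) ≤
      (1 + 2 / b) * ∑ l ∈ Finset.range L, w (l + 1) * g (l + 1) ∧
    (∑ l ∈ Finset.range L, w (l + 1) * g (l + 1)) ≤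
      (1 + 2 / b) * ∑ l ∈ Finset.range L, w (l + 1) * g (l + 2) := by
  have hb0 : (0 : ℝ) < b := by exact_mod_cast hb
  obtain ⟨L', rfl⟩ : ∃ L', L = L' + 1 := ⟨L - 1, by omega⟩
  set S1 := ∑ l ∈ Finset.range (L' + 1), w (l + 1) * g (l + 1) with hS1
  set S2 := ∑ l ∈ Finset.range (L' + 1), w (l + 1) * g (l + 2) with hS2
  have e1 : S1 = ∑ l ∈ Finset.range L', w (l + 2) * g (l + 2) + w 1 * g 1 := by
    rw [hS1, Finset.sum_range_succ']
  have e2 : S2 = ∑ l ∈ Finset.range L', w (l + 1) * g (l + 2) + w (L' + 1) * g (L' + 2) := by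
    rw [hS2, Finset.sum_range_succ]
  have k1 : b * ∑ l ∈ Finset.range L', w (l + 1) * g (l + 2) ≤
      (b + 1) * ∑ l ∈ Finset.range L', w (l + 2) * g (l + 2) := by
    rw [Finset.mul_sum, Finset.mul_sum]
    refine Finset.sum_le_sum fun l hl => ?_
    have := h2 (l + 1) (by have := Finset.mem_range.1 hl; omega)
    have := mul_le_mul_of_nonneg_right this (hg (l + 2))
    linarith
  have k2 : b * ∑ l ∈ Finset.range L', w (l + 2) * g (l + 2) ≤
      (b + 1) * ∑ l ∈ Finset.range L', w (l + 1) * g (l + 2) := by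
    rw [Finset.mul_sum, Finset.mul_sum]
    refine Finset.sum_le_sum fun l hl => ?_
    have := h1 (l + 1) (by have := Finset.mem_range.1 hl; omega)
    have := mul_le_mul_of_nonneg_right this (hg (l + 2))
    linarith
  have p1 : 0 ≤ w 1 * g 1 := mul_nonneg (hw _) (hg _)
  have p2 : 0 ≤ w (L' + 1) * g (L' + 2) := mul_nonneg (hw _) (hg _)
  have c : (1 : ℝ) + 2 / b = (b + 2) / b := by field_simp
  rw [c]
  constructor
  · rw [div_mul_eq_mul_div, le_div_iff₀ hb0]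
    nlinarith
  · rw [div_mul_eq_mul_div, le_div_iff₀ hb0]
    nlinarith

theorem pow_bound {b : ℕ} (hb : 1 ≤ b) {s : ℕ} (hs : s ≤ b) : (1 + 2 / (b : ℝ)) ^ s ≤ 8 := by
  have hb0 : (0 : ℝ) < b := by exact_mod_cast hb
  have h0 : (0 : ℝ) ≤ 2 / b := by positivity
  have h1 : (1 : ℝ) ≤ 1 + 2 / b := by linarith
  calc (1 + 2 / (b : ℝ)) ^ s ≤ (1 + 2 / (b : ℝ)) ^ b := pow_le_pow_right₀ h1 hs
    _ ≤ (Real.exp (2 / b)) ^ b := by
        gcongr
        have := Real.add_one_le_exp (2 / (b : ℝ))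
        linarith
    _ = Real.exp 2 := by
        rw [← Real.exp_nat_mul]
        congr 1
        field_simp
    _ ≤ 8 := by
        have h3 := Real.exp_one_lt_d9
        have h4 : Real.exp 2 = Real.exp 1 * Real.exp 1 := by rw [← Real.exp_add]; norm_num
        rw [h4]
        have h5 := Real.exp_pos 1
        nlinarith

/-- growth condition at scale `b` with constant `A` -/
def Grows (b : ℕ) (A : ℝ) (N : ℝ → ℝ) : Prop :=
  ∀ (a : ℝ) (k : ℕ), 0 ≤ a → a ≤ 1 →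
    4 ^ k * N (a / 2 ^ k) ≤ A * (1 + 1 / (2 * b)) ^ k * N a ∧
      N a ≤ A * (1 + 1 / (2 * b)) ^ k * (4 ^ k * N (a / 2 ^ k))

/-- the smoothed function -/
noncomputable def smooth (L : ℕ) (κ : ℕ → ℕ) (N : ℝ → ℝ) (r : ℝ) : ℝ :=
  ∑ l ∈ Finset.range L, (κ l : ℝ) * N (r / 2 ^ (l + 1))

theorem smooth_mul (L : ℕ) (κ : ℕ → ℕ) (T : ℕ) (N : ℝ → ℝ) (r : ℝ) :
    smooth L (fun l => T * κ l) N r = T * smooth L κ N r := by
  unfold smooth
  rw [Finset.mul_sum]
  refine Finset.sum_congr rfl fun l _ => ?_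
  push_cast
  ring

theorem smoothing_aux {b : ℕ} (hb : 1 ≤ b) {A : ℝ} (hA : 1 ≤ A) :
    ∃ (L : ℕ) (κ : ℕ → ℕ), 1 ≤ L ∧ (∀ l, 1 ≤ κ l) ∧
      ∀ N : ℝ → ℝ, (∀ r, 0 ≤ r → r ≤ 1 → 0 ≤ N r) → Grows b A N →
      ∀ (r : ℝ), 0 ≤ r → r ≤ 1 →
        4 * smooth L κ N (r / 2) ≤ (1 + 2 / b) * smooth L κ N r ∧
        smooth L κ N r ≤ (1 + 2 / b) * (4 * smooth L κ N (r / 2)) := by
  have hb0 : (0 : ℝ) < b := by exact_mod_cast hb
  set γ : ℝ := 1 + 1 / (2 * b) with hγ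
  have h00 : (0 : ℝ) ≤ 1 / (2 * b) := by positivity
  have hγ1 : 1 ≤ γ := by rw [hγ]; linarith
  have hγ0 : 0 < γ := by linarith
  -- choose `Y`
  have hratio : b * γ / (b + 1) < 1 := by
    rw [div_lt_one (by positivity), hγ]
    field_simp
    linarith
  have hratio0 : 0 ≤ b * γ / (b + 1) := by positivity
  obtain ⟨Y0, hY0⟩ := exists_pow_lt_of_lt_one (y := b * γ / (b + 1))
    (x := 1 / ((b + 1) * A * γ)) (by positivity) hratio
  set Y := Y0 + 1 with hY
  have hYle : ((b : ℝ) + 1) * A * γ * (b * γ / (b + 1)) ^ Y ≤ 1 := by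
    have h1 : (b * γ / (b + 1)) ^ Y ≤ (b * γ / (b + 1)) ^ Y0 :=
      pow_le_pow_of_le_one hratio0 hratio.le (by omega)
    have h2 : (b * γ / (b + 1)) ^ Y ≤ 1 / ((b + 1) * A * γ) := h1.trans hY0.le
    calc ((b : ℝ) + 1) * A * γ * (b * γ / (b + 1)) ^ Y ≤
          (b + 1) * A * γ * (1 / ((b + 1) * A * γ)) := by gcongr
      _ = 1 := by field_simp
  have hYle' : ((b : ℝ) + 1) * A * γ * (b ^ Y * γ ^ Y) ≤ (b + 1) ^ Y := by
    rw [div_pow, mul_pow, ← mul_div_assoc, div_le_one (by positivity)] at hYle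
    exact hYle
  refine ⟨2 * Y, fun l => 4 ^ (l + 1) * ker b Y (l + 1), by omega,
    fun l => Nat.one_le_iff_ne_zero.2 (by
      have := ker_pos hb Y (l + 1); positivity), ?_⟩
  intro N hN hgr r hr hr1
  set g : ℕ → ℝ := fun l => 4 ^ l * N (r / 2 ^ l) with hg
  have hr2 : ∀ l : ℕ, r / 2 ^ l ≤ 1 := fun l => by
    rw [div_le_one (by positivity)]
    exact hr1.trans (one_le_pow₀ (by norm_num))
  have hr3 : ∀ l : ℕ, 0 ≤ r / 2 ^ l := fun l => by positivity
  have hg0 : ∀ l, 0 ≤ g l := fun l => by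
    have := hN _ (hr3 l) (hr2 l)
    positivity
  have hgk : ∀ l k, g (l + k) ≤ A * γ ^ k * g l ∧ g l ≤ A * γ ^ k * g (l + k) := by
    intro l k
    have h1 := hgr (r / 2 ^ l) k (hr3 l) (hr2 l)
    have h2 : r / 2 ^ l / 2 ^ k = r / 2 ^ (l + k) := by rw [pow_add, div_div]
    rw [h2] at h1
    simp only [hg]
    have h4 : (0 : ℝ) ≤ 4 ^ l := by positivity
    constructor
    · calc (4 : ℝ) ^ (l + k) * N (r / 2 ^ (l + k)) = 4 ^ l * (4 ^ k * N (r / 2 ^ (l + k))) := by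
            rw [pow_add]; ring
        _ ≤ 4 ^ l * (A * γ ^ k * N (r / 2 ^ l)) := mul_le_mul_of_nonneg_left h1.1 h4
        _ = _ := by ring
    · calc (4 : ℝ) ^ l * N (r / 2 ^ l) ≤ 4 ^ l * (A * γ ^ k * (4 ^ k * N (r / 2 ^ (l + k)))) :=
            mul_le_mul_of_nonneg_left h1.2 h4
        _ = _ := by rw [pow_add]; ring
  set w : ℕ → ℝ := fun l => (ker b Y l : ℝ) with hw
  have hw0 : ∀ l, 0 ≤ w l := fun l => by positivity
  have e1 : smooth (2 * Y) (fun l => 4 ^ (l + 1) * ker b Y (l + 1)) N r =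
      ∑ l ∈ Finset.range (2 * Y), w (l + 1) * g (l + 1) := by
    unfold smooth
    refine Finset.sum_congr rfl fun l _ => ?_
    simp only [hw, hg]
    push_cast
    ring
  have e2 : 4 * smooth (2 * Y) (fun l => 4 ^ (l + 1) * ker b Y (l + 1)) N (r / 2) =
      ∑ l ∈ Finset.range (2 * Y), w (l + 1) * g (l + 2) := by
    unfold smooth
    rw [Finset.mul_sum]
    refine Finset.sum_congr rfl fun l _ => ?_
    simp only [hw, hg]
    have : r / 2 / 2 ^ (l + 1) = r / 2 ^ (l + 2) := by rw [div_div]; congr 1; ring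
    rw [this]
    push_cast
    ring
  rw [e1, e2]
  have hwY : w Y = b ^ Y * (b + 1) ^ Y := by
    simp only [hw, ker]
    have : 2 * Y - Y = Y := by omega
    rw [this, min_self]
    push_cast
    ring
  refine one_step hb hg0 hw0 ?_ ?_ (by omega) ?_ ?_
  · intro l hl
    simp only [hw]
    exact_mod_cast ker_up (b := b) (Y := Y) hl
  · intro l hl
    simp only [hw]
    exact_mod_cast ker_down (b := b) (Y := Y) hl
  · -- top
    have hwL : w (2 * Y) ≤ b ^ (2 * Y) := by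
      simp only [hw, ker]
      have : 2 * Y - 2 * Y = 0 := by omega
      rw [this, pow_zero, pow_zero, mul_one]
      exact_mod_cast min_le_right _ _
    have h1 := (hgk Y (Y + 1)).1
    have h2 : Y + (Y + 1) = 2 * Y + 1 := by ring
    rw [h2] at h1
    calc b * (w (2 * Y) * g (2 * Y + 1)) ≤ b * (b ^ (2 * Y) * (A * γ ^ (Y + 1) * g Y)) := by
          gcongr
          exact hg0 _
      _ = b ^ Y * (b * A * γ * (b ^ Y * γ ^ Y)) * g Y := by ring
      _ ≤ b ^ Y * ((b + 1) * A * γ * (b ^ Y * γ ^ Y)) * g Y := by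
          have := hg0 Y
          gcongr
          linarith
      _ ≤ b ^ Y * (b + 1) ^ Y * g Y := by
          have := hg0 Y
          gcongr
      _ = w Y * g Y := by rw [hwY]
      _ ≤ ∑ l ∈ Finset.range (2 * Y), w (l + 1) * g (l + 1) := by
          have hmem : Y0 ∈ Finset.range (2 * Y) := Finset.mem_range.2 (by omega)
          exact Finset.single_le_sum (f := fun l => w (l + 1) * g (l + 1))
            (fun l _ => mul_nonneg (hw0 _) (hg0 _)) hmem
  · -- bottom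
    have hw1 : b * w 1 ≤ b ^ (2 * Y) * (b + 1) := by
      simp only [hw, ker]
      have h3 : min (b ^ (2 * Y - 1) * (b + 1) ^ 1) (b ^ 1 * (b + 1) ^ (2 * Y - 1)) ≤
        b ^ (2 * Y - 1) * (b + 1) ^ 1 := min_le_left _ _
      have h4 : b * (b ^ (2 * Y - 1) * (b + 1) ^ 1) = b ^ (2 * Y) * (b + 1) := by
        have : 2 * Y = (2 * Y - 1) + 1 := by omega
        rw [pow_one]
        conv_rhs => rw [this]
        ring
      have h5 := (Nat.mul_le_mul_left b h3).trans h4.le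
      exact_mod_cast h5
    have h1 := (hgk 1 Y).2
    have h2 : 1 + Y = Y + 1 := by ring
    rw [h2] at h1
    calc b * (w 1 * g 1) = (b * w 1) * g 1 := by ring
      _ ≤ (b ^ (2 * Y) * (b + 1)) * (A * γ ^ Y * g (Y + 1)) := by
          gcongr
          exact hg0 _
      _ = b ^ Y * ((b + 1) * A * 1 * (b ^ Y * γ ^ Y)) * g (Y + 1) := by ring
      _ ≤ b ^ Y * ((b + 1) * A * γ * (b ^ Y * γ ^ Y)) * g (Y + 1) := by
          have := hg0 (Y + 1)
          gcongr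
      _ ≤ b ^ Y * (b + 1) ^ Y * g (Y + 1) := by
          have := hg0 (Y + 1)
          gcongr
      _ = w Y * g (Y + 1) := by rw [hwY]
      _ ≤ ∑ l ∈ Finset.range (2 * Y), w (l + 1) * g (l + 2) := by
          have hmem : Y0 ∈ Finset.range (2 * Y) := Finset.mem_range.2 (by omega)
          exact Finset.single_le_sum (f := fun l => w (l + 1) * g (l + 2))
            (fun l _ => mul_nonneg (hw0 _) (hg0 _)) hmem

/-- **Smoothing.** For each constant `A` and each scale `b` there are natural numbers `κ_l` such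
that for all functions `N` with growth constant `A` the function
`Q r = ∑ κ_l N (2 ^ (-l-1) r)` is quadratic up to a factor `8` over `b` dyadic scales. -/
theorem smoothing {b : ℕ} (hb : 1 ≤ b) {A : ℝ} (hA : 1 ≤ A) :
    ∃ (L : ℕ) (κ : ℕ → ℕ), 1 ≤ L ∧ (∀ l, 1 ≤ κ l) ∧
      ∀ N : ℝ → ℝ, (∀ r, 0 ≤ r → r ≤ 1 → 0 ≤ N r) → Grows b A N →
      ∀ (r : ℝ) (s : ℕ), 0 ≤ r → r ≤ 1 → s ≤ b →
        4 ^ s * smooth L κ N (r / 2 ^ s) ≤ 8 * smooth L κ N r ∧
        smooth L κ N r ≤ 8 * (4 ^ s * smooth L κ N (r / 2 ^ s)) := by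
  obtain ⟨L, κ, hL, hκ, H⟩ := smoothing_aux hb hA
  refine ⟨L, κ, hL, hκ, ?_⟩
  intro N hN hgr r s hr hr1 hs
  have hr2 : ∀ l : ℕ, r / 2 ^ l ≤ 1 := fun l => by
    rw [div_le_one (by positivity)]
    exact hr1.trans (one_le_pow₀ (by norm_num))
  have hr3 : ∀ l : ℕ, 0 ≤ r / 2 ^ l := fun l => by positivity
  have hQ0 : ∀ l : ℕ, 0 ≤ smooth L κ N (r / 2 ^ l) := by
    intro l
    refine Finset.sum_nonneg fun j _ => mul_nonneg (by positivity) (hN _ (by positivity) ?_)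
    rw [div_div, ← pow_add]
    exact hr2 _
  have hc : (0 : ℝ) ≤ 1 + 2 / b := by positivity
  have key : ∀ s : ℕ, 4 ^ s * smooth L κ N (r / 2 ^ s) ≤ (1 + 2 / b) ^ s * smooth L κ N r ∧
      smooth L κ N r ≤ (1 + 2 / b) ^ s * (4 ^ s * smooth L κ N (r / 2 ^ s)) := by
    intro s
    induction s with
    | zero => simp
    | succ s ih =>
      have h1 := H N hN hgr (r / 2 ^ s) (hr3 s) (hr2 s)
      have h2 : r / 2 ^ s / 2 = r / 2 ^ (s + 1) := by rw [div_div]; congr 1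
      rw [h2] at h1
      have h4 : (0 : ℝ) ≤ 4 ^ s := by positivity
      constructor
      · calc (4 : ℝ) ^ (s + 1) * smooth L κ N (r / 2 ^ (s + 1)) =
              4 ^ s * (4 * smooth L κ N (r / 2 ^ (s + 1))) := by ring
          _ ≤ 4 ^ s * ((1 + 2 / b) * smooth L κ N (r / 2 ^ s)) :=
              mul_le_mul_of_nonneg_left h1.1 h4
          _ = (1 + 2 / b) * (4 ^ s * smooth L κ N (r / 2 ^ s)) := by ring
          _ ≤ (1 + 2 / b) * ((1 + 2 / b) ^ s * smooth L κ N r) :=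
              mul_le_mul_of_nonneg_left ih.1 hc
          _ = _ := by ring
      · calc smooth L κ N r ≤ (1 + 2 / b) ^ s * (4 ^ s * smooth L κ N (r / 2 ^ s)) := ih.2
          _ ≤ (1 + 2 / b) ^ s * (4 ^ s * ((1 + 2 / b) * (4 * smooth L κ N (r / 2 ^ (s + 1))))) := by
              refine mul_le_mul_of_nonneg_left ?_ (by positivity)
              exact mul_le_mul_of_nonneg_left h1.2 h4
          _ = _ := by ring
  have hp := pow_bound hb hs
  have h0 := hQ0 0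
  rw [pow_zero, div_one] at h0
  refine ⟨(key s).1.trans (mul_le_mul_of_nonneg_right hp h0), (key s).2.trans ?_⟩
  exact mul_le_mul_of_nonneg_right hp (mul_nonneg (by positivity) (hQ0 s))

end Pool.Agent.H88.MO
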