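import Pool.Agent.H88.MO.Growth
import Pool.Agent.H88.MO.Smooth

namespace Pool.Agent.H88.MO

open Filter Topology

variable {𝕜 : Type*} [RCLike 𝕜] {ι : Type*} {M : ι → ℝ → ℝ}
variable {X : Type*} [NormedAddCommGroup X] [NormedSpace 𝕜 X] {e : ι → X}
variable {u : ℕ → ι →₀ 𝕜} {N : ℝ → ℝ}

/-- `∑_l ∑_{i < κ_l} 2 ^ (-l-1) u_{g (l, i)}` -/
noncomputable def mkv (L : ℕ) (κ : ℕ → ℕ) (u : ℕ → ι →₀ 𝕜)
    (g : (Σ l : Fin L, Fin (κ l)) → ℕ) : ι →₀ 𝕜 :=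
  ∑ x : (Σ l : Fin L, Fin (κ l)), (((1 / 2 ^ ((x.1 : ℕ) + 1) : ℝ)) : 𝕜) • u (g x)

theorem mkv_support {L : ℕ} {κ : ℕ → ℕ} {g : (Σ l : Fin L, Fin (κ l)) → ℕ} {F : Finset ι}
    (h : ∀ x, Disjoint (u (g x)).support F) : Disjoint (mkv L κ u g).support F := by
  classical
  unfold mkv
  refine Finset.disjoint_of_subset_left Finsupp.support_finsetSum ?_
  rw [Finset.disjoint_biUnion_left]
  exact fun x _ => Finset.disjoint_of_subset_left Finsupp.support_smul (h x)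

theorem phi_mkv (hM : ∀ i, Orlicz (M i)) (hu : Disj u) {L : ℕ} {κ : ℕ → ℕ}
    {g : (Σ l : Fin L, Fin (κ l)) → ℕ} (hg : Function.Injective g) (t : ℝ) :
    phi M (mkv L κ u g) t =
      ∑ x : (Σ l : Fin L, Fin (κ l)), phi M (u (g x)) (t * (1 / 2 ^ ((x.1 : ℕ) + 1))) := by
  unfold mkv
  have hd : Disj fun x : (Σ l : Fin L, Fin (κ l)) =>
      (((1 / 2 ^ ((x.1 : ℕ) + 1) : ℝ)) : 𝕜) • u (g x) := (hu.comp hg).smul _
  rw [phi_sum _ _ fun i _ j _ hij => hd hij]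
  exact Finset.sum_congr rfl fun x _ => phi_real_smul hM (by positivity) _ _

theorem sum_sigma_eq (L : ℕ) (κ : ℕ → ℕ) (f : ℕ → ℝ) :
    ∑ x : (Σ l : Fin L, Fin (κ l)), f x.1 = ∑ l ∈ Finset.range L, (κ l : ℝ) * f l := by
  rw [Fintype.sum_sigma, Finset.sum_range]
  refine Finset.sum_congr rfl fun l _ => ?_
  simp

theorem mkv_close (hM : ∀ i, Orlicz (M i)) (hu : Disj u) {L : ℕ} {κ : ℕ → ℕ}
    {g : (Σ l : Fin L, Fin (κ l)) → ℕ} (hg : Function.Injective g) {δ : ℝ}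
    (hδ : ∀ x, ∀ y, 0 ≤ y → y ≤ 1 / 2 → |phi M (u (g x)) y - N y| ≤ δ) {t : ℝ} (ht : 0 ≤ t)
    (ht1 : t ≤ 1) :
    |phi M (mkv L κ u g) t - smooth L κ N t| ≤ (∑ l ∈ Finset.range L, (κ l : ℝ)) * δ := by
  rw [phi_mkv hM hu hg]
  have h1 : smooth L κ N t = ∑ x : (Σ l : Fin L, Fin (κ l)), N (t * (1 / 2 ^ ((x.1 : ℕ) + 1))) := by
    rw [sum_sigma_eq L κ (fun l => N (t * (1 / 2 ^ (l + 1))))]
    unfold smooth
    refine Finset.sum_congr rfl fun l _ => ?_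
    rw [mul_one_div]
  have h2 : (∑ l ∈ Finset.range L, (κ l : ℝ)) * δ = ∑ _x : (Σ l : Fin L, Fin (κ l)), δ := by
    have := sum_sigma_eq L κ (fun _ => δ)
    rw [this, Finset.sum_mul]
  rw [h1, h2, ← Finset.sum_sub_distrib]
  refine (Finset.abs_sum_le_sum_abs _ _).trans (Finset.sum_le_sum fun x _ => ?_)
  have h3 : (1 : ℝ) / 2 ^ ((x.1 : ℕ) + 1) ≤ 1 / 2 := by
    apply one_div_le_one_div_of_le (by norm_num)
    calc (2 : ℝ) = 2 ^ 1 := by norm_num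
      _ ≤ _ := pow_le_pow_right₀ (by norm_num) (by omega)
  have h4 : (0 : ℝ) ≤ 1 / 2 ^ ((x.1 : ℕ) + 1) := by positivity
  exact hδ x _ (by positivity) (by nlinarith)

theorem norm_mkv_le (hn : ∀ i, ‖J e (u i)‖ = 1) {L : ℕ} {κ : ℕ → ℕ}
    {g : (Σ l : Fin L, Fin (κ l)) → ℕ} :
    ‖J e (mkv L κ u g)‖ ≤ ∑ l ∈ Finset.range L, (κ l : ℝ) * (1 / 2 ^ (l + 1)) := by
  rw [← sum_sigma_eq L κ (fun l => 1 / 2 ^ (l + 1))]
  unfold mkv
  rw [J, map_sum]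
  refine (norm_sum_le _ _).trans (Finset.sum_le_sum fun x _ => ?_)
  have := norm_real_smul (𝕜 := 𝕜) (e := e) (a := 1 / 2 ^ ((x.1 : ℕ) + 1)) (by positivity) (u (g x))
  rw [this, hn, mul_one]

/-- bound of the smoothed function -/
theorem smooth_le (h : IsMusielakOrlicz 𝕜 M e) (hL : LimitOf M e u N) (L : ℕ) (κ : ℕ → ℕ)
    {t : ℝ} (ht : 0 ≤ t) (ht1 : t ≤ 1) :
    smooth L κ N t ≤ (∑ l ∈ Finset.range L, (κ l : ℝ) * (1 / 2 ^ (l + 1))) * N t := by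
  unfold smooth
  rw [Finset.sum_mul]
  refine Finset.sum_le_sum fun l _ => ?_
  have h1 := hL.scale h (s := 1 / 2 ^ (l + 1)) (t := t) (by positivity)
    (by rw [div_le_one (by positivity)]; exact one_le_pow₀ (by norm_num)) ht ht1
  calc (κ l : ℝ) * N (t / 2 ^ (l + 1)) = κ l * N (1 / 2 ^ (l + 1) * t) := by
        congr 2; ring
    _ ≤ κ l * (1 / 2 ^ (l + 1) * N t) := by gcongr
    _ = _ := by ring

theorem le_smooth (h : IsMusielakOrlicz 𝕜 M e) (hL : LimitOf M e u N) {L : ℕ} (hL1 : 1 ≤ L)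
    (κ : ℕ → ℕ) {t : ℝ} (ht : 0 ≤ t) (ht1 : t ≤ 1) :
    κ 0 * N (t / 2) ≤ smooth L κ N t := by
  unfold smooth
  have hmem : 0 ∈ Finset.range L := Finset.mem_range.2 hL1
  have := Finset.single_le_sum (f := fun l => (κ l : ℝ) * N (t / 2 ^ (l + 1)))
    (fun l _ => mul_nonneg (by positivity) (hL.nonneg h (by positivity) (by
      rw [div_le_one (by positivity)]
      exact ht1.trans (one_le_pow₀ (by norm_num))))) hmem
  simpa using this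

theorem smooth_nonneg (h : IsMusielakOrlicz 𝕜 M e) (hL : LimitOf M e u N) (L : ℕ)
    (κ : ℕ → ℕ) {t : ℝ} (ht : 0 ≤ t) (ht1 : t ≤ 1) : 0 ≤ smooth L κ N t :=
  Finset.sum_nonneg fun l _ => mul_nonneg (by positivity) (hL.nonneg h (by positivity) (by
      rw [div_le_one (by positivity)]
      exact ht1.trans (one_le_pow₀ (by norm_num))))

/-- disjoint sequences exist if there are vectors off all finite sets -/
theorem exists_disj_seq {P : (ι →₀ 𝕜) → Prop}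
    (h : ∀ F : Finset ι, ∃ u : ι →₀ 𝕜, Disjoint u.support F ∧ P u) :
    ∃ u : ℕ → ι →₀ 𝕜, Disj u ∧ ∀ i, P (u i) := by
  classical
  have : Std.Symm (fun x y : ι →₀ 𝕜 => Disjoint x.support y.support) := ⟨fun _ _ h => h.symm⟩
  obtain ⟨f, hf1, hf2⟩ := exists_seq_of_forall_finset_exists' P
    (fun x y : ι →₀ 𝕜 => Disjoint x.support y.support) (by
      intro s _
      obtain ⟨u, hu1, hu2⟩ := h (s.biUnion fun x => x.support)
      refine ⟨u, hu2, fun x hx => ?_⟩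
      exact (Finset.disjoint_of_subset_right
        (Finset.subset_biUnion_of_mem (fun x : ι →₀ 𝕜 => x.support) hx) hu1).symm)
  exact ⟨f, hf2, hf1⟩

theorem phi_le_mul_norm (h : IsMusielakOrlicz 𝕜 M e) (c : ι →₀ 𝕜) {t : ℝ} (ht : 0 ≤ t)
    (htc : t * ‖J e c‖ ≤ 1) : phi M c t ≤ t * ‖J e c‖ := by
  have h1 := phi_le_norm h ((t : 𝕜) • c) (by rw [norm_real_smul ht]; exact htc)
  rwa [norm_real_smul ht, phi_real_smul h.orlicz ht, one_mul] at h1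

end Pool.Agent.H88.MO
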