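import Pool.Agent.H88.MO.Basic

namespace Pool.Agent.H88.MO

open Filter Topology

variable {𝕜 : Type*} [RCLike 𝕜] {ι : Type*} {M : ι → ℝ → ℝ}

/-- pairwise disjoint supports -/
def Disj {κ : Type*} (u : κ → ι →₀ 𝕜) : Prop :=
  Pairwise fun i j => Disjoint (u i).support (u j).support

theorem Disj.eq_zero {κ : Type*} {u : κ → ι →₀ 𝕜} (hu : Disj u) {i j : κ} (hij : j ≠ i) {k : ι}
    (h : u i k ≠ 0) : u j k = 0 := by
  by_contra hcon
  exact Finset.disjoint_left.1 (hu hij.symm) (Finsupp.mem_support_iff.2 h)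
    (Finsupp.mem_support_iff.2 hcon)

theorem sum_apply_norm {κ : Type*} {s : Finset κ} {u : κ → ι →₀ 𝕜} (hu : Disj u) (k : ι) :
    ‖(∑ i ∈ s, u i) k‖ = ∑ i ∈ s, ‖u i k‖ := by
  classical
  rw [Finsupp.finsetSum_apply]
  by_cases hex : ∃ i ∈ s, u i k ≠ 0
  · obtain ⟨i, hi, hik⟩ := hex
    rw [Finset.sum_eq_single i, Finset.sum_eq_single i]
    · intro j _ hj; rw [hu.eq_zero hj hik, norm_zero]
    · intro h; exact absurd hi h
    · intro j _ hj; rw [hu.eq_zero hj hik]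
    · intro h; exact absurd hi h
  · push Not at hex
    rw [Finset.sum_eq_zero hex, Finset.sum_eq_zero]
    · simp
    · intro i hi; rw [hex i hi, norm_zero]

variable {X : Type*} [NormedAddCommGroup X] [NormedSpace 𝕜 X] {e : ι → X}

theorem norm_sum_twist (h : IsMusielakOrlicz 𝕜 M e) {κ : Type*} (s : Finset κ)
    {u u' : κ → ι →₀ 𝕜} (hu : Disj u) (hu' : Disj u') (huu : ∀ i k, ‖u i k‖ = ‖u' i k‖) :
    ‖J e (∑ i ∈ s, u i)‖ = ‖J e (∑ i ∈ s, u' i)‖ := by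
  apply norm_J_congr h
  intro k
  rw [sum_apply_norm hu, sum_apply_norm hu']
  exact Finset.sum_congr rfl fun i _ => huu i k

theorem Disj.sign {κ : Type*} {u : κ → ι →₀ 𝕜} (hu : Disj u) (s : κ → Bool) :
    Disj fun i => if s i then u i else -u i := by
  intro i j hij
  have := hu hij
  dsimp only
  split_ifs <;> simpa using this

theorem Disj.smul {κ : Type*} {u : κ → ι →₀ 𝕜} (hu : Disj u) (a : κ → 𝕜) :
    Disj fun i => a i • u i := by
  intro i j hij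
  exact Finset.disjoint_of_subset_left Finsupp.support_smul
    (Finset.disjoint_of_subset_right Finsupp.support_smul (hu hij))

theorem norm_sum_sign (h : IsMusielakOrlicz 𝕜 M e) {κ : Type*} (t : Finset κ)
    {u : κ → ι →₀ 𝕜} (hu : Disj u) (s : κ → Bool) :
    ‖∑ i ∈ t, (if s i then J e (u i) else -J e (u i))‖ = ‖J e (∑ i ∈ t, u i)‖ := by
  have : ∑ i ∈ t, (if s i then J e (u i) else -J e (u i)) =
      J e (∑ i ∈ t, (if s i then u i else -u i)) := by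
    rw [J, map_sum]
    refine Finset.sum_congr rfl fun i _ => ?_
    split_ifs <;> simp
  rw [this]
  refine norm_sum_twist h t (hu.sign s) hu ?_
  intro i k
  split_ifs <;> simp

theorem radMean_disj (h : IsMusielakOrlicz 𝕜 M e) {n : ℕ} {u : Fin n → ι →₀ 𝕜} (hu : Disj u) :
    radMean (fun i => J e (u i)) = ‖J e (∑ i, u i)‖ := by
  unfold radMean
  simp only [norm_sum_sign h Finset.univ hu]
  rw [Finset.sum_const, Finset.card_univ]
  simp only [Fintype.card_pi, Fintype.card_bool, Finset.prod_const, Finset.card_univ,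
    Fintype.card_fin, nsmul_eq_mul, Nat.cast_pow, Nat.cast_ofNat]
  rw [mul_div_assoc, mul_div_cancel₀ _ (by positivity), Real.sqrt_sq (norm_nonneg _)]

/-- Upper estimate from type `p`. -/
theorem type_disj (h : IsMusielakOrlicz 𝕜 M e) {p C : ℝ} (hp : 1 ≤ p)
    (hC : ∀ (n : ℕ) (x : Fin n → X), radMean x ≤ C * (∑ i, ‖x i‖ ^ p) ^ (1 / p)) (hC0 : 0 < C)
    {n : ℕ} {u : Fin n → ι →₀ 𝕜} (hu : Disj u) {τ : ℝ} (hτ : 0 ≤ τ)
    (hn : ∀ i, ‖J e (u i)‖ ≤ τ) (hle : C ^ p * (n * τ ^ p) ≤ 1) :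
    ‖J e (∑ i, u i)‖ ≤ 1 := by
  rw [← radMean_disj h hu]
  refine (hC n _).trans ?_
  have h1 : (∑ i, ‖J e (u i)‖ ^ p) ≤ n * τ ^ p := by
    calc (∑ i, ‖J e (u i)‖ ^ p) ≤ ∑ _i : Fin n, τ ^ p :=
          Finset.sum_le_sum fun i _ => Real.rpow_le_rpow (norm_nonneg _) (hn i) (by linarith)
      _ = n * τ ^ p := by simp
  have h2 : (∑ i, ‖J e (u i)‖ ^ p) ≤ (C⁻¹) ^ p := by
    refine h1.trans ?_
    rw [Real.inv_rpow hC0.le, inv_eq_one_div, le_div_iff₀ (Real.rpow_pos_of_pos hC0 _), mul_comm]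
    exact hle
  have h3 : (∑ i, ‖J e (u i)‖ ^ p) ^ (1 / p) ≤ C⁻¹ := by
    calc (∑ i, ‖J e (u i)‖ ^ p) ^ (1 / p) ≤ ((C⁻¹) ^ p) ^ (1 / p) :=
          Real.rpow_le_rpow (Finset.sum_nonneg fun i _ => by positivity) h2 (by positivity)
      _ = C⁻¹ := by
          rw [← Real.rpow_mul (by positivity), mul_one_div_cancel (by linarith), Real.rpow_one]
  calc C * (∑ i, ‖J e (u i)‖ ^ p) ^ (1 / p) ≤ C * C⁻¹ := by gcongr
    _ = 1 := mul_inv_cancel₀ hC0.ne'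

/-- Lower estimate from cotype `q`. -/
theorem cotype_disj (h : IsMusielakOrlicz 𝕜 M e) {q C : ℝ} (hq : 1 ≤ q)
    (hC : ∀ (n : ℕ) (x : Fin n → X), (∑ i, ‖x i‖ ^ q) ^ (1 / q) ≤ C * radMean x) (hC0 : 0 < C)
    {n : ℕ} {u : Fin n → ι →₀ 𝕜} (hu : Disj u) {τ : ℝ} (hτ : 0 ≤ τ)
    (hn : ∀ i, τ ≤ ‖J e (u i)‖) (hle : C ^ q ≤ n * τ ^ q) :
    1 ≤ ‖J e (∑ i, u i)‖ := by
  have h0 := hC n (fun i => J e (u i))
  rw [radMean_disj h hu] at h0
  have h1 : n * τ ^ q ≤ (∑ i, ‖J e (u i)‖ ^ q) := by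
    calc n * τ ^ q = ∑ _i : Fin n, τ ^ q := by simp
      _ ≤ _ := Finset.sum_le_sum fun i _ => Real.rpow_le_rpow hτ (hn i) (by linarith)
  have h3 : C ≤ (∑ i, ‖J e (u i)‖ ^ q) ^ (1 / q) := by
    calc C = (C ^ q) ^ (1 / q) := by
          rw [← Real.rpow_mul hC0.le, mul_one_div_cancel (by linarith), Real.rpow_one]
      _ ≤ _ := Real.rpow_le_rpow (by positivity) (hle.trans h1) (by positivity)
  have h4 : C * 1 ≤ C * ‖J e (∑ i, u i)‖ := by rw [mul_one]; exact h3.trans h0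
  exact le_of_mul_le_mul_left h4 hC0

theorem HasType.pos_const {Z : Type*} [NormedAddCommGroup Z] {p : ℝ} (h : HasType Z p) :
    ∃ C : ℝ, 1 ≤ C ∧
      ∀ (n : ℕ) (x : Fin n → Z), radMean x ≤ C * (∑ i, ‖x i‖ ^ p) ^ (1 / p) := by
  obtain ⟨C, hC⟩ := h
  refine ⟨max 1 C, le_max_left _ _, fun n x => (hC n x).trans ?_⟩
  have : 0 ≤ (∑ i, ‖x i‖ ^ p) ^ (1 / p) := by positivity
  gcongr
  exact le_max_right _ _

theorem HasCotype.pos_const {Z : Type*} [NormedAddCommGroup Z] {q : ℝ} (h : HasCotype Z q) :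
    ∃ C : ℝ, 1 ≤ C ∧
      ∀ (n : ℕ) (x : Fin n → Z), (∑ i, ‖x i‖ ^ q) ^ (1 / q) ≤ C * radMean x := by
  obtain ⟨C, hC⟩ := h
  refine ⟨max 1 C, le_max_left _ _, fun n x => (hC n x).trans ?_⟩
  have : 0 ≤ radMean x := by unfold radMean; positivity
  gcongr
  exact le_max_right _ _

end Pool.Agent.H88.MO
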